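import Pool.Agent.Lib.MP_1a91b9_nuZ.Bd

/-!
# Twisted base: the final theorems with the finite set of exceptional prime numbers
-/

set_option autoImplicit false

namespace Pool.Agent.Lib.MP_1a91b9_nuZ

open NumberField IsDedekindDomain WeierstrassCurve Module
open Pool.Agent.Lib.MP_1a91b9_nuI
open Pool.Agent.Lib.MP_1a91b9_nuT.S9 (period)
open Pool.Agent.Lib.MP_1a91b9_nuE (bE)

/-- The conditions on the prime number `ℓ` in plain terms. -/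
def PlT (ℓ m : ℕ) (A B d : ℤ) (e : ℕ) (q : ℚ) {N₀ : Type} [Field N₀] [NumberField N₀]
    (F₀ : Type) [Field F₀] [NumberField F₀] [Algebra N₀ F₀] (α β : 𝓞 N₀) : Prop :=
  ∀ c : ℤ, c = m * (6 * (4 * A ^ 3 + 27 * B ^ 2) * d * (if d ≤ -19 then (1 - d) / 4 else 1)) →
    ¬ (ℓ : ℤ) ∣ c ∧ (∀ p : ℕ, p.Prime → (p : ℤ) ∣ c → ¬ ℓ ∣ p ^ 2 - 1) ∧
    ¬ ℓ ∣ 2 ^ e - 1 ∧ ¬ (ℓ : ℤ) ∣ q.num ∧ ¬ ℓ ∣ q.den ∧
    ∀ v : HeightOneSpectrum (𝓞 F₀),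
      (c : 𝓞 F₀) * (6 * (4 * algebraMap (𝓞 N₀) (𝓞 F₀) α ^ 3 +
        27 * algebraMap (𝓞 N₀) (𝓞 F₀) β ^ 2)) ∈ v.asIdeal →
    ∀ (V : WeierstrassCurve (𝓞 F₀)) (D : VariableChange F₀),
      D • (⟨0, 0, 0, algebraMap N₀ F₀ α, algebraMap N₀ F₀ β⟩ : WeierstrassCurve F₀) =
        V.map (algebraMap (𝓞 F₀) F₀) → V.Δ ∉ v.asIdeal →
      ¬ ℓ ∣ Nat.card (V.map (Ideal.Quotient.mk v.asIdeal)).toAffine.Point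

section
variable {ℓ m : ℕ} {A B d : ℤ} {e : ℕ} {q : ℚ} {N₀ F₀ : Type} [Field N₀] [NumberField N₀]
  [Field F₀] [NumberField F₀] [Algebra N₀ F₀] {α β : 𝓞 N₀}

theorem PlT.cnd (hℓ : ℓ.Prime) (h : PlT ℓ m A B d e q F₀ α β) :
    CndT ℓ m (bE A B d) e q (algebraMap (𝓞 N₀) (𝓞 F₀) α) (algebraMap (𝓞 N₀) (𝓞 F₀) β) :=
  cndT_mk hℓ (h _ rfl)

theorem plT_of (h : CndT ℓ m (bE A B d) e q (algebraMap (𝓞 N₀) (𝓞 F₀) α)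
    (algebraMap (𝓞 N₀) (𝓞 F₀) β)) : PlT ℓ m A B d e q F₀ α β := by
  rintro c rfl
  refine ⟨h.cop, h.sq, h.e2, fun hd => ?_, fun hd => ?_, h.pts⟩
  · have h1 := h.num.isUnit_of_dvd' hd dvd_rfl
    have h2 := Int.isUnit_iff.1 h1
    have h3 := h.prime.one_lt
    omega
  · exact (Nat.Prime.coprime_iff_not_dvd h.prime).1 h.den.symm hd

end

/-- the set of the exceptional prime numbers -/
theorem exists_exc {P : ℕ → Prop} (B : ℕ) (h : ∀ ℓ : ℕ, ℓ.Prime → B < ℓ → P ℓ) :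
    ∃ S : Finset ℕ, (∀ ℓ : ℕ, ℓ.Prime → P ℓ → ℓ ∉ S) ∧ ∀ ℓ : ℕ, ℓ.Prime → ℓ ∉ S → P ℓ := by
  classical
  refine ⟨(Finset.range (B + 1)).filter fun ℓ => ¬ P ℓ, fun ℓ _ h1 h2 => ?_,
    fun ℓ hℓ h1 => ?_⟩
  · exact (Finset.mem_filter.1 h2).2 h1
  · by_contra h2
    apply h1
    rw [Finset.mem_filter, Finset.mem_range]
    refine ⟨?_, h2⟩
    by_contra h3
    exact h2 (h ℓ hℓ (by omega))

section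
variable (K N₀ F₀ L₀ : Type) [Field K] [NumberField K] [Field N₀] [NumberField N₀]
    [Field F₀] [NumberField F₀] [Field L₀] [NumberField L₀] [DecidableEq L₀] [Algebra K F₀]
    [Algebra N₀ F₀] [Algebra K L₀] [Algebra F₀ L₀] [IsScalarTower K F₀ L₀]
    (hK : finrank ℚ K = 2) {J d A B : ℤ} (hJ : (J, d) ∈ thirteen)
    (hd : ∃ w : K, w ^ 2 = ((d : ℤ) : K)) (hAB : 4 * A ^ 3 + 27 * B ^ 2 ≠ 0)
    (hj : 6912 * A ^ 3 = J * (4 * A ^ 3 + 27 * B ^ 2))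
    (hN : IntermediateField.adjoin N₀ (Set.range (algebraMap K F₀)) = ⊤) (x y : L₀)
    (hxy : (⟨0, 0, 0, ((A : ℤ) : L₀), ((B : ℤ) : L₀)⟩ :
      WeierstrassCurve L₀).toAffine.Nonsingular x y) {m : ℕ} (hm : m ≠ 0)
    (ht : m • Affine.Point.some x y hxy = 0)
    (hL₀ : IntermediateField.adjoin K {x, y} = ⊤) {α β : 𝓞 N₀}
    (h0 : 4 * α ^ 3 + 27 * β ^ 2 ≠ 0) {C₀ : VariableChange L₀}
    (hC₀ : C₀ • (⟨0, 0, 0, algebraMap F₀ L₀ (algebraMap N₀ F₀ α),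
      algebraMap F₀ L₀ (algebraMap N₀ F₀ β)⟩ : WeierstrassCurve L₀) =
        ⟨0, 0, 0, ((A : ℤ) : L₀), ((B : ℤ) : L₀)⟩)
    (hg : ¬ (((α = 0 ∧ β = 16) ∨ (α = -480 ∧ β = 4048)) ∧ finrank K F₀ = 1) →
      Lne (⟨0, 0, 0, (α : N₀), (β : N₀)⟩ : WeierstrassCurve N₀))

include hJ hAB h0 in
/-- all but finitely many prime numbers satisfy the conditions -/
theorem bound_plT {q : ℚ} (hq : q ≠ 0) (hm : m ≠ 0) : ∃ B₁ : ℕ, ∀ ℓ : ℕ, ℓ.Prime → B₁ < ℓ →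
    PlT ℓ m A B d (finrank K F₀) q F₀ α β := by
  have hdne : d ≠ 0 := by
    simp only [thirteen, List.mem_cons, Prod.mk.injEq, List.not_mem_nil, or_false] at hJ
    omega
  have h0' : 4 * algebraMap (𝓞 N₀) (𝓞 F₀) α ^ 3 + 27 * algebraMap (𝓞 N₀) (𝓞 F₀) β ^ 2 ≠ 0 := by
    intro h
    apply h0
    apply FaithfulSMul.algebraMap_injective (𝓞 N₀) (𝓞 F₀)
    rw [map_zero, ← h, map_add, map_mul, map_mul, map_pow, map_pow, map_ofNat, map_ofNat]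
  have hf0 : FiniteDimensional K F₀ := Module.Finite.of_restrictScalars_finite ℚ K F₀
  have hfp : 0 < finrank K F₀ := finrank_pos
  obtain ⟨B₁, hB⟩ := exists_bound hm (bE_ne (A := A) (B := B) hAB hdne) hfp.ne' hq h0'
  exact ⟨B₁, fun ℓ hℓ h => plT_of (hB ℓ hℓ h)⟩

include hJ hK hd hAB hj hN hm ht hL₀ h0 hC₀ hg

/-- **The final theorem, first question.** -/
theorem topTS1 :
    ∃ (g : ℂ → ℂ) (q : ℚ), Differentiable ℂ g ∧ (∀ s : ℂ, 3 / 2 < s.re →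
      g s = (⟨0, 0, 0, (α : N₀), (β : N₀)⟩ : WeierstrassCurve N₀).LSeries s) ∧
      q ≠ 0 ∧ g 1 * ((√|(discr N₀ : ℝ)| : ℝ) : ℂ) / ((period (⟨0, 0, 0, (α : N₀),
        (β : N₀)⟩ : WeierstrassCurve N₀) : ℝ) : ℂ) = ((q : ℚ) : ℂ) ∧
      ∃ S : Finset ℕ,
        (∀ ℓ : ℕ, ℓ.Prime →
          ((((α = 0 ∧ β = 16) ∨ (α = -480 ∧ β = 4048)) ∧ finrank K F₀ = 1 ∧ ℓ ≠ 3) ∨
            PlT ℓ m A B d (finrank K F₀) q F₀ α β) → ℓ ∉ S) ∧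
        ∀ ℓ : ℕ, ℓ.Prime → ℓ ∉ S →
          TowB ℓ ∅ d (algebraMap (𝓞 N₀) (𝓞 F₀) α) (algebraMap (𝓞 N₀) (𝓞 F₀) β) Con1 := by
  obtain ⟨g, q, h1, h2, h3, h4, h5⟩ := topTE1 K N₀ F₀ L₀ hK hJ hd hAB hj hN x y hxy hm ht hL₀ h0
    hC₀ hg
  obtain ⟨B₁, hB⟩ := bound_plT K N₀ F₀ hJ hAB h0 h3 hm
  obtain ⟨S, hS1, hS2⟩ := exists_exc
    (P := fun ℓ => (((α = 0 ∧ β = 16) ∨ (α = -480 ∧ β = 4048)) ∧ finrank K F₀ = 1 ∧ ℓ ≠ 3) ∨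
      PlT ℓ m A B d (finrank K F₀) q F₀ α β) B₁ (fun ℓ hℓ h => Or.inr (hB ℓ hℓ h))
  exact ⟨g, q, h1, h2, h3, h4, S, hS1, fun ℓ hℓ hS => h5 ℓ hℓ
    ((hS2 ℓ hℓ hS).imp id fun h => h.cnd hℓ)⟩

/-- **The final theorem, second question.** -/
theorem topTS2 :
    ∃ (g : ℂ → ℂ) (q : ℚ), Differentiable ℂ g ∧ (∀ s : ℂ, 3 / 2 < s.re →
      g s = (⟨0, 0, 0, (α : N₀), (β : N₀)⟩ : WeierstrassCurve N₀).LSeries s) ∧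
      q ≠ 0 ∧ g 1 * ((√|(discr N₀ : ℝ)| : ℝ) : ℂ) / ((period (⟨0, 0, 0, (α : N₀),
        (β : N₀)⟩ : WeierstrassCurve N₀) : ℝ) : ℂ) = ((q : ℚ) : ℂ) ∧
      ∃ S : Finset ℕ,
        (∀ ℓ : ℕ, ℓ.Prime →
          ((((α = 0 ∧ β = 16) ∨ (α = -480 ∧ β = 4048)) ∧ finrank K F₀ = 1 ∧ ℓ ≠ 3 ∧
              (ℓ = 2 → α = 0)) ∨
            PlT ℓ m A B d (finrank K F₀) q F₀ α β) → ℓ ∉ S) ∧
        ∀ ℓ : ℕ, ℓ.Prime → ℓ ∉ S →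
          TowB ℓ ∅ d (algebraMap (𝓞 N₀) (𝓞 F₀) α) (algebraMap (𝓞 N₀) (𝓞 F₀) β) (Con2' ℓ) := by
  obtain ⟨g, q, h1, h2, h3, h4, h5⟩ := topTE2 K N₀ F₀ L₀ hK hJ hd hAB hj hN x y hxy hm ht hL₀ h0
    hC₀ hg
  obtain ⟨B₁, hB⟩ := bound_plT K N₀ F₀ hJ hAB h0 h3 hm
  obtain ⟨S, hS1, hS2⟩ := exists_exc
    (P := fun ℓ => (((α = 0 ∧ β = 16) ∨ (α = -480 ∧ β = 4048)) ∧ finrank K F₀ = 1 ∧ ℓ ≠ 3 ∧
      (ℓ = 2 → α = 0)) ∨ PlT ℓ m A B d (finrank K F₀) q F₀ α β) B₁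
    (fun ℓ hℓ h => Or.inr (hB ℓ hℓ h))
  exact ⟨g, q, h1, h2, h3, h4, S, hS1, fun ℓ hℓ hS => h5 ℓ hℓ
    ((hS2 ℓ hℓ hS).imp id fun h => h.cnd hℓ)⟩

end

end Pool.Agent.Lib.MP_1a91b9_nuZ
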