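import Pool.Agent.Lib.MP_1a91b9_nuE.Ab
import Pool.Agent.Lib.MP_1a91b9_nuE.Cop
import Pool.Agent.Lib.MP_1a91b9_nuY.BF.Mod
import Pool.Agent.Lib.MP_1a91b9_nuX.TH.Dat

/-!
# The modulus of the base field of the forms: the prime divisors
-/

set_option autoImplicit false

namespace Pool.Agent.Lib.MP_1a91b9_nuZ

variable [Pool.Agent.Lib.MP_1a91b9_nuT.CD]

open NumberField IsDedekindDomain WeierstrassCurve Pool.Agent.Lib.MP_1a91b9_nuT
open Pool.Agent.Lib.MP_1a91b9_nuX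
open Pool.Agent.Lib.MP_1a91b9_nuX.DB Pool.Agent.Lib.MP_1a91b9_nuX.DG
open Pool.Agent.Lib.MP_1a91b9_nuX.TG (gB nAb nAb_ne dvd_nAb)
open Pool.Agent.Lib.MP_1a91b9_nuX.TH (nG)
open Pool.Agent.Lib.MP_1a91b9_nuE (exists_char cop_of_places absN_cop not_mem_int exists_md1)
open Pool.Agent.Lib.MP_1a91b9_nuY.BF (md_mul nAb_eq)

noncomputable section

/-- the annihilator of a torsion point -/
theorem ann_dvd {L : Type} [Field L] [Algebra K L] [DecidableEq L] {T : Pt L} {n : ℕ}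
    (hn : n ≠ 0) (h : n • T = 0) : ∃ ν : 𝓞 K, ν ≠ 0 ∧ ν ∣ (n : 𝓞 K) ∧ Ord ν T := by
  let I : Ideal (𝓞 K) :=
    { carrier := {a | sm L a T = 0}
      add_mem' := fun {a b} ha hb => by
        change sm L (a + b) T = 0
        have ha' : sm L a T = 0 := ha
        have hb' : sm L b T = 0 := hb
        rw [map_add]
        change sm L a T + sm L b T = 0
        rw [ha', hb', add_zero]
      zero_mem' := by
        change sm L 0 T = 0
        rw [map_zero]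
        rfl
      smul_mem' := fun c a ha => by
        change sm L (c * a) T = 0
        have ha' : sm L a T = 0 := ha
        rw [← sm_sm, ha', map_zero] }
  have hI : ∀ a, a ∈ I ↔ sm L a T = 0 := fun a => Iff.rfl
  obtain ⟨ν, hν⟩ := (IsPrincipalIdealRing.principal I).principal
  have hν' : ∀ a, a ∈ I ↔ ν ∣ a := by
    intro a
    rw [hν, Ideal.submodule_span_eq, Ideal.mem_span_singleton]
  have h1 : ((n : ℕ) : 𝓞 K) ∈ I := by
    rw [hI, sm_nat, h]
  have h2 := (hν' _).1 h1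
  refine ⟨ν, ?_, h2, fun c => by rw [← hI, hν']⟩
  rintro rfl
  rw [zero_dvd_iff] at h2
  exact hn (by exact_mod_cast h2)

/-- a rational prime number below a place is in it -/
theorem mem_of_char {F : Type*} [Field F] [NumberField F] (v : HeightOneSpectrum (𝓞 F)) {n : ℤ}
    {p : ℕ} (hm : (p : 𝓞 F) ∈ v.asIdeal) (h : (p : ℤ) ∣ n) : (n : 𝓞 F) ∈ v.asIdeal := by
  obtain ⟨c, rfl⟩ := h
  push_cast
  exact v.asIdeal.mul_mem_right _ hm

/-- the conjugate of an element all of whose places are above `n` -/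
theorem cj_mem {x : 𝓞 K} (hx : x ≠ 0) {n : ℤ}
    (h : ∀ P : HeightOneSpectrum (𝓞 K), x ∈ P.asIdeal → (n : 𝓞 K) ∈ P.asIdeal)
    (P : HeightOneSpectrum (𝓞 K)) (hP : cj x ∈ P.asIdeal) : (n : 𝓞 K) ∈ P.asIdeal := by
  obtain ⟨p, hp, hpm, hpd⟩ := exists_char P
  refine mem_of_char P hpm ?_
  by_contra hnd
  have h1 : IsCoprime x (p : 𝓞 K) := by
    refine cop_of_places hx fun Q hQ hpQ => ?_
    have h2 := h Q hQ
    have h3 : IsCoprime (p : ℤ) n := (Nat.prime_iff_prime_int.1 hp).coprime_iff_not_dvd.2 hnd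
    exact not_mem_int Q h3 (by exact_mod_cast hpQ) h2
  have h2 : IsCoprime (cj x) (p : 𝓞 K) := by
    have h3 := h1.map (cj : 𝓞 K →+* 𝓞 K)
    rwa [map_natCast] at h3
  obtain ⟨a, b, hab⟩ := h2
  apply P.isPrime.ne_top
  rw [Ideal.eq_top_iff_one, ← hab]
  exact P.asIdeal.add_mem (P.asIdeal.mul_mem_left _ hP) (P.asIdeal.mul_mem_left _ hpm)

variable [HC]

/-- **A field generated by a torsion point**, with the prime divisors of the modulus. -/
theorem exists_abE (F₀ : Type) [Field F₀] [NumberField F₀] [Algebra K F₀]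
    {L : Type} [Field L] [NumberField L] [Algebra K L] [Algebra F₀ L]
    [IsScalarTower K F₀ L] [DecidableEq L] {T₀ : Pt L} {n : ℕ} (hn : n ≠ 0) (hT : n • T₀ = 0)
    (hgen : IntermediateField.adjoin K {xc T₀, yc T₀} = ⊤) :
    ∃ (μ : 𝓞 K) (_ : Md μ) (_ : cj HC.f ∣ μ)
      (_ : ∀ v : HeightOneSpectrum (𝓞 K), gB μ ∈ v.asIdeal → μ ∈ v.asIdeal)
      (_ : ∀ P : HeightOneSpectrum (𝓞 K), μ ∈ P.asIdeal → ((n * CD.bad : ℤ) : 𝓞 K) ∈ P.asIdeal)
      (H : Subgroup (CU μ)) (L' : Type) (_ : Field L')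
      (_ : NumberField L') (_ : Algebra K L') (_ : Algebra F₀ L') (_ : IsScalarTower K F₀ L')
      (_ : DecidableEq L') (J : Pt L'), AB H F₀ L' J := by
  obtain ⟨m, hm0, hmn, hm⟩ := ann_dvd hn hT
  have hf0 : cj HC.f ≠ 0 := by
    intro h
    have h1 := mul_cj HC.f
    rw [h, mul_zero] at h1
    exact nAb_ne HC.hd.ne (by exact_mod_cast h1.symm)
  have hfb : ∀ P : HeightOneSpectrum (𝓞 K), (HC.f : 𝓞 K) ∈ P.asIdeal →
      ((CD.bad : ℤ) : 𝓞 K) ∈ P.asIdeal := fun P hP => HC.hd.good P hP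
  obtain ⟨ν, hν⟩ : ∃ ν : 𝓞 K, ν = (m * cj HC.f) * bO * HC.f := ⟨_, rfl⟩
  have hMν : Md ν := by
    rw [hν]
    exact exists_md1 (mul_ne_zero hm0 hf0)
  have e : ((n * CD.bad : ℤ) : 𝓞 K) = (n : 𝓞 K) * ((CD.bad : ℤ) : 𝓞 K) := by
    push_cast
    ring
  have hνP : ∀ P : HeightOneSpectrum (𝓞 K), ν ∈ P.asIdeal →
      ((n * CD.bad : ℤ) : 𝓞 K) ∈ P.asIdeal := by
    intro P hP
    rw [e]
    rw [hν] at hP
    rcases P.isPrime.mem_or_mem hP with h1 | h1
    · rcases P.isPrime.mem_or_mem h1 with h2 | h2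
      · rcases P.isPrime.mem_or_mem h2 with h3 | h3
        · obtain ⟨c, hc⟩ := hmn
          rw [hc]
          exact P.asIdeal.mul_mem_right _ (P.asIdeal.mul_mem_right _ h3)
        · exact P.asIdeal.mul_mem_left _ (cj_mem HC.hd.ne hfb P h3)
      · exact P.asIdeal.mul_mem_left _ h2
    · exact P.asIdeal.mul_mem_left _ (hfb P h1)
  have hn0 : (nAb ν : 𝓞 K) ≠ 0 := Nat.cast_ne_zero.2 (nAb_ne hMν.ne)
  obtain ⟨μ, hμ⟩ : ∃ μ : 𝓞 K, μ = ν * (nAb ν : 𝓞 K) := ⟨_, rfl⟩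
  have hM : Md μ := by
    rw [hμ]
    exact md_mul hMν hn0
  have hmk : m ∣ μ := by
    rw [hμ, hν]
    exact (((dvd_mul_right m _).trans (dvd_mul_right _ bO)).trans (dvd_mul_right _ _)).trans
      (dvd_mul_right _ _)
  have hfk : cj HC.f ∣ μ := by
    rw [hμ, hν]
    exact (((dvd_mul_left _ m).trans (dvd_mul_right _ bO)).trans (dvd_mul_right _ _)).trans
      (dvd_mul_right _ _)
  have hμP : ∀ P : HeightOneSpectrum (𝓞 K), μ ∈ P.asIdeal →
      ((n * CD.bad : ℤ) : 𝓞 K) ∈ P.asIdeal := by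
    intro P hP
    rw [hμ, nAb_eq] at hP
    rcases P.isPrime.mem_or_mem hP with h1 | h1
    · exact hνP P h1
    · rcases P.isPrime.mem_or_mem h1 with h2 | h2
      · exact hνP P h2
      · exact cj_mem hMν.ne hνP P h2
  have hv : ∀ v : HeightOneSpectrum (𝓞 K), gB μ ∈ v.asIdeal → μ ∈ v.asIdeal := by
    intro v hv
    have hp := v.isPrime
    have h1 : gB μ = HC.f * (((CD.bad : ℤ) : 𝓞 K) * (nAb μ : 𝓞 K)) := rfl
    rw [h1] at hv
    have hfν : HC.f ∣ ν := by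
      rw [hν]
      exact dvd_mul_left _ _
    rcases hp.mem_or_mem hv with h2 | h2
    · rw [hμ]
      exact v.asIdeal.mul_mem_right _ (v.asIdeal.mem_of_dvd hfν h2)
    rcases hp.mem_or_mem h2 with h3 | h3
    · rw [hμ]
      exact v.asIdeal.mul_mem_right _ (hMν.bad v h3)
    · rw [nAb_eq] at h3
      rcases hp.mem_or_mem h3 with h4 | h4
      · exact h4
      · have h5 : cj μ = cj ν * (nAb ν : 𝓞 K) := by
          rw [hμ, map_mul, map_natCast]
        rw [h5] at h4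
        rw [hμ]
        rcases hp.mem_or_mem h4 with h6 | h6
        · rw [nAb_eq]
          exact v.asIdeal.mul_mem_left _ (v.asIdeal.mul_mem_left _ h6)
        · exact v.asIdeal.mul_mem_left _ h6
  obtain ⟨L1, i1, i2, i3, i4, R, hG, hR, -, hg⟩ := exists_tf hM.ne
  obtain ⟨f⟩ := emb_tf hM.ne hmk ((hm m).2 dvd_rfl) hgen hR
  let f0 : F₀ →+* L1 := (f : L →+* L1).comp (algebraMap F₀ L)
  let a1 : Algebra F₀ L1 := f0.toAlgebra
  have t1 : IsScalarTower K F₀ L1 := IsScalarTower.of_algebraMap_eq fun x => by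
    change algebraMap K L1 x = f (algebraMap F₀ L (algebraMap K F₀ x))
    rw [← IsScalarTower.algebraMap_apply K F₀ L, f.commutes]
  obtain ⟨H, hH⟩ := exists_sub F₀ hM.ne hR hg
  exact ⟨μ, hM, hfk, hv, hμP, H, L1, i1, i2, i3, a1, t1, i4, R, hH⟩

/-- a modulus for which all the places of the natural number `nG μ` divide `μ` -/
theorem nG_pl {μ : 𝓞 K} (hD : cj HC.f ∣ μ)
    (hv : ∀ v : HeightOneSpectrum (𝓞 K), gB μ ∈ v.asIdeal → μ ∈ v.asIdeal)
    (v : HeightOneSpectrum (𝓞 K)) (h : ((nG μ : ℕ) : 𝓞 K) ∈ v.asIdeal) : μ ∈ v.asIdeal := by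
  have hp := v.isPrime
  have h1 : ((nG μ : ℕ) : 𝓞 K) = gB μ * cj (gB μ) := (mul_cj (gB μ)).symm
  rw [h1] at h
  rcases hp.mem_or_mem h with h2 | h2
  · exact hv v h2
  · have h3 : cj (gB μ) = cj HC.f * (((CD.bad : ℤ) : 𝓞 K) * (nAb μ : 𝓞 K)) := by
      have h4 : gB μ = HC.f * (((CD.bad : ℤ) : 𝓞 K) * (nAb μ : 𝓞 K)) := rfl
      rw [h4, map_mul, map_mul, map_intCast, map_natCast]
    rw [h3] at h2
    rcases hp.mem_or_mem h2 with h4 | h4
    · exact v.asIdeal.mem_of_dvd hD h4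
    · exact hv v (v.asIdeal.mul_mem_left _ h4)

/-- the places which divide the natural number `nG μ` -/
theorem nG_mem {μ : 𝓞 K} (hμ : μ ≠ 0) {n : ℤ} (hb : CD.bad ∣ n)
    (h : ∀ P : HeightOneSpectrum (𝓞 K), μ ∈ P.asIdeal → (n : 𝓞 K) ∈ P.asIdeal)
    {F : Type*} [Field F] [NumberField F] (v : HeightOneSpectrum (𝓞 F))
    (hv : ((nG μ : ℕ) : 𝓞 F) ∈ v.asIdeal) : (n : 𝓞 F) ∈ v.asIdeal := by
  obtain ⟨p, hp, hpm, hpd⟩ := exists_char v
  refine mem_of_char v hpm ?_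
  by_contra hnd
  have h1 : (p : ℤ) ∣ (nG μ : ℤ) := hpd _ (by exact_mod_cast hv)
  have hcop : IsCoprime (p : ℤ) n := (Nat.prime_iff_prime_int.1 hp).coprime_iff_not_dvd.2 hnd
  have hbn : ∀ P : HeightOneSpectrum (𝓞 K), ((CD.bad : ℤ) : 𝓞 K) ∈ P.asIdeal →
      (n : 𝓞 K) ∈ P.asIdeal := by
    intro P hP
    obtain ⟨c, rfl⟩ := hb
    push_cast
    exact P.asIdeal.mul_mem_right _ hP
  have h2 : IsCoprime (gB μ) (p : 𝓞 K) := by
    refine cop_of_places (TG.gB_ne hμ) fun P hP hpP => ?_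
    refine not_mem_int P hcop (by exact_mod_cast hpP) ?_
    have h3 : gB μ = HC.f * (((CD.bad : ℤ) : 𝓞 K) * (nAb μ : 𝓞 K)) := rfl
    rw [h3] at hP
    rcases P.isPrime.mem_or_mem hP with h4 | h4
    · exact hbn P (HC.hd.good P h4)
    rcases P.isPrime.mem_or_mem h4 with h5 | h5
    · exact hbn P h5
    · rw [nAb_eq] at h5
      rcases P.isPrime.mem_or_mem h5 with h6 | h6
      · exact h P h6
      · exact cj_mem hμ h P h6
  have h3 : (nG μ).Coprime p := absN_cop h2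
  exact (Nat.Prime.coprime_iff_not_dvd hp).1 h3.symm (by exact_mod_cast h1)

end

end Pool.Agent.Lib.MP_1a91b9_nuZ
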