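import Pool.Agent.Lib.MP_1a91b9_nuZ.Top

/-!
# Twisted base: all but finitely many prime numbers satisfy the conditions
-/

set_option autoImplicit false

namespace Pool.Agent.Lib.MP_1a91b9_nuZ

open NumberField IsDedekindDomain WeierstrassCurve Module
open Pool.Agent.Lib.MP_1a91b9_nuE (bE)

/-- the number of points over a finite ring -/
theorem card_pts {κ : Type*} [CommRing κ] [Finite κ] (V : WeierstrassCurve κ) :
    0 < Nat.card V.toAffine.Point ∧ Nat.card V.toAffine.Point ≤ Nat.card κ ^ 2 + 1 := by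
  obtain ⟨f, hf⟩ : ∃ f : V.toAffine.Point → Option (κ × κ), Function.Injective f := by
    refine ⟨fun P => match P with
      | Affine.Point.zero => none
      | Affine.Point.some x y _ => some (x, y), ?_⟩
    rintro (_ | ⟨x, y, h⟩) (_ | ⟨x', y', h'⟩) he
    · rfl
    · simp at he
    · simp at he
    · simp only [Option.some.injEq, Prod.mk.injEq] at he
      obtain ⟨rfl, rfl⟩ := he
      rfl
  have hfin : Finite V.toAffine.Point := Finite.of_injective f hf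
  have hne : Nonempty V.toAffine.Point := ⟨Affine.Point.zero⟩
  refine ⟨Nat.card_pos, ?_⟩
  have h1 := Nat.card_le_card_of_injective f hf
  rw [Finite.card_option, Nat.card_prod, ← pow_two] at h1
  exact h1

/-- **All but finitely many prime numbers satisfy the conditions.** -/
theorem exists_bound {m : ℕ} (hm : m ≠ 0) {b : ℤ} (hb : b ≠ 0) {e : ℕ} (he : e ≠ 0) {q : ℚ}
    (hq : q ≠ 0) {F₀ : Type} [Field F₀] [NumberField F₀] {α β : 𝓞 F₀}
    (h0 : 4 * α ^ 3 + 27 * β ^ 2 ≠ 0) :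
    ∃ B : ℕ, ∀ ℓ : ℕ, ℓ.Prime → B < ℓ → CndT ℓ m b e q α β := by
  classical
  obtain ⟨x, hx⟩ : ∃ x : 𝓞 F₀, x = ((m * b : ℤ) : 𝓞 F₀) * (6 * (4 * α ^ 3 + 27 * β ^ 2)) :=
    ⟨_, rfl⟩
  have hmb : (m * b : ℤ) ≠ 0 := mul_ne_zero (by exact_mod_cast hm) hb
  have hx0 : x ≠ 0 := by
    rw [hx]
    refine mul_ne_zero (by exact_mod_cast hmb) (mul_ne_zero ?_ h0)
    norm_num
  have hfin : {v : HeightOneSpectrum (𝓞 F₀) | x ∈ v.asIdeal}.Finite := by
    have h1 := Ideal.finite_factors (I := Ideal.span {x}) (by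
      rwa [Ne, Ideal.zero_eq_bot, Ideal.span_singleton_eq_bot])
    refine h1.subset fun v hv => ?_
    change v.asIdeal ∣ Ideal.span {x}
    rw [Ideal.dvd_iff_le, Ideal.span_singleton_le_iff_mem]
    exact hv
  have hpos : 0 < (m * b : ℤ).natAbs := Int.natAbs_pos.2 hmb
  have hnum : 0 < q.num.natAbs := Int.natAbs_pos.2 (Rat.num_ne_zero.2 hq)
  obtain ⟨t, ht⟩ : ∃ t : ℕ, t = 2 ^ e := ⟨_, rfl⟩
  refine ⟨(m * b : ℤ).natAbs ^ 2 + t + q.num.natAbs + q.den +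
    ∑ v ∈ hfin.toFinset, (Nat.card (𝓞 F₀ ⧸ v.asIdeal) ^ 2 + 1), fun ℓ hℓ hB => ?_⟩
  have hmb2 : (m * b : ℤ).natAbs ≤ (m * b : ℤ).natAbs ^ 2 := Nat.le_self_pow two_ne_zero _
  have key : ∀ z : ℤ, z ≠ 0 → z.natAbs < ℓ → ¬ (ℓ : ℤ) ∣ z := fun z hz hzl hd =>
    absurd (Nat.le_of_dvd (Int.natAbs_pos.2 hz) (Int.natCast_dvd.1 hd)) (not_le.2 hzl)
  refine ⟨hℓ, key _ hmb (by omega), fun p hp hpd hd => ?_, fun hd => ?_, ?_, ?_,
    fun v hv V C hC hΔ hd => ?_⟩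
  · have h1 : p ≤ (m * b : ℤ).natAbs := Nat.le_of_dvd hpos (Int.natCast_dvd.1 hpd)
    have h2 : p ^ 2 ≤ (m * b : ℤ).natAbs ^ 2 := Nat.pow_le_pow_left h1 2
    have h3 : 4 ≤ p ^ 2 := Nat.pow_le_pow_left hp.two_le 2
    have h4 := Nat.le_of_dvd (by omega) hd
    omega
  · have h1 : 2 ≤ t := by
      rw [ht]
      exact Nat.le_self_pow he 2
    rw [← ht] at hd
    have h2 := Nat.le_of_dvd (by omega) hd
    omega
  · exact ((Nat.prime_iff_prime_int.1 hℓ).coprime_iff_not_dvd.2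
      (key _ (Rat.num_ne_zero.2 hq) (by omega))).symm
  · refine ((Nat.Prime.coprime_iff_not_dvd hℓ).2 fun hd => ?_).symm
    have := Nat.le_of_dvd q.den_pos hd
    omega
  · have hmem : v ∈ hfin.toFinset := by
      rw [Set.Finite.mem_toFinset, Set.mem_ofPred_eq, hx]
      exact hv
    have i1 : Finite (𝓞 F₀ ⧸ v.asIdeal) := Ideal.finiteQuotientOfFreeOfNeBot _ v.ne_bot
    obtain ⟨h1, h2⟩ := card_pts (V.map (Ideal.Quotient.mk v.asIdeal))
    have h3 := Nat.le_of_dvd h1 hd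
    have h4 := Finset.single_le_sum
      (f := fun v : HeightOneSpectrum (𝓞 F₀) => Nat.card (𝓞 F₀ ⧸ v.asIdeal) ^ 2 + 1)
      (fun w _ => Nat.zero_le _) hmem
    have h5 : Nat.card (𝓞 F₀ ⧸ v.asIdeal) ^ 2 + 1 ≤
      ∑ v ∈ hfin.toFinset, (Nat.card (𝓞 F₀ ⧸ v.asIdeal) ^ 2 + 1) := h4
    omega

theorem bE_ne {A B d : ℤ} (hAB : 4 * A ^ 3 + 27 * B ^ 2 ≠ 0) (hd : d ≠ 0) : bE A B d ≠ 0 := by
  unfold bE
  refine mul_ne_zero (mul_ne_zero (mul_ne_zero (by norm_num) hAB) hd) ?_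
  split_ifs with h
  · omega
  · norm_num

end Pool.Agent.Lib.MP_1a91b9_nuZ
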