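import Pool.Agent.Lib.MP_1a91b9_nuE.Cnt
import Pool.Agent.Lib.MP_1a91b9_nuE.Mdl
import Pool.Agent.Lib.MP_1a91b9_nuY.TF.Main

/-!
# Twisted base: the number of points at the places of good reduction
-/

set_option autoImplicit false

namespace Pool.Agent.Lib.MP_1a91b9_nuZ

open NumberField IsDedekindDomain WeierstrassCurve Module Polynomial
open Pool.Agent.Lib.MP_1a91b9_nuT
open Pool.Agent.Lib.MP_1a91b9_nt
open Pool.Agent.Lib.MP_1a91b9_nuX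
open Pool.Agent.Lib.MP_1a91b9_nuX.DB Pool.Agent.Lib.MP_1a91b9_nuX.GL
open Pool.Agent.Lib.MP_1a91b9_nuX.PG
open Pool.Agent.Lib.MP_1a91b9_nuX.PH
open Pool.Agent.Lib.MP_1a91b9_nuG (up Ram)
open Pool.Agent.Lib.MP_1a91b9_nuX.TG (gB AbT)
open Pool.Agent.Lib.MP_1a91b9_nuX.QW (ScD)
open Pool.Agent.Lib.MP_1a91b9_nuX.TH (NaW psP_at)
open Pool.Agent.Lib.MP_1a91b9_nuT.Per (cv)
open Pool.Agent.Lib.MP_1a91b9_nuW.DY (Splt)
open Pool.Agent.Lib.MP_1a91b9_nuE (card_red exists_model)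
open Pool.Agent.Lib.MP_1a91b9_nuY
open Pool.Agent.Lib.MP_1a91b9_nuY.TX (RamF cnt_psT psT_hv)
open Pool.Agent.Lib.MP_1a91b9_nuY.TF (lgb_dat)

variable [CD] [HC]

section
variable {F : Type} [Field F] [NumberField F] [Algebra K F]

/-- **The number of points.** -/
theorem card_modelW {W : WeierstrassCurve F} {m : Ideal (𝓞 F)} (hm : FDat F W m (psP W))
    (v : HeightOneSpectrum (𝓞 F)) (V : WeierstrassCurve (𝓞 F))
    (C : VariableChange F) (hC : C • W = V.map (algebraMap (𝓞 F) F)) (hΔ : V.Δ ∉ v.asIdeal) :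
    (1 - Hv W v) * (1 - cj (Hv W v)) =
      ((Nat.card (V.map (Ideal.Quotient.mk v.asIdeal)).toAffine.Point : ℕ) : 𝓞 K) := by
  have h1 := locPoly_of_model (F := F) (K := F) W C V hC v hΔ
  have hbc : W.baseChange F = W := WeierstrassCurve.map_id _
  rw [hbc, card_red] at h1
  have h2 := hm.loc v
  rw [h1, psP_at] at h2
  have h3 := congrArg (Polynomial.eval (1 : 𝓞 K)) h2
  simp only [Polynomial.map_add, Polynomial.map_sub, Polynomial.map_mul, Polynomial.map_C,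
    Polynomial.map_X, Polynomial.map_pow, Polynomial.map_one, eval_add, eval_sub, eval_mul,
    eval_one, eval_C, eval_X, eval_pow, mul_one, one_pow] at h3
  rw [← h3, eq_intCast, eq_intCast]
  push_cast
  ring

theorem cop_of_modelW {ℓ : ℕ} (hℓ : ℓ.Prime) {W : WeierstrassCurve F} {m : Ideal (𝓞 F)}
    (hm : FDat F W m (psP W)) (v : HeightOneSpectrum (𝓞 F)) (V : WeierstrassCurve (𝓞 F))
    (C : VariableChange F) (hC : C • W = V.map (algebraMap (𝓞 F) F)) (hΔ : V.Δ ∉ v.asIdeal)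
    (hc : ¬ ℓ ∣ Nat.card (V.map (Ideal.Quotient.mk v.asIdeal)).toAffine.Point) :
    IsCoprime (Hv W v - 1) (ℓ : 𝓞 K) := by
  have h1 := card_modelW hm v V C hC hΔ
  refine Ell.kq_odd' _ _ (((Nat.Prime.coprime_iff_not_dvd hℓ).2 hc).symm) (cj (Hv W v) - 1) ?_
  rw [← h1]
  ring

end

section
variable {μ : 𝓞 K} {F G : Type} [Field F] [NumberField F] [Algebra K F] [Field G] [NumberField G]
  [Algebra K G] [Algebra F G] [IsScalarTower K F G] [DecidableEq G] [IsGalois F G] {T : Pt G}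
  {ℓ : ℕ}

/-- the places of good reduction are not anomalous -/
theorem hv_of_pts (hE : EllK) (hℓ : ℓ.Prime) (hT : AbT μ F T) {a b : F} {u : G}
    {θ : Gal(G/F) →* (𝓞 K)ˣ} (hs : ScD a b u θ) {g : 𝓞 K} (hg0 : g ≠ 0) (hg : gB μ ∣ g)
    (v : HeightOneSpectrum (𝓞 F)) (hgd : Gd (cv a b) v)
    (hp : ∀ (V : WeierstrassCurve (𝓞 F)) (C : VariableChange F),
      C • (cv a b : WeierstrassCurve F) = V.map (algebraMap (𝓞 F) F) → V.Δ ∉ v.asIdeal →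
      ¬ ℓ ∣ Nat.card (V.map (Ideal.Quotient.mk v.asIdeal)).toAffine.Point) :
    IsCoprime (Hv (cv a b) v - 1) (ℓ : 𝓞 K) := by
  obtain ⟨⟨m, hm⟩, -⟩ := lgb_dat hE hT hs hg0 hg
  obtain ⟨V, C, hC, hΔ⟩ := exists_model hgd
  exact cop_of_modelW hℓ hm v V C hC hΔ (hp V C hC hΔ)

/-- the form has good reduction outside of `g` -/
theorem gd_out (hT : AbT μ F T) {a b : F} {u : G}
    {θ : Gal(G/F) →* (𝓞 K)ˣ} (hs : ScD a b u θ) {g : 𝓞 K} (hg : gB μ ∣ g)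
    (v : HeightOneSpectrum (𝓞 F)) (hv : up g F ∉ v.asIdeal) : Gd (cv a b) v := by
  have hf : HC.f ∉ (v.under (𝓞 K)).asIdeal := fun h =>
    hv (v.asIdeal.mem_of_dvd (map_dvd (algebraMap (𝓞 K) (𝓞 F)) ((TG.f_dvd_gB μ).trans hg)) h)
  have hgB : up (gB μ) F ∉ v.asIdeal := fun h =>
    hv (v.asIdeal.mem_of_dvd (map_dvd (algebraMap (𝓞 K) (𝓞 F)) hg) h)
  have hr : ¬ CF.Ram G v := fun h => hT.not_ram v hgB ((MP_1a91b9_nuG.ram_eq _).2 h)
  obtain ⟨w, rfl⟩ := CF.exists_over (k := F) (N := G) v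
  refine TH.gd_down (F := G) hr ?_
  have h4 : HC.f ∉ (w.under (𝓞 K)).asIdeal := by
    have e : ((w.under (𝓞 F)).under (𝓞 K)) = w.under (𝓞 K) :=
      HeightOneSpectrum.ext (Ideal.under_under _)
    rwa [e] at hf
  rw [← TH.sc_iso hs.ne hs.ha hs.hb]
  exact (LG.gd_iso rfl w).1 (TH.gd_E h4)

/-- the condition for the imprimitive character -/
theorem nac_of_pts (hE : EllK) (hℓ : ℓ.Prime) (hT : AbT μ F T) {a b : F} {u : G}
    {θ : Gal(G/F) →* (𝓞 K)ˣ} (hs : ScD a b u θ) {g : 𝓞 K} (hg0 : g ≠ 0) (hg : gB μ ∣ g)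
    (v : HeightOneSpectrum (𝓞 F))
    (hp : ∀ (V : WeierstrassCurve (𝓞 F)) (C : VariableChange F),
      C • (cv a b : WeierstrassCurve F) = V.map (algebraMap (𝓞 F) F) → V.Δ ∉ v.asIdeal →
      ¬ ℓ ∣ Nat.card (V.map (Ideal.Quotient.mk v.asIdeal)).toAffine.Point) :
    IsCoprime (psT F T g θ v.asIdeal - 1) (ℓ : 𝓞 K) := by
  by_cases hv : up g F ∈ v.asIdeal
  · rw [(hf_psT (θ := θ) hT hg0 hg).place_bad v hv, zero_sub]
    exact isCoprime_one_left.neg_left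
  · rw [psT_hv hE hT hg hs v hv]
    exact hv_of_pts hE hℓ hT hs hg0 hg v (gd_out hT hs hg v hv) hp

/-- **The ramification condition over the base field.** -/
theorem ramF_pts (hE : EllK) (hT : AbT μ F T) {g : 𝓞 K}
    (hg : gB μ ∣ g) {α β : 𝓞 F} {u : G} {θ : Gal(G/F) →* (𝓞 K)ˣ}
    (hs : ScD (α : F) (β : F) u θ) (hℓ : ℓ.Prime)
    (hna : ∀ v : HeightOneSpectrum (𝓞 F), (up g F ∈ v.asIdeal ∨
      6 * (4 * α ^ 3 + 27 * β ^ 2) ∈ v.asIdeal) → IsCoprime (psT F T g θ v.asIdeal - 1) (ℓ : 𝓞 K))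
    {L : Type*} [Field L] [NumberField L] [Algebra F L]
    (h : ∀ (v : HeightOneSpectrum (𝓞 F)) (w : HeightOneSpectrum (𝓞 L)),
      v.asIdeal.map (algebraMap (𝓞 F) (𝓞 L)) ≤ w.asIdeal ^ 2 →
        ((ℓ : 𝓞 F) ∈ v.asIdeal → Splt ℓ) ∧
        (6 * (4 * α ^ 3 + 27 * β ^ 2) ∉ v.asIdeal →
          ¬ ℓ ∣ Nat.card (⟨0, 0, 0, Ideal.Quotient.mk v.asIdeal α,
            Ideal.Quotient.mk v.asIdeal β⟩ : WeierstrassCurve (𝓞 F ⧸ v.asIdeal)).toAffine.Point)) :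
    RamF ℓ F L (psT F T g θ) := by
  rintro v ⟨w, hw⟩
  obtain ⟨h1, h2⟩ := h v w hw
  refine ⟨h1, ?_⟩
  by_cases hv : up g F ∈ v.asIdeal ∨ 6 * (4 * α ^ 3 + 27 * β ^ 2) ∈ v.asIdeal
  · exact hna v hv
  · rw [not_or] at hv
    obtain ⟨a1, a3⟩ := hv
    have a2 : 16 * (4 * α ^ 3 + 27 * β ^ 2) ∉ v.asIdeal := by
      intro h3
      have h4 : (2 : 𝓞 F) ^ 4 * (4 * α ^ 3 + 27 * β ^ 2) ∈ v.asIdeal := by
        have e : (2 : 𝓞 F) ^ 4 * (4 * α ^ 3 + 27 * β ^ 2) = 16 * (4 * α ^ 3 + 27 * β ^ 2) := by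
          norm_num
        rw [e]
        exact h3
      apply a3
      rcases v.isPrime.mem_or_mem h4 with h5 | h5
      · have h6 := v.isPrime.mem_of_pow_mem 4 h5
        have e : 6 * (4 * α ^ 3 + 27 * β ^ 2) = 2 * (3 * (4 * α ^ 3 + 27 * β ^ 2)) := by ring
        rw [e]
        exact v.asIdeal.mul_mem_right _ h6
      · exact v.asIdeal.mul_mem_left _ h5
    exact cnt_psT hE hT hg hs hℓ v a1 a2 (h2 a3)

end

end Pool.Agent.Lib.MP_1a91b9_nuZ
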