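import Pool.Agent.Lib.MP_1a91b9_nuE.Gi
import Pool.Agent.Lib.MP_1a91b9_nuI.Fb.TowB

/-!
# Good reduction above `ℓ` in towers, from the good reduction over the base field
-/

set_option autoImplicit false

namespace Pool.Agent.Lib.MP_1a91b9_nuZ

open NumberField IsDedekindDomain WeierstrassCurve WithZero Pool.Agent.Lib.MP_1a91b9_nuX.GM
open Pool.Agent.Lib.MP_1a91b9_nuX Pool.Agent.Lib.MP_1a91b9_nuX.TM
open Pool.Agent.Lib.MP_1a91b9_nuI

/-- **Good reduction above `ℓ`.** -/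
theorem good_tower_c {F₀ N L M : Type*} [Field F₀] [NumberField F₀] [Field N] [NumberField N]
    [Field L] [NumberField L] [Field M] [NumberField M] [Algebra F₀ L] [Algebra N L] [Algebra L M]
    [Algebra F₀ M] [IsScalarTower F₀ L M] [IsGalois F₀ M] {ℓ n : ℕ} (hℓ : ℓ.Prime) (h5 : 5 ≤ ℓ)
    (hM : Module.finrank F₀ M = ℓ ^ n)
    (hun : ∀ v : HeightOneSpectrum (𝓞 F₀), (ℓ : 𝓞 F₀) ∉ v.asIdeal ^ 2)
    {A B : N} {j : ℤ} (hj : 6912 * A ^ 3 = j * (4 * A ^ 3 + 27 * B ^ 2))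
    (H : ∀ w : HeightOneSpectrum (𝓞 L), (ℓ : 𝓞 L) ∈ w.asIdeal →
      ∃ (a b : L) (C : VariableChange L), C • (cv A B).baseChange L = cv a b ∧
        w.valuation L (4 * a ^ 3 + 27 * b ^ 2) = 1) (v : HeightOneSpectrum (𝓞 N))
    (hv : (ℓ : 𝓞 N) ∈ v.asIdeal) :
    ∃ C₀ : VariableChange (v.adicCompletion N),
      GoodW (Valued.v : Valuation (v.adicCompletion N) ℤᵐ⁰)
        (C₀ • (sw A B).baseChange (v.adicCompletion N)) := by
  obtain ⟨w, hP⟩ := exists_above_w (L := L) v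
  have hℓw : (ℓ : 𝓞 L) ∈ w.asIdeal := by
    have h1 := hv
    rw [hP.over] at h1
    have h2 : algebraMap (𝓞 N) (𝓞 L) (ℓ : 𝓞 N) ∈ w.asIdeal := h1
    rwa [map_natCast] at h2
  have h12 : ¬ ℓ ∣ 12 := by
    intro h2
    have h3 : ℓ ∣ 2 ^ 2 * 3 := h2
    rcases (Nat.Prime.dvd_mul hℓ).1 h3 with h4 | h4
    · have := Nat.le_of_dvd (by norm_num) (hℓ.dvd_of_dvd_pow h4)
      omega
    · have := Nat.le_of_dvd (by norm_num) h4
      omega
  have he : (v.asIdeal.ramificationIdx' w.asIdeal).Coprime 12 := by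
    have h1 := ram_dvd (M := M) hℓ hun w hℓw v
    rw [hM] at h1
    refine Nat.Coprime.coprime_dvd_left h1 (Nat.Coprime.pow_left n ?_)
    rwa [Nat.Prime.coprime_iff_not_dvd hℓ]
  have h6 : (6 : 𝓞 N) ∉ v.asIdeal := by
    have h1 : ¬ (ℓ : ℤ) ∣ 6 := by
      intro h
      apply h12
      have h2 : (ℓ : ℤ) ∣ ((12 : ℕ) : ℤ) := Dvd.dvd.trans h ⟨2, by norm_num⟩
      exact Int.natCast_dvd_natCast.1 h2
    have h2 := int_not_mem hℓ v hv h1
    exact_mod_cast h2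
  obtain ⟨a, b, C, hC, hd⟩ := H w hℓw
  exact good_desc_w hj v w he h6 C hC hd

/-- a model over the base field gives a model over the extensions -/
theorem model_up {F₀ L : Type*} [Field F₀] [NumberField F₀] [Field L] [NumberField L]
    [Algebra F₀ L] {α β : F₀} {V : WeierstrassCurve (𝓞 F₀)} {C : VariableChange F₀}
    (hC : C • cv α β = V.map (algebraMap (𝓞 F₀) F₀)) {w : HeightOneSpectrum (𝓞 L)}
    (hΔ : V.Δ ∉ (w.under (𝓞 F₀)).asIdeal) (h2 : (2 : 𝓞 L) ∉ w.asIdeal) :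
    ∃ (a b : L) (C : VariableChange L),
      C • cv (algebraMap F₀ L α) (algebraMap F₀ L β) = cv a b ∧
        w.valuation L (4 * a ^ 3 + 27 * b ^ 2) = 1 := by
  obtain ⟨u, hu⟩ : ∃ u : F₀, u = (↑C.u⁻¹ : F₀) := ⟨_, rfl⟩
  have hu0 : u ≠ 0 := by
    rw [hu]
    exact Units.ne_zero _
  have hΔ1 := congrArg WeierstrassCurve.Δ hC
  rw [variableChange_Δ, WeierstrassCurve.map_Δ, ← hu] at hΔ1
  have e1 : (cv α β).Δ = -16 * (4 * α ^ 3 + 27 * β ^ 2) := by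
    simp only [cv, WeierstrassCurve.Δ, WeierstrassCurve.b₂, WeierstrassCurve.b₄,
      WeierstrassCurve.b₆, WeierstrassCurve.b₈]
    ring
  rw [e1] at hΔ1
  obtain ⟨U, hU⟩ : ∃ U : L, U = algebraMap F₀ L u := ⟨_, rfl⟩
  have hU0 : U ≠ 0 := by
    rw [hU]
    exact (map_ne_zero _).2 hu0
  refine ⟨U ^ 4 * algebraMap F₀ L α, U ^ 6 * algebraMap F₀ L β,
    ⟨(Units.mk0 U hU0)⁻¹, 0, 0, 0⟩, ?_, ?_⟩
  · rw [cv_scale, inv_inv, Units.val_mk0]
  have key : ∀ x : 𝓞 L, x ∉ w.asIdeal → w.valuation L (algebraMap (𝓞 L) L x) = 1 := by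
    intro x hx
    have h := (w.valuation_lt_one_iff_mem (K := L) x).not.2 hx
    exact le_antisymm (w.valuation_le_one x) (not_lt.1 h)
  have e2 : (-16 : L) * (4 * (U ^ 4 * algebraMap F₀ L α) ^ 3 +
      27 * (U ^ 6 * algebraMap F₀ L β) ^ 2) =
      algebraMap (𝓞 L) L (algebraMap (𝓞 F₀) (𝓞 L) V.Δ) := by
    have h3 := congrArg (algebraMap F₀ L) hΔ1
    rw [← IsScalarTower.algebraMap_apply (𝓞 F₀) F₀ L,
      IsScalarTower.algebraMap_apply (𝓞 F₀) (𝓞 L) L] at h3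
    rw [← h3]
    have e16 : algebraMap F₀ L (-16) = -16 := by
      rw [map_neg, map_ofNat]
    rw [map_mul, map_mul, map_pow, ← hU, e16]
    simp only [map_add, map_mul, map_pow, map_ofNat]
    ring
  have h3 : w.valuation L (algebraMap (𝓞 L) L (algebraMap (𝓞 F₀) (𝓞 L) V.Δ)) = 1 :=
    key _ hΔ
  have h4 : w.valuation L (-16 : L) = 1 := by
    have h5 : w.valuation L (2 : L) = 1 := by
      have h6 := key 2 h2
      rwa [map_ofNat] at h6
    have e : (-16 : L) = -(2 ^ 4) := by norm_num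
    rw [e, Valuation.map_neg, map_pow, h5, one_pow]
  rw [← e2, map_mul, h4, one_mul] at h3
  exact h3

end Pool.Agent.Lib.MP_1a91b9_nuZ
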