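import Pool.Agent.Lib.MP_1a91b9_nuI.Fb.TransB

/-!
# The isogenous forms: integral coefficients without new bad places
-/

set_option autoImplicit false

namespace Pool.Agent.Lib.MP_1a91b9_nuZ

open NumberField IsDedekindDomain WeierstrassCurve Module
open Pool.Agent.Lib.MP_1a91b9_nuI
open Pool.Agent.Lib.MP_1a91b9_nt (card_point_variableChange)

section
variable {a' b' a b : ℤ} {n : ℕ} {j' j d : ℤ}

/-- the common divisor of the coefficients -/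
theorem four_gcd (h : Four a' b' a b n j' j d) :
    ((Int.gcd a' b' : ℕ) : ℤ) ∣ 6 * d ∧
      (4 * a' ^ 3 + 27 * b' ^ 2) ∣ (6 * ((Int.gcd a' b' : ℕ) : ℤ)) ^ 8 ∧
      (4 * a ^ 3 + 27 * b ^ 2) ∣ 4 * a' ^ 3 + 27 * b' ^ 2 := by
  rcases h with ⟨rfl, rfl, rfl, rfl, rfl, rfl, rfl, rfl⟩ | ⟨rfl, rfl, rfl, rfl, rfl, rfl, rfl, rfl⟩ |
    ⟨rfl, rfl, rfl, rfl, rfl, rfl, rfl, rfl⟩ | ⟨rfl, rfl, rfl, rfl, rfl, rfl, rfl, rfl⟩
  · have e : Int.gcd (-15) 22 = 1 := by decide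
    rw [e]
    norm_num
  · have e : Int.gcd (-11) 14 = 1 := by decide
    rw [e]
    norm_num
  · have e : Int.gcd (-595) 5586 = 7 := by decide
    rw [e]
    norm_num
  · have e : Int.gcd (-120) 506 = 2 := by decide
    rw [e]
    norm_num

theorem four_gcd_ne (h : Four a' b' a b n j' j d) : ((Int.gcd a' b' : ℕ) : ℤ) ≠ 0 := by
  rw [Ne, Int.natCast_eq_zero, Int.gcd_eq_zero_iff]
  exact fun h1 => h.ne.1 h1.1

/-- the parameter of the form is almost integral -/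
theorem four_int {N : Type*} [Field N] [NumberField N] (α β : 𝓞 N)
    (D : N) (hα : algebraMap (𝓞 N) N α = a' * D ^ 2)
    (hβ : algebraMap (𝓞 N) N β = b' * D ^ 3) :
    ∃ δ : 𝓞 N, algebraMap (𝓞 N) N δ = D * (((Int.gcd a' b' : ℕ) : ℤ) : N) := by
  have hi : ∀ x : 𝓞 N, IsIntegral ℤ (algebraMap (𝓞 N) N x) := fun x =>
    RingOfIntegers.isIntegral_coe x
  have hz : ∀ m : ℤ, IsIntegral ℤ (m : N) := fun m => by
    have h := isIntegral_algebraMap (R := ℤ) (A := N) (x := m)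
    rwa [eq_intCast] at h
  have h1 : IsIntegral ℤ ((a' : N) * D) := by
    refine IsIntegral.of_pow two_pos ?_
    have e : ((a' : N) * D) ^ 2 = a' * algebraMap (𝓞 N) N α := by
      rw [hα]
      ring
    rw [e]
    exact (hz a').mul (hi α)
  have h2 : IsIntegral ℤ ((b' : N) * D) := by
    refine IsIntegral.of_pow three_pos ?_
    have e : ((b' : N) * D) ^ 3 = (b' : N) ^ 2 * algebraMap (𝓞 N) N β := by
      rw [hβ]
      ring
    rw [e]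
    exact ((hz b').pow 2).mul (hi β)
  have h3 : IsIntegral ℤ (D * (((Int.gcd a' b' : ℕ) : ℤ) : N)) := by
    have e : D * (((Int.gcd a' b' : ℕ) : ℤ) : N) =
        ((Int.gcdA a' b' : ℤ) : N) * (a' * D) + ((Int.gcdB a' b' : ℤ) : N) * (b' * D) := by
      rw [Int.gcd_eq_gcd_ab]
      push_cast
      ring
    rw [e]
    exact ((hz _).mul h1).add ((hz _).mul h2)
  exact ⟨⟨_, h3⟩, rfl⟩

/-- the conditions for the curve and the isogenous curve -/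
theorem ramM (h : Four a' b' a b n j' j d) {ℓ : ℕ} {T : Finset ℕ} {F₀ : Type}
    [Field F₀] [NumberField F₀] (α β δ : 𝓞 F₀) (k : ℤ)
    (e1 : α * (k : 𝓞 F₀) ^ 2 = (a' : 𝓞 F₀) * δ ^ 2)
    (e2 : β * (k : 𝓞 F₀) ^ 3 = (b' : 𝓞 F₀) * δ ^ 3)
    (e3 : (4 * a' ^ 3 + 27 * b' ^ 2) ∣ (6 * k) ^ 8)
    {L : Type} [Field L] [NumberField L] [Algebra F₀ L] (hR : RamB ℓ T d α β L) :
    RamB ℓ T d ((a : 𝓞 F₀) * (δ * (k : 𝓞 F₀)) ^ 2) ((b : 𝓞 F₀) * (δ * (k : 𝓞 F₀)) ^ 3) L := by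
  intro v w hvw
  obtain ⟨h1, h2⟩ := hR v w hvw
  refine ⟨h1, fun h3 => ?_⟩
  have hv : v.asIdeal.IsPrime := v.isPrime
  have h6 : (6 : 𝓞 F₀) ∉ v.asIdeal := by
    intro h6
    exact h3 (Ideal.mul_mem_right _ _ h6)
  have hk : (k : 𝓞 F₀) ∉ v.asIdeal := by
    intro hk
    apply h3
    have e : 6 * (4 * ((a : 𝓞 F₀) * (δ * k) ^ 2) ^ 3 + 27 * (b * (δ * k) ^ 3) ^ 2) =
        6 * (4 * a ^ 3 + 27 * b ^ 2) * δ ^ 6 * k ^ 5 * k := by ring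
    rw [e]
    exact Ideal.mul_mem_left _ _ hk
  have hδ : δ ∉ v.asIdeal := by
    intro hk
    apply h3
    have e : 6 * (4 * ((a : 𝓞 F₀) * (δ * k) ^ 2) ^ 3 + 27 * (b * (δ * k) ^ 3) ^ 2) =
        6 * (4 * a ^ 3 + 27 * b ^ 2) * k ^ 6 * δ ^ 5 * δ := by ring
    rw [e]
    exact Ideal.mul_mem_left _ _ hk
  have h4 : 4 * α ^ 3 + 27 * β ^ 2 ∉ v.asIdeal := by
    intro h4
    have h5 : ((4 * a' ^ 3 + 27 * b' ^ 2 : ℤ) : 𝓞 F₀) * δ ^ 6 ∈ v.asIdeal := by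
      have e : ((4 * a' ^ 3 + 27 * b' ^ 2 : ℤ) : 𝓞 F₀) * δ ^ 6 =
          (4 * α ^ 3 + 27 * β ^ 2) * (k : 𝓞 F₀) ^ 6 := by
        have e4 : (α * (k : 𝓞 F₀) ^ 2) ^ 3 = ((a' : 𝓞 F₀) * δ ^ 2) ^ 3 := by rw [e1]
        have e5 : (β * (k : 𝓞 F₀) ^ 3) ^ 2 = ((b' : 𝓞 F₀) * δ ^ 3) ^ 2 := by rw [e2]
        push_cast
        linear_combination -4 * e4 - 27 * e5
      rw [e]
      exact Ideal.mul_mem_right _ _ h4
    rcases hv.mem_or_mem h5 with h7 | h7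
    · obtain ⟨c, hc⟩ := e3
      have h8 : ((6 : 𝓞 F₀) * (k : 𝓞 F₀)) ^ 8 ∈ v.asIdeal := by
        have e := congrArg (Int.cast : ℤ → 𝓞 F₀) hc
        rw [Int.cast_mul] at e
        push_cast at e h7
        rw [e]
        exact Ideal.mul_mem_right _ _ h7
      rcases hv.mem_or_mem (hv.mem_of_pow_mem 8 h8) with h9 | h9
      · exact h6 h9
      · exact hk h9
    · exact hδ (hv.mem_of_pow_mem 6 h7)
  have h5 : 6 * (4 * α ^ 3 + 27 * β ^ 2) ∉ v.asIdeal := by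
    intro h5
    rcases hv.mem_or_mem h5 with h7 | h7
    · exact h6 h7
    · exact h4 h7
  have h8 := h2 h5
  have hm : v.asIdeal.IsMaximal := v.isMaximal
  let _ : Field (𝓞 F₀ ⧸ v.asIdeal) := Ideal.Quotient.field _
  have i2 : Finite (𝓞 F₀ ⧸ v.asIdeal) := Ideal.finiteQuotientOfFreeOfNeBot _ v.ne_bot
  have h6' : (6 : 𝓞 F₀ ⧸ v.asIdeal) ≠ 0 := by
    intro h0
    apply h6
    rw [← Ideal.Quotient.eq_zero_iff_mem, map_ofNat]
    exact h0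
  have hk' : (k : 𝓞 F₀ ⧸ v.asIdeal) ≠ 0 := by
    intro h0
    apply hk
    rw [← Ideal.Quotient.eq_zero_iff_mem, map_intCast]
    exact h0
  obtain ⟨D, hD⟩ : ∃ D : 𝓞 F₀ ⧸ v.asIdeal, D = Ideal.Quotient.mk v.asIdeal δ / k := ⟨_, rfl⟩
  have hDk : Ideal.Quotient.mk v.asIdeal δ = D * k := by
    rw [hD]
    field_simp
  have e1' := congrArg (Ideal.Quotient.mk v.asIdeal) e1
  have e2' := congrArg (Ideal.Quotient.mk v.asIdeal) e2
  simp only [map_mul, map_pow, map_intCast] at e1' e2'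
  have hα : Ideal.Quotient.mk v.asIdeal α = a' * D ^ 2 := by
    apply mul_right_cancel₀ (pow_ne_zero 2 hk')
    rw [e1', hDk]
    ring
  have hβ : Ideal.Quotient.mk v.asIdeal β = b' * D ^ 3 := by
    apply mul_right_cancel₀ (pow_ne_zero 3 hk')
    rw [e2', hDk]
    ring
  have hΔ : 4 * ((a' : 𝓞 F₀ ⧸ v.asIdeal) * D ^ 2) ^ 3 +
      27 * ((b' : 𝓞 F₀ ⧸ v.asIdeal) * D ^ 3) ^ 2 ≠ 0 := by
    intro h0
    apply h4
    rw [← Ideal.Quotient.eq_zero_iff_mem]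
    simp only [map_add, map_mul, map_pow, map_ofNat]
    rw [hα, hβ]
    exact h0
  have h9 := h.card h6' D hΔ
  have h10 : Nat.card (cv (a * (Ideal.Quotient.mk v.asIdeal δ * k) ^ 2)
      (b * (Ideal.Quotient.mk v.asIdeal δ * k) ^ 3)).toAffine.Point =
      Nat.card (cv (a * D ^ 2) (b * D ^ 3)).toAffine.Point := by
    rw [← card_point_variableChange (cv (a * D ^ 2) (b * D ^ 3))
      (⟨(Units.mk0 _ hk')⁻¹, 0, 0, 0⟩ : VariableChange (𝓞 F₀ ⧸ v.asIdeal)), cv_scale, inv_inv,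
      Units.val_mk0, hDk]
    congr 4 <;> ring
  have g1 : (⟨0, 0, 0, Ideal.Quotient.mk v.asIdeal (a * (δ * k) ^ 2),
      Ideal.Quotient.mk v.asIdeal (b * (δ * k) ^ 3)⟩ : WeierstrassCurve (𝓞 F₀ ⧸ v.asIdeal)) =
      cv (a * (Ideal.Quotient.mk v.asIdeal δ * k) ^ 2)
        (b * (Ideal.Quotient.mk v.asIdeal δ * k) ^ 3) := by
    simp only [map_mul, map_pow, map_intCast]
    rfl
  rw [g1, h10, ← h9, ← hα, ← hβ]
  exact h8

/-- the transfer for the towers -/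
theorem towM (h : Four a' b' a b n j' j d) {ℓ : ℕ} {T : Finset ℕ} {F₀ : Type} [Field F₀]
    [NumberField F₀] (α β δ : 𝓞 F₀) (k : ℤ) (hk : k ≠ 0) (hδ : δ ≠ 0)
    (e1 : α * (k : 𝓞 F₀) ^ 2 = (a' : 𝓞 F₀) * δ ^ 2)
    (e2 : β * (k : 𝓞 F₀) ^ 3 = (b' : 𝓞 F₀) * δ ^ 3)
    (e3 : (4 * a' ^ 3 + 27 * b' ^ 2) ∣ (6 * k) ^ 8)
    (Q Q' : ∀ (N : Type) [Field N] [NumberField N], WeierstrassCurve N → Prop)
    (hQ : ∀ (m : ℕ) (N L M : Type) [Field N] [NumberField N] [Field L] [NumberField L] [Field M]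
      [NumberField M] [Algebra N L] [Algebra F₀ L] [Algebra L M] [Algebra F₀ M]
      [IsScalarTower F₀ L M] [IsGalois F₀ M], finrank F₀ M = ℓ ^ m →
      ∀ (W : WeierstrassCurve N) (D : N), D ≠ 0 →
      (∃ C : VariableChange N, C • W = cv (a' * D ^ 2) (b' * D ^ 3)) →
      (∃ C : VariableChange L, C • (cv (a' * D ^ 2) (b' * D ^ 3)).baseChange L =
        cv (algebraMap F₀ L α) (algebraMap F₀ L β)) →
      Q N (cv (a * D ^ 2) (b * D ^ 3)) → Q' N W)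
    (H : TowB ℓ T d ((a : 𝓞 F₀) * (δ * (k : 𝓞 F₀)) ^ 2)
      ((b : 𝓞 F₀) * (δ * (k : 𝓞 F₀)) ^ 3) Q) :
    TowB ℓ T d α β Q' := by
  intro m N L M _ _ _ _ _ _ _ _ _ _ _ _ hM hR W C hC
  obtain ⟨D₀, hD₀⟩ : ∃ D₀ : L, D₀ = algebraMap F₀ L δ / k := ⟨_, rfl⟩
  have hkL : (k : L) ≠ 0 := by exact_mod_cast hk
  have hδF : algebraMap (𝓞 F₀) F₀ δ ≠ 0 := by
    intro h0
    exact hδ ((injective_iff_map_eq_zero _).1 (FaithfulSMul.algebraMap_injective (𝓞 F₀) F₀) δ h0)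
  have hδL : algebraMap F₀ L (algebraMap (𝓞 F₀) F₀ δ) ≠ 0 := (map_ne_zero _).2 hδF
  have hD0 : D₀ ≠ 0 := by
    rw [hD₀]
    exact div_ne_zero hδL hkL
  have hDk : algebraMap F₀ L (algebraMap (𝓞 F₀) F₀ δ) = D₀ * k := by
    rw [hD₀]
    field_simp
  have e1' := congrArg (fun x : 𝓞 F₀ => algebraMap F₀ L (algebraMap (𝓞 F₀) F₀ x)) e1
  have e2' := congrArg (fun x : 𝓞 F₀ => algebraMap F₀ L (algebraMap (𝓞 F₀) F₀ x)) e2
  simp only [map_mul, map_pow, map_intCast, hDk] at e1' e2'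
  have hα : algebraMap F₀ L (algebraMap (𝓞 F₀) F₀ α) = a' * D₀ ^ 2 := by
    apply mul_right_cancel₀ (pow_ne_zero 2 hkL)
    rw [e1']
    ring
  have hβ : algebraMap F₀ L (algebraMap (𝓞 F₀) F₀ β) = b' * D₀ ^ 3 := by
    apply mul_right_cancel₀ (pow_ne_zero 3 hkL)
    rw [e2']
    ring
  have hC' : C • W.baseChange L = cv (a' * D₀ ^ 2) (b' * D₀ ^ 3) := by
    rw [hC, ← hα, ← hβ]
    rfl
  obtain ⟨D, hD, ⟨C₁, hC₁⟩, -, C₂, hC₂⟩ := h.cls W C D₀ hD0 hC'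
  refine hQ m N L M hM W D hD ⟨C₁, hC₁⟩ ?_
    (H m N L M hM (ramM h α β δ k e1 e2 e3 hR) _
      ((⟨(Units.mk0 (k : L) hkL)⁻¹, 0, 0, 0⟩ : VariableChange L) * C₂) ?_)
  · refine ⟨C * (C₁.map (algebraMap N L))⁻¹, ?_⟩
    have e : (cv ((a' : N) * D ^ 2) (b' * D ^ 3)).baseChange L =
        C₁.map (algebraMap N L) • W.baseChange L := by
      rw [← hC₁]
      exact (bc_change W (C₁ • W) C₁ rfl L).symm
    rw [e, mul_smul, inv_smul_smul]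
    exact hC
  · rw [mul_smul, hC₂, cv_scale, inv_inv, Units.val_mk0]
    refine congrArg₂ cv ?_ ?_
    · show _ = algebraMap F₀ L (algebraMap (𝓞 F₀) F₀ _)
      simp only [map_mul, map_pow, map_intCast, hDk]
      ring
    · show _ = algebraMap F₀ L (algebraMap (𝓞 F₀) F₀ _)
      simp only [map_mul, map_pow, map_intCast, hDk]
      ring

end

end Pool.Agent.Lib.MP_1a91b9_nuZ
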