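import Pool.Agent.Lib.MP_1a91b9_nuZ.Nn
import Pool.Agent.Lib.MP_1a91b9_nuZ.Int
import Pool.Agent.Lib.MP_1a91b9_nuZ.Gt
import Pool.Agent.Lib.MP_1a91b9_nuE.Tf

/-!
# Twisted base: the conditions for the isogenous form
-/

set_option autoImplicit false

namespace Pool.Agent.Lib.MP_1a91b9_nuZ

open NumberField IsDedekindDomain WeierstrassCurve Module
open Pool.Agent.Lib.MP_1a91b9_nuI
open Pool.Agent.Lib.MP_1a91b9_nuX.PG (Gd)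
open Pool.Agent.Lib.MP_1a91b9_nuE (bE Rv four_good good_smul good_of_model model_of_good prime_mn
  mem_mn two_zpow bE_dvd exists_model)

section
variable {a' b' a b : ℤ} {n : ℕ} {j' j d : ℤ}

/-- good models of the form and of the isogenous form -/
theorem goodT (h : Four a' b' a b n j' j d) {F₀ : Type} [Field F₀] [NumberField F₀]
    (α β δ : 𝓞 F₀) (k : ℤ) (hk : k ≠ 0)
    (e1 : α * (k : 𝓞 F₀) ^ 2 = (a' : 𝓞 F₀) * δ ^ 2)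
    (e2 : β * (k : 𝓞 F₀) ^ 3 = (b' : 𝓞 F₀) * δ ^ 3) (v : HeightOneSpectrum (𝓞 F₀)) (c : ℕ) :
    Good (Rv v) (cv (((a : 𝓞 F₀) * (δ * (k : 𝓞 F₀)) ^ 2 : 𝓞 F₀) : F₀)
        (((b : 𝓞 F₀) * (δ * (k : 𝓞 F₀)) ^ 3 : 𝓞 F₀) : F₀)) c ↔
      Good (Rv v) (cv (α : F₀) (β : F₀)) c := by
  have hkF : (k : F₀) ≠ 0 := by exact_mod_cast hk
  obtain ⟨D, hD⟩ : ∃ D : F₀, D = algebraMap (𝓞 F₀) F₀ δ / k := ⟨_, rfl⟩
  have hDk : algebraMap (𝓞 F₀) F₀ δ = D * k := by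
    rw [hD]
    field_simp
  have e1' := congrArg (algebraMap (𝓞 F₀) F₀) e1
  have e2' := congrArg (algebraMap (𝓞 F₀) F₀) e2
  simp only [map_mul, map_pow, map_intCast] at e1' e2'
  have hα : algebraMap (𝓞 F₀) F₀ α = a' * D ^ 2 := by
    apply mul_right_cancel₀ (pow_ne_zero 2 hkF)
    rw [e1', hDk]
    ring
  have hβ : algebraMap (𝓞 F₀) F₀ β = b' * D ^ 3 := by
    apply mul_right_cancel₀ (pow_ne_zero 3 hkF)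
    rw [e2', hDk]
    ring
  have e3 : cv (((a : 𝓞 F₀) * (δ * (k : 𝓞 F₀)) ^ 2 : 𝓞 F₀) : F₀)
      (((b : 𝓞 F₀) * (δ * (k : 𝓞 F₀)) ^ 3 : 𝓞 F₀) : F₀) =
      (⟨(Units.mk0 (k : F₀) hkF)⁻¹, 0, 0, 0⟩ : VariableChange F₀) •
        cv ((a : F₀) * D ^ 2) (b * D ^ 3) := by
    rw [cv_scale, inv_inv, Units.val_mk0]
    refine congrArg₂ cv ?_ ?_
    · change algebraMap (𝓞 F₀) F₀ _ = _
      simp only [map_mul, map_pow, map_intCast]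
      rw [hDk]
      ring
    · change algebraMap (𝓞 F₀) F₀ _ = _
      simp only [map_mul, map_pow, map_intCast]
      rw [hDk]
      ring
  rw [e3, good_smul]
  change _ ↔ Good (Rv v) (cv (algebraMap (𝓞 F₀) F₀ α) (algebraMap (𝓞 F₀) F₀ β)) c
  rw [hα, hβ]
  exact (four_good (Rv v) h D c).symm

/-- the places of the isogenous form -/
theorem memT (h : Four a' b' a b n j' j d) (D₀ : ℤ) {m : ℕ} {F₀ : Type} [Field F₀]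
    [NumberField F₀] (α β δ : 𝓞 F₀) (k : ℤ)
    (e1 : α * (k : 𝓞 F₀) ^ 2 = (a' : 𝓞 F₀) * δ ^ 2)
    (e2 : β * (k : 𝓞 F₀) ^ 3 = (b' : 𝓞 F₀) * δ ^ 3) (e3 : k ∣ 6 * d)
    (e4 : (4 * a' ^ 3 + 27 * b' ^ 2) ∣ (6 * k) ^ 8)
    (e5 : (4 * a ^ 3 + 27 * b ^ 2) ∣ 4 * a' ^ 3 + 27 * b' ^ 2)
    (v : HeightOneSpectrum (𝓞 F₀))
    (hv : ((((m * n : ℕ) : ℤ) * bE (a * D₀ ^ 2) (b * D₀ ^ 3) d : ℤ) : 𝓞 F₀) *
      (6 * (4 * ((a : 𝓞 F₀) * (δ * (k : 𝓞 F₀)) ^ 2) ^ 3 +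
        27 * ((b : 𝓞 F₀) * (δ * (k : 𝓞 F₀)) ^ 3) ^ 2)) ∈ v.asIdeal) :
    ((m * bE (a' * D₀ ^ 2) (b' * D₀ ^ 3) d : ℤ) : 𝓞 F₀) *
      (6 * (4 * α ^ 3 + 27 * β ^ 2)) ∈ v.asIdeal := by
  have hP := v.isPrime
  have key : ∀ x y : ℤ, x ∣ y → (x : 𝓞 F₀) ∈ v.asIdeal → (y : 𝓞 F₀) ∈ v.asIdeal := by
    rintro x y ⟨c, rfl⟩ hx
    rw [Int.cast_mul]
    exact v.asIdeal.mul_mem_right _ hx
  have h6 : ((6 : ℤ) : 𝓞 F₀) ∈ v.asIdeal → ((m * bE (a' * D₀ ^ 2) (b' * D₀ ^ 3) d : ℤ) : 𝓞 F₀) *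
      (6 * (4 * α ^ 3 + 27 * β ^ 2)) ∈ v.asIdeal := by
    intro h
    refine v.asIdeal.mul_mem_left _ (v.asIdeal.mul_mem_right _ ?_)
    exact_mod_cast h
  have hk : (k : 𝓞 F₀) ∈ v.asIdeal → ((m * bE (a' * D₀ ^ 2) (b' * D₀ ^ 3) d : ℤ) : 𝓞 F₀) *
      (6 * (4 * α ^ 3 + 27 * β ^ 2)) ∈ v.asIdeal := by
    intro hk
    refine v.asIdeal.mul_mem_right _ (key (6 * d) _ ?_ (key _ _ e3 hk))
    unfold bE
    exact ⟨m * ((4 * (a' * D₀ ^ 2) ^ 3 + 27 * (b' * D₀ ^ 3) ^ 2) *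
      (if d ≤ -19 then (1 - d) / 4 else 1)), by ring⟩
  rcases hP.mem_or_mem hv with h1 | h1
  · exact v.asIdeal.mul_mem_right _ (mem_mn h D₀ v h1)
  rcases hP.mem_or_mem h1 with h2 | h2
  · exact h6 (by exact_mod_cast h2)
  have e6 : 4 * ((a : 𝓞 F₀) * (δ * (k : 𝓞 F₀)) ^ 2) ^ 3 +
      27 * ((b : 𝓞 F₀) * (δ * (k : 𝓞 F₀)) ^ 3) ^ 2 =
      ((4 * a ^ 3 + 27 * b ^ 2 : ℤ) : 𝓞 F₀) * ((δ ^ 6) * (k : 𝓞 F₀) ^ 6) := by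
    push_cast
    ring
  rw [e6] at h2
  rcases hP.mem_or_mem h2 with h3 | h3
  · have h4 := key _ _ (e5.trans e4) h3
    have h5 : ((6 : ℤ) : 𝓞 F₀) * (k : 𝓞 F₀) ∈ v.asIdeal := by
      refine hP.mem_of_pow_mem 8 ?_
      have e7 : (((6 : ℤ) : 𝓞 F₀) * (k : 𝓞 F₀)) ^ 8 = (((6 * k) ^ 8 : ℤ) : 𝓞 F₀) := by push_cast; ring
      rw [e7]
      exact h4
    rcases hP.mem_or_mem h5 with h7 | h7
    · exact h6 h7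
    · exact hk h7
  rcases hP.mem_or_mem h3 with h4 | h4
  · have h5 := hP.mem_of_pow_mem 6 h4
    have h7 : (4 * α ^ 3 + 27 * β ^ 2) * (k : 𝓞 F₀) ^ 6 ∈ v.asIdeal := by
      have e : (4 * α ^ 3 + 27 * β ^ 2) * (k : 𝓞 F₀) ^ 6 =
          ((4 * a' ^ 3 + 27 * b' ^ 2 : ℤ) : 𝓞 F₀) * δ ^ 5 * δ := by
        have e4 : (α * (k : 𝓞 F₀) ^ 2) ^ 3 = ((a' : 𝓞 F₀) * δ ^ 2) ^ 3 := by rw [e1]
        have e5 : (β * (k : 𝓞 F₀) ^ 3) ^ 2 = ((b' : 𝓞 F₀) * δ ^ 3) ^ 2 := by rw [e2]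
        push_cast
        linear_combination 4 * e4 + 27 * e5
      rw [e]
      exact v.asIdeal.mul_mem_left _ h5
    rcases hP.mem_or_mem h7 with h8 | h8
    · exact v.asIdeal.mul_mem_left _ (v.asIdeal.mul_mem_left _ h8)
    · exact hk (hP.mem_of_pow_mem 6 h8)
  · exact hk (hP.mem_of_pow_mem 6 h4)

/-- **The conditions for the isogenous form.** -/
theorem cndT_four (h : Four a' b' a b n j' j d) (D₀ : ℤ) {ℓ m e : ℕ} {q : ℚ} {F₀ : Type}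
    [Field F₀] [NumberField F₀] (α β δ : 𝓞 F₀) (k : ℤ) (hk : k ≠ 0)
    (e1 : α * (k : 𝓞 F₀) ^ 2 = (a' : 𝓞 F₀) * δ ^ 2)
    (e2 : β * (k : 𝓞 F₀) ^ 3 = (b' : 𝓞 F₀) * δ ^ 3) (e3 : k ∣ 6 * d)
    (e4 : (4 * a' ^ 3 + 27 * b' ^ 2) ∣ (6 * k) ^ 8)
    (e5 : (4 * a ^ 3 + 27 * b ^ 2) ∣ 4 * a' ^ 3 + 27 * b' ^ 2) (i i' : ℤ)
    (H : CndT ℓ m (bE (a' * D₀ ^ 2) (b' * D₀ ^ 3) d) e q α β) :
    CndT ℓ (m * n) (bE (a * D₀ ^ 2) (b * D₀ ^ 3) d) e (q * ((2 : ℚ) ^ i * 3 ^ i'))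
      ((a : 𝓞 F₀) * (δ * (k : 𝓞 F₀)) ^ 2) ((b : 𝓞 F₀) * (δ * (k : 𝓞 F₀)) ^ 3) := by
  have hℓ := H.prime
  have := Fact.mk hℓ
  have hno : ∀ r : ℤ, r ∣ 6 → ¬ (ℓ : ℤ) ∣ r := by
    intro r hr h1
    refine H.cop (((h1.trans hr).trans ?_).mul_left _)
    exact ⟨(4 * (a' * D₀ ^ 2) ^ 3 + 27 * (b' * D₀ ^ 3) ^ 2) * d *
      (if d ≤ -19 then (1 - d) / 4 else 1), by unfold bE; ring⟩
  have h2 : ℓ ≠ 2 := by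
    rintro rfl
    exact hno 2 ⟨3, by norm_num⟩ (dvd_refl _)
  have h3 : ℓ ≠ 3 := by
    rintro rfl
    exact hno 3 ⟨2, by norm_num⟩ (dvd_refl _)
  obtain ⟨h4, h5⟩ := two_zpow h2 h3 H.num H.den i i'
  refine ⟨hℓ, fun h1 => H.cop (prime_mn h D₀ hℓ h1),
    fun p hp h1 => H.sq p hp (prime_mn h D₀ hp h1), H.e2, h4, h5, fun v hv V C hC hΔ => ?_⟩
  have h6 := good_of_model v hC hΔ
  have h7 := (goodT h α β δ k hk e1 e2 v _).1 h6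
  obtain ⟨V', C', h8, h9, h10⟩ := model_of_good v h7
  rw [← h10]
  exact H.pts v (memT h D₀ α β δ k e1 e2 e3 e4 e5 v hv) V' C' h8 h9

/-- the form has good reduction if the isogenous form has -/
theorem model_four (h : Four a' b' a b n j' j d) {F₀ : Type}
    [Field F₀] [NumberField F₀] (α β δ : 𝓞 F₀) (k : ℤ) (hk : k ≠ 0)
    (e1 : α * (k : 𝓞 F₀) ^ 2 = (a' : 𝓞 F₀) * δ ^ 2)
    (e2 : β * (k : 𝓞 F₀) ^ 3 = (b' : 𝓞 F₀) * δ ^ 3) (v : HeightOneSpectrum (𝓞 F₀))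
    (hg : Gd (cv (((a : 𝓞 F₀) * (δ * (k : 𝓞 F₀)) ^ 2 : 𝓞 F₀) : F₀)
        (((b : 𝓞 F₀) * (δ * (k : 𝓞 F₀)) ^ 3 : 𝓞 F₀) : F₀)) v) :
    ∃ (V : WeierstrassCurve (𝓞 F₀)) (C : VariableChange F₀),
      C • cv (α : F₀) (β : F₀) = V.map (algebraMap (𝓞 F₀) F₀) ∧ V.Δ ∉ v.asIdeal := by
  obtain ⟨V, C, hC, hΔ⟩ := exists_model hg
  have h7 := (goodT h α β δ k hk e1 e2 v _).1 (good_of_model v hC hΔ)
  obtain ⟨V', C', h8, h9, -⟩ := model_of_good v h7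
  exact ⟨V', C', h8, h9⟩

end

end Pool.Agent.Lib.MP_1a91b9_nuZ
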