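import Pool.Agent.Lib.MP_1a91b9_nuZ.Un
import Pool.Agent.Lib.MP_1a91b9_nuE.PerB
import Pool.Agent.Lib.MP_1a91b9_nuE.Quot
import Pool.Agent.Lib.MP_1a91b9_nuW.TH.Gda

/-!
# Twisted base: the unit property over `F₀ = N₀ K` from the value over `N₀`
-/

set_option autoImplicit false

namespace Pool.Agent.Lib.MP_1a91b9_nuZ

open NumberField IsDedekindDomain WeierstrassCurve Module IntermediateField
open Pool.Agent.Lib.MP_1a91b9_nuT hiding cj
open Pool.Agent.Lib.MP_1a91b9_nuX Pool.Agent.Lib.MP_1a91b9_nuX.QW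
open Pool.Agent.Lib.MP_1a91b9_nuX.DB Pool.Agent.Lib.MP_1a91b9_nuX.DX Pool.Agent.Lib.MP_1a91b9_nuX.GL
open Pool.Agent.Lib.MP_1a91b9_nuG (up ValueProp val_q)
open Pool.Agent.Lib.MP_1a91b9_nuX.PG
open Pool.Agent.Lib.MP_1a91b9_nuX.PH
open Pool.Agent.Lib.MP_1a91b9_nuX.TG Pool.Agent.Lib.MP_1a91b9_nuX.TC
open Pool.Agent.Lib.MP_1a91b9_nuX.TH (ChW NaW naW_down naW_iso)
open Pool.Agent.Lib.MP_1a91b9_nuT.Per (cv)
open Pool.Agent.Lib.MP_1a91b9_nuT.PL (Ab)
open Pool.Agent.Lib.MP_1a91b9_nuT.S9 (period)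
open Pool.Agent.Lib.MP_1a91b9_nuY
open Pool.Agent.Lib.MP_1a91b9_nuY.TF (lgb_dat)

variable [CD] [HC]

/-- **The unit property over `F₀ = N₀ K` of the twist.** -/
theorem unitT_base (hE : EllK) {ℓ : ℕ} (hℓ : ℓ.Prime) (h5 : 5 ≤ ℓ) {μ : 𝓞 K}
    {N₀ F₀ G₀ : Type} [Field N₀] [NumberField N₀]
    [Field F₀] [NumberField F₀] [Field G₀] [NumberField G₀] [Algebra N₀ F₀] [Algebra K F₀]
    [Algebra K G₀] [Algebra F₀ G₀] [IsScalarTower K F₀ G₀] [IsGalois F₀ G₀] [DecidableEq G₀]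
    {T : Pt G₀} (hT : AbT μ F₀ T)
    (hN : IntermediateField.adjoin N₀ (Set.range (algebraMap K F₀)) = ⊤) {a b : N₀} {u : G₀}
    {θ : Gal(G₀/F₀) →* (𝓞 K)ˣ} (hs : ScD (algebraMap N₀ F₀ a) (algebraMap N₀ F₀ b) u θ) {g : 𝓞 K}
    (hg0 : g ≠ 0) (hg : gB μ ∣ g) (hgℓ : IsCoprime g (ℓ : 𝓞 K))
    (hna : NaW ℓ g (cv (algebraMap N₀ F₀ a) (algebraMap N₀ F₀ b))) (hu : DS.UnrL ℓ F₀)
    (he : ¬ ℓ ∣ 2 ^ finrank K F₀ - 1) {h : ℂ → ℂ} (hd : Differentiable ℂ h)
    (hl : ∀ s : ℂ, 3 / 2 < s.re → h s = (cv a b : WeierstrassCurve N₀).LSeries s)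
    (h1 : ∀ A : ValuationSubring ℂ, Ab ℓ A →
      A.valuation (h 1) = A.valuation Om ^ finrank ℚ N₀) : UnitT ℓ F₀ (psT F₀ T g θ) := by
  have hgen : IntermediateField.adjoin N₀ {algebraMap K F₀ om} = ⊤ := by
    rw [eq_top_iff, ← hN, IntermediateField.adjoin_le_iff]
    rintro _ ⟨z, rfl⟩
    obtain ⟨a, b, rfl⟩ := exists_rat_coords z
    rw [map_add, map_mul, map_ratCast, map_ratCast]
    have h2 : ∀ q : ℚ, (q : F₀) ∈ IntermediateField.adjoin N₀ {algebraMap K F₀ om} := fun q => by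
      have h3 := (IntermediateField.adjoin N₀ {algebraMap K F₀ om}).algebraMap_mem (q : N₀)
      rwa [map_ratCast] at h3
    exact add_mem (h2 a) (mul_mem (h2 b) (mem_adjoin_simple_self N₀ _))
  have hK2 : finrank ℚ K = 2 := finrank_K
  rcases TG.exists_sub F₀ N₀ with ⟨aKN, hst⟩ | ⟨F, _, _, _, _, _, t1, t2, h2, hn⟩
  · have hb : Function.Bijective (algebraMap N₀ F₀) := by
      refine ⟨(algebraMap N₀ F₀).injective, fun y => ?_⟩
      have h5 : y ∈ (⊥ : IntermediateField N₀ F₀) := by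
        have h6 : IntermediateField.adjoin N₀ {algebraMap K F₀ om} ≤ ⊥ := by
          rw [adjoin_simple_le_iff, IntermediateField.mem_bot]
          exact ⟨algebraMap K N₀ om, (IsScalarTower.algebraMap_apply K N₀ F₀ om).symm⟩
        rw [hgen] at h6
        exact h6 mem_top
      exact IntermediateField.mem_bot.1 h5
    let aNG : Algebra N₀ G₀ := ((algebraMap F₀ G₀).comp (algebraMap N₀ F₀)).toAlgebra
    have t1 : IsScalarTower N₀ F₀ G₀ := IsScalarTower.of_algebraMap_eq fun x => rfl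
    have t2 : IsScalarTower K N₀ G₀ := IsScalarTower.of_algebraMap_eq fun x => by
      rw [IsScalarTower.algebraMap_apply K F₀ G₀, IsScalarTower.algebraMap_apply K N₀ F₀]
      rfl
    have hGal : IsGalois N₀ G₀ := by
      let e : F₀ ≃+* N₀ := (RingEquiv.ofBijective (algebraMap N₀ F₀) hb).symm
      refine IsGalois.of_equiv_equiv (F := F₀) (E := G₀) (M := N₀) (N := G₀) (f := e)
        (g := RingEquiv.refl G₀) ?_
      refine RingHom.ext fun x => ?_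
      change algebraMap F₀ G₀ (algebraMap N₀ F₀ (e x)) = algebraMap F₀ G₀ x
      congr 1
      exact (RingEquiv.ofBijective (algebraMap N₀ F₀) hb).apply_symm_apply x
    have hex : ∀ σ : Gal(G₀/N₀), ∃ σ' : Gal(G₀/F₀), toF N₀ σ' = σ := by
      intro σ
      refine ⟨AlgEquiv.ofRingEquiv (f := σ.toRingEquiv) fun x => ?_, AlgEquiv.ext fun x => rfl⟩
      obtain ⟨y, rfl⟩ := hb.2 x
      exact σ.commutes y
    have hT' : AbT μ N₀ T := by
      refine ⟨hT.ne, hT.ord, fun σ hσ => ?_⟩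
      obtain ⟨σ', rfl⟩ := hex σ
      rw [ga_toF] at hσ
      rw [hT.gen σ' hσ]
      rfl
    have ha : algebraMap N₀ G₀ a = (CD.A : G₀) * u ^ 4 := hs.ha
    have hb' : algebraMap N₀ G₀ b = (CD.B : G₀) * u ^ 6 := hs.hb
    obtain ⟨θ', hs'⟩ := exists_theta hs.ne ha hb'
    obtain ⟨⟨m, hm⟩, -⟩ := lgb_dat hE hT' hs' hg0 hg
    have ecv : cv (algebraMap N₀ F₀ a) (algebraMap N₀ F₀ b) =
        (cv a b).map (algebraMap N₀ F₀) := (LF.crv_map _ a b).symm
    have hfm : Fm (cv a b) := by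
      obtain ⟨D₀, hD₀⟩ := TF.sc_curve hs' (W := cv _ _) (D := 1) (one_smul _ _)
      have hD' : D₀⁻¹ • E G₀ = (cv a b).map (algebraMap N₀ G₀) := by
        rw [← hD₀, inv_smul_smul]
      obtain ⟨ι, D, hD, -⟩ := TX.abW_gal hT' hD'
      exact ⟨ι, D, hD⟩
    have hna' : NaW ℓ g (cv a b) := by
      rw [ecv] at hna
      exact naW_down hE hfm hna
    have hfr : finrank K N₀ = finrank K F₀ := by
      rw [← Module.finrank_mul_finrank K N₀ F₀, TX.bij_finrank hb, mul_one]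
    have hV : ValueProp g ℓ Om N₀ :=
      value_mono ((f_dvd_gB μ).trans hg)
        (MP_1a91b9_nuE.value_of_unr hℓ h5 (TG.unrL_down hℓ.ne_zero hu) (by rw [hfr]; exact he))
    have hgood := unitT_K hE hℓ hT' hs' hg0 hg hgℓ hna' hV hd hl fun A hA => by
      rw [h1 A hA, ← Module.finrank_mul_finrank ℚ K N₀, hK2]
    obtain ⟨L, hL, hL1, hL2⟩ := hgood
    have hHF : HF g N₀ (psT N₀ T g θ') := hf_psT (θ := θ') hT' hg0 hg
    have hG1 : IsGalois N₀ F₀ := TX.bij_galois hb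
    refine ⟨L, hL, fun s hs2 => ?_, fun A hA => by rw [← hfr]; exact hL2 A hA⟩
    have hup : DX.up G₀ T = T := by
      rcases cases_pt T with h0 | ⟨x, y, hxy, h0⟩
      · rw [h0, up_zero]
      · rw [h0]
        obtain ⟨h3, e3⟩ := pm_mk (IsScalarTower.toAlgHom K G₀ G₀) x y hxy
        rw [DX.up, e3, mk_inj]
        exact ⟨rfl, rfl⟩
    have hcomp := TF.psT_comp (F := F₀) (G := G₀) hT' (by rw [hup]; exact hT) hg0 hg θ' θ
      (fun σ => by
        apply Units.ext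
        apply RingOfIntegers.ext
        apply (algebraMap K G₀).injective
        apply mul_right_cancel₀ hs.ne
        have h3 := hs.th σ
        have h4 := hs'.th (rs G₀ (toF N₀ σ))
        have h5 : rs G₀ (toF N₀ σ) u = σ u := rs_apply (toF N₀ σ) u
        rw [h5] at h4
        exact h3.symm.trans h4)
    rw [hup] at hcomp
    rw [hcomp, hL1 s hs2]
    exact (TX.one_LfY (F' := F₀) hHF (TX.bij_finrank hb) s hs2).symm
  · have hb : Function.Bijective (algebraMap F F₀) := by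
      refine ⟨(algebraMap F F₀).injective, fun y => ?_⟩
      have h6 : IntermediateField.adjoin N₀ {algebraMap K F₀ om} ≤
          (IsScalarTower.toAlgHom N₀ F F₀).fieldRange := by
        rw [adjoin_simple_le_iff]
        exact ⟨algebraMap K F om, (IsScalarTower.algebraMap_apply K F F₀ om).symm⟩
      rw [hgen] at h6
      obtain ⟨z, hz⟩ := h6 (mem_top (x := y))
      exact ⟨z, hz⟩
    have h2' : finrank N₀ F₀ = 2 := by
      rw [← h2]
      exact (LinearEquiv.ofBijective (IsScalarTower.toAlgHom N₀ F F₀).toLinearMap hb).finrank_eq.symm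
    have hn' : ∀ x : N₀, algebraMap N₀ F₀ x ≠ algebraMap K F₀ om := by
      intro x hx
      apply hn x
      apply (algebraMap F F₀).injective
      rw [← IsScalarTower.algebraMap_apply N₀ F F₀, ← IsScalarTower.algebraMap_apply K F F₀]
      exact hx
    refine unitT_N hE hℓ hT h2' hn' hs hg0 hg hgℓ hna hd hl fun A hA => ?_
    rw [h1 A hA]
    have h8 : finrank ℚ N₀ * finrank N₀ F₀ = finrank ℚ K * finrank K F₀ := by
      rw [Module.finrank_mul_finrank, Module.finrank_mul_finrank]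
    rw [h2', hK2] at h8
    have h9 : finrank ℚ N₀ = finrank K F₀ := by omega
    rw [h9]

/-- the form has good reduction above `ℓ` over `N₀` -/
theorem gdA_base {ℓ : ℕ} (hℓ : ℓ.Prime) (hD : ¬ (ℓ : ℤ) ∣ CD.bad) {μ : 𝓞 K}
    (hμ : ¬ ℓ ∣ nAb μ) {N₀ F₀ G₀ : Type} [Field N₀] [NumberField N₀]
    [Field F₀] [NumberField F₀] [Field G₀] [NumberField G₀] [Algebra N₀ F₀] [Algebra K F₀]
    [Algebra K G₀] [Algebra F₀ G₀] [IsScalarTower K F₀ G₀] [IsGalois K G₀] [IsGalois N₀ F₀]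
    [DecidableEq G₀] {T : Pt G₀} (hT : AbT μ K T) {a b : N₀} {u : G₀}
    {θ : Gal(G₀/F₀) →* (𝓞 K)ˣ} (hs : ScD (algebraMap N₀ F₀ a) (algebraMap N₀ F₀ b) u θ)
    (hu : DS.UnrL ℓ F₀) (v : HeightOneSpectrum (𝓞 N₀)) (hv : (ℓ : 𝓞 N₀) ∈ v.asIdeal) :
    QW.GdA a b v := by
  obtain ⟨D₀, hD₀⟩ := TF.sc_curve hs (W := cv _ _) (D := 1) (one_smul _ _)
  have ecv : cv (algebraMap N₀ F₀ a) (algebraMap N₀ F₀ b) =
      (cv a b).map (algebraMap N₀ F₀) := (LF.crv_map _ a b).symm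
  refine TH.gdA_of_gd (W := cv a b) (D := 1) (one_smul _ _) ?_
  obtain ⟨w, rfl⟩ := CF.exists_over (k := N₀) (N := F₀) v
  refine TH.gd_down (F := F₀) (fun h1 => TH.not_ram_unrL hu hℓ.ne_zero hv
    ((MP_1a91b9_nuG.ram_eq _).2 h1)) ?_
  rw [← ecv]
  refine Pool.Agent.Lib.MP_1a91b9_nuW.TH.gd_ell_K hℓ hD hμ F₀ G₀ G₀ G₀ hT ?_ hD₀ w ?_
  · rw [eq_top_iff]
    intro z _
    exact IntermediateField.subset_adjoin _ _ ⟨z, rfl⟩
  · have hv' : algebraMap (𝓞 N₀) (𝓞 F₀) (ℓ : 𝓞 N₀) ∈ w.asIdeal := hv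
    rwa [map_natCast] at hv'

/-- the extension `N₀ K / N₀` is Galois -/
theorem galois_NK {N₀ F₀ : Type} [Field N₀] [NumberField N₀] [Field F₀] [NumberField F₀]
    [Algebra N₀ F₀] [Algebra K F₀]
    (hN : IntermediateField.adjoin N₀ (Set.range (algebraMap K F₀)) = ⊤) : IsGalois N₀ F₀ := by
  have hgen : IntermediateField.adjoin N₀ {algebraMap K F₀ om} = ⊤ := by
    rw [eq_top_iff, ← hN, IntermediateField.adjoin_le_iff]
    rintro _ ⟨z, rfl⟩
    obtain ⟨a, b, rfl⟩ := exists_rat_coords z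
    rw [map_add, map_mul, map_ratCast, map_ratCast]
    have h2 : ∀ q : ℚ, (q : F₀) ∈ IntermediateField.adjoin N₀ {algebraMap K F₀ om} := fun q => by
      have h3 := (IntermediateField.adjoin N₀ {algebraMap K F₀ om}).algebraMap_mem (q : N₀)
      rwa [map_ratCast] at h3
    exact add_mem (h2 a) (mul_mem (h2 b) (mem_adjoin_simple_self N₀ _))
  have hK2 : finrank ℚ K = 2 := finrank_K
  rcases TG.exists_sub F₀ N₀ with ⟨aKN, hst⟩ | ⟨F, _, _, _, _, _, t1, t2, h2, hn⟩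
  · have hb : Function.Bijective (algebraMap N₀ F₀) := by
      refine ⟨(algebraMap N₀ F₀).injective, fun y => ?_⟩
      have h5 : y ∈ (⊥ : IntermediateField N₀ F₀) := by
        have h6 : IntermediateField.adjoin N₀ {algebraMap K F₀ om} ≤ ⊥ := by
          rw [adjoin_simple_le_iff, IntermediateField.mem_bot]
          exact ⟨algebraMap K N₀ om, (IsScalarTower.algebraMap_apply K N₀ F₀ om).symm⟩
        rw [hgen] at h6
        exact h6 mem_top
      exact IntermediateField.mem_bot.1 h5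
    exact TX.bij_galois hb
  · have hb : Function.Bijective (algebraMap F F₀) := by
      refine ⟨(algebraMap F F₀).injective, fun y => ?_⟩
      have h6 : IntermediateField.adjoin N₀ {algebraMap K F₀ om} ≤
          (IsScalarTower.toAlgHom N₀ F F₀).fieldRange := by
        rw [adjoin_simple_le_iff]
        exact ⟨algebraMap K F om, (IsScalarTower.algebraMap_apply K F F₀ om).symm⟩
      rw [hgen] at h6
      obtain ⟨z, hz⟩ := h6 (mem_top (x := y))
      exact ⟨z, hz⟩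
    have h2' : finrank N₀ F₀ = 2 := by
      rw [← h2]
      exact (LinearEquiv.ofBijective (IsScalarTower.toAlgHom N₀ F F₀).toLinearMap hb).finrank_eq.symm
    exact TH.galois_two h2'

/-- **The unit property of the twist over `F₀ = N₀ K` from the quotient by the period.** -/
theorem unitT_quot (hE : EllK) {ℓ : ℕ} (hℓ : ℓ.Prime) (h5 : 5 ≤ ℓ) (hD : ¬ (ℓ : ℤ) ∣ CD.bad)
    {μ : 𝓞 K} (hμ : ¬ ℓ ∣ nAb μ)
    {N₀ F₀ G₀ : Type} [Field N₀] [NumberField N₀]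
    [Field F₀] [NumberField F₀] [Field G₀] [NumberField G₀] [Algebra N₀ F₀] [Algebra K F₀]
    [Algebra K G₀] [Algebra F₀ G₀] [IsScalarTower K F₀ G₀] [IsGalois K G₀] [IsGalois F₀ G₀]
    [DecidableEq G₀] {T : Pt G₀} (hT : AbT μ K T)
    (hN : IntermediateField.adjoin N₀ (Set.range (algebraMap K F₀)) = ⊤) {a b : N₀} {u : G₀}
    {θ : Gal(G₀/F₀) →* (𝓞 K)ˣ} (hs : ScD (algebraMap N₀ F₀ a) (algebraMap N₀ F₀ b) u θ) {g : 𝓞 K}
    (hg0 : g ≠ 0) (hg : gB μ ∣ g) (hgℓ : IsCoprime g (ℓ : 𝓞 K))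
    (hna : NaW ℓ g (cv (algebraMap N₀ F₀ a) (algebraMap N₀ F₀ b))) (hu : DS.UnrL ℓ F₀)
    (he : ¬ ℓ ∣ 2 ^ finrank K F₀ - 1) {h : ℂ → ℂ} (hd : Differentiable ℂ h)
    (hl : ∀ s : ℂ, 3 / 2 < s.re → h s = (cv a b : WeierstrassCurve N₀).LSeries s)
    {q : ℚ} (h1 : IsCoprime q.num (ℓ : ℤ)) (h2 : q.den.Coprime ℓ)
    (hq : h 1 * ((√|(discr N₀ : ℝ)| : ℝ) : ℂ) / ((period (cv a b) : ℝ) : ℂ) =
      ((q : ℚ) : ℂ)) : UnitT ℓ F₀ (psT F₀ T g θ) := by
  have hG : IsGalois N₀ F₀ := galois_NK hN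
  refine unitT_base hE hℓ h5 hT.mid hN hs hg0 hg hgℓ hna hu he hd hl fun A hA => ?_
  let aNG : Algebra N₀ G₀ := ((algebraMap F₀ G₀).comp (algebraMap N₀ F₀)).toAlgebra
  have ha : algebraMap N₀ G₀ a = (CD.A : G₀) * u ^ 4 := hs.ha
  have hb : algebraMap N₀ G₀ b = (CD.B : G₀) * u ^ 6 := hs.hb
  exact MP_1a91b9_nuE.val_quot (twC_of hs.ne ha hb) (W := cv a b) (D := 1) (one_smul _ _) hℓ hD
    (fun v hv => gdA_base hℓ hD hμ hT hs hu v hv)
    (PL.coprime_discr hℓ N₀ F₀ hu) h1 h2 hq hA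

end Pool.Agent.Lib.MP_1a91b9_nuZ
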