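import Pool.Agent.Lib.MP_1a91b9_nuY.BE.BaseU
import Pool.Agent.Lib.MP_1a91b9_nuZ.Ub
import Pool.Agent.Lib.MP_1a91b9_nuZ.Ab
import Pool.Agent.Lib.MP_1a91b9_nuZ.Cnt
import Pool.Agent.Lib.MP_1a91b9_nuE.Tk

/-!
# Twisted base: the towers for one prime number with explicit conditions
-/

set_option autoImplicit false

namespace Pool.Agent.Lib.MP_1a91b9_nuZ

open NumberField IsDedekindDomain WeierstrassCurve Module
open Pool.Agent.Lib.MP_1a91b9_nuT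
open Pool.Agent.Lib.MP_1a91b9_nt
open Pool.Agent.Lib.MP_1a91b9_nuX
open Pool.Agent.Lib.MP_1a91b9_nuX.DB Pool.Agent.Lib.MP_1a91b9_nuX.DG Pool.Agent.Lib.MP_1a91b9_nuX.GL
open Pool.Agent.Lib.MP_1a91b9_nuG (up)
open Pool.Agent.Lib.MP_1a91b9_nuX.PG (Gd)
open Pool.Agent.Lib.MP_1a91b9_nuX.TG
open Pool.Agent.Lib.MP_1a91b9_nuX.TH (NaW nG nG_ne gB_dvd_nG)
open Pool.Agent.Lib.MP_1a91b9_nuX.QW (ScD exists_theta)
open Pool.Agent.Lib.MP_1a91b9_nuW.TH (val_all)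
open Pool.Agent.Lib.MP_1a91b9_nuT.Per (cv)
open Pool.Agent.Lib.MP_1a91b9_nuT.S9 (period)
open Pool.Agent.Lib.MP_1a91b9_nuE (BadP exists_char cop_of_places absN_cop not_mem_int norm_place
  mem_mb dvd_mb)
open Pool.Agent.Lib.MP_1a91b9_nuY
open Pool.Agent.Lib.MP_1a91b9_nuY.TX (BaseY kth)
open Pool.Agent.Lib.MP_1a91b9_nuY.TF (TowT BaseT gy_of concl_subT)

/-- The conditions on the prime number `ℓ`; `e` is the degree of `F₀` over the field of complex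
multiplication, `q` is the normalised value of the L-function. -/
structure CndT (ℓ m : ℕ) (b : ℤ) (e : ℕ) (q : ℚ) {F₀ : Type} [Field F₀] [NumberField F₀]
    (α β : 𝓞 F₀) : Prop where
  prime : ℓ.Prime
  cop : ¬ (ℓ : ℤ) ∣ m * b
  sq : ∀ p : ℕ, p.Prime → (p : ℤ) ∣ m * b → ¬ ℓ ∣ p ^ 2 - 1
  e2 : ¬ ℓ ∣ 2 ^ e - 1
  num : IsCoprime q.num (ℓ : ℤ)
  den : q.den.Coprime ℓ
  pts : ∀ v : HeightOneSpectrum (𝓞 F₀),
    ((m * b : ℤ) : 𝓞 F₀) * (6 * (4 * α ^ 3 + 27 * β ^ 2)) ∈ v.asIdeal →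
    ∀ (V : WeierstrassCurve (𝓞 F₀)) (C : VariableChange F₀),
      C • (⟨0, 0, 0, (α : F₀), (β : F₀)⟩ : WeierstrassCurve F₀) =
        V.map (algebraMap (𝓞 F₀) F₀) → V.Δ ∉ v.asIdeal →
      ¬ ℓ ∣ Nat.card (V.map (Ideal.Quotient.mk v.asIdeal)).toAffine.Point

variable [CD] [HC] {N₀ F₀ L₀ : Type} [Field N₀] [NumberField N₀] [Field F₀] [NumberField F₀]
  [Algebra K F₀] [Algebra N₀ F₀] [Field L₀] [NumberField L₀] [Algebra K L₀] [Algebra F₀ L₀]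
  [IsScalarTower K F₀ L₀] [DecidableEq L₀]

/-- **The towers for one prime number** over the concrete field `K` for the curve of `CD`. -/
theorem towT_E (hE : EllK) (hN : IntermediateField.adjoin N₀ (Set.range (algebraMap K F₀)) = ⊤)
    {T₀ : Pt L₀} {m : ℕ} (hm : m ≠ 0) (hT₀ : m • T₀ = 0)
    (hgen : IntermediateField.adjoin K {xc T₀, yc T₀} = ⊤) {α β : 𝓞 N₀}
    (h0 : 4 * α ^ 3 + 27 * β ^ 2 ≠ 0) {u : L₀} (hu : u ≠ 0)
    (ha : algebraMap F₀ L₀ (algebraMap N₀ F₀ (α : N₀)) = (CD.A : L₀) * u ^ 4)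
    (hb : algebraMap F₀ L₀ (algebraMap N₀ F₀ (β : N₀)) = (CD.B : L₀) * u ^ 6)
    {b : ℤ} (hbad : BadP CD.bad b) {h : ℂ → ℂ} (hd : Differentiable ℂ h)
    (hl : ∀ s : ℂ, 3 / 2 < s.re →
      h s = (⟨0, 0, 0, (α : N₀), (β : N₀)⟩ : WeierstrassCurve N₀).LSeries s)
    {q : ℚ} (hq : h 1 * ((√|(discr N₀ : ℝ)| : ℝ) : ℂ) / ((period (⟨0, 0, 0, (α : N₀),
      (β : N₀)⟩ : WeierstrassCurve N₀) : ℝ) : ℂ) = ((q : ℚ) : ℂ)) {ℓ : ℕ}
    (hc : CndT ℓ m b (finrank K F₀) q (algebraMap (𝓞 N₀) (𝓞 F₀) α)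
      (algebraMap (𝓞 N₀) (𝓞 F₀) β)) :
    TowT ℓ (algebraMap (𝓞 N₀) (𝓞 F₀) α) (algebraMap (𝓞 N₀) (𝓞 F₀) β) ∧
      ¬ (ℓ : ℤ) ∣ discr F₀ ∧ ∀ v : HeightOneSpectrum (𝓞 F₀), (ℓ : 𝓞 F₀) ∈ v.asIdeal →
        Gd (cv ((algebraMap (𝓞 N₀) (𝓞 F₀) α : 𝓞 F₀) : F₀)
          ((algebraMap (𝓞 N₀) (𝓞 F₀) β : 𝓞 F₀) : F₀)) v := by
  classical
  obtain ⟨α', hα'⟩ : ∃ α', α' = algebraMap (𝓞 N₀) (𝓞 F₀) α := ⟨_, rfl⟩
  obtain ⟨β', hβ'⟩ : ∃ β', β' = algebraMap (𝓞 N₀) (𝓞 F₀) β := ⟨_, rfl⟩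
  have eα : algebraMap N₀ F₀ (α : N₀) = (α' : F₀) := by rw [hα']; rfl
  have eβ : algebraMap N₀ F₀ (β : N₀) = (β' : F₀) := by rw [hβ']; rfl
  have h0' : 4 * α' ^ 3 + 27 * β' ^ 2 ≠ 0 := by
    intro h
    apply h0
    apply FaithfulSMul.algebraMap_injective (𝓞 N₀) (𝓞 F₀)
    rw [map_zero, ← h, hα', hβ', map_add, map_mul, map_mul, map_pow, map_pow, map_ofNat,
      map_ofNat]
  rw [← hα', ← hβ'] at hc ⊢
  have hℓ := hc.prime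
  have hcop : ¬ (ℓ : ℤ) ∣ m * CD.bad := fun hd => hc.cop (dvd_mb hbad hℓ hd)
  have hD : ¬ (ℓ : ℤ) ∣ CD.bad := fun hd => hcop (hd.mul_left _)
  have hnm : ∀ {F : Type} [Field F] [NumberField F] (v : HeightOneSpectrum (𝓞 F)),
      ((m * CD.bad : ℤ) : 𝓞 F) ∈ v.asIdeal → (ℓ : 𝓞 F) ∉ v.asIdeal := by
    intro F _ _ v hv
    have h1 : IsCoprime (m * CD.bad : ℤ) (ℓ : ℤ) :=
      ((Nat.prime_iff_prime_int.1 hℓ).coprime_iff_not_dvd.2 hcop).symm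
    have h2 := not_mem_int v h1 hv
    rwa [Int.cast_natCast] at h2
  obtain ⟨μ, hM, hfD, hv, hμP, H, G, i1, i2, i3, i4, i5, i6, J, hAB0⟩ :=
    exists_abE L₀ hm hT₀ hgen
  let a1 : Algebra F₀ G := ((algebraMap L₀ G).comp (algebraMap F₀ L₀)).toAlgebra
  have t0 : IsScalarTower F₀ L₀ G := IsScalarTower.of_algebraMap_eq fun x => rfl
  have t1 : IsScalarTower K F₀ G := IsScalarTower.of_algebraMap_eq fun x => by
    rw [IsScalarTower.algebraMap_apply F₀ L₀ G, ← IsScalarTower.algebraMap_apply K F₀ L₀,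
      ← IsScalarTower.algebraMap_apply K L₀ G]
  have hgK : IsGalois K G := hAB0.gal
  have hgF : IsGalois F₀ G := IsGalois.tower_top_of_isGalois K F₀ G
  have hAB : AB H F₀ G J := ⟨hAB0.gal, hAB0.ne, hAB0.ord, hAB0.gen, hAB0.mem, hAB0.surj⟩
  have hTK : AbT μ K J := ⟨hAB.ne, hAB.ord, hAB.gen⟩
  have hTF : AbT μ F₀ J := hTK.mid
  have hu' : algebraMap L₀ G u ≠ 0 := by rwa [Ne, map_eq_zero]
  obtain ⟨θ, hs⟩ := exists_theta (N := F₀) (L := G) (a := algebraMap N₀ F₀ (α : N₀))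
    (b := algebraMap N₀ F₀ (β : N₀)) hu'
    (by rw [IsScalarTower.algebraMap_apply F₀ L₀ G, ha, map_mul, map_pow, map_intCast])
    (by rw [IsScalarTower.algebraMap_apply F₀ L₀ G, hb, map_mul, map_pow, map_intCast])
  have hs' := hs
  rw [eα, eβ] at hs'
  obtain ⟨g, hgdef⟩ : ∃ g, g = nG μ := ⟨_, rfl⟩
  have hg0 : g ≠ 0 := by
    rw [hgdef]
    exact nG_ne hAB.ne
  have hg0' : ((g : ℕ) : 𝓞 K) ≠ 0 := Nat.cast_ne_zero.2 hg0
  have hg : gB μ ∣ ((g : ℕ) : 𝓞 K) := by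
    rw [hgdef]
    exact gB_dvd_nG μ
  have hgv : ∀ {F : Type} [Field F] [NumberField F] (v : HeightOneSpectrum (𝓞 F)),
      ((g : ℕ) : 𝓞 F) ∈ v.asIdeal → ((m * CD.bad : ℤ) : 𝓞 F) ∈ v.asIdeal := by
    intro F _ _ v hv
    rw [hgdef] at hv
    exact nG_mem hAB.ne (Dvd.intro_left _ rfl) hμP v hv
  have hgℓ : IsCoprime ((g : ℕ) : 𝓞 K) (ℓ : 𝓞 K) :=
    cop_of_places hg0' fun P hP hPℓ => hnm P (hgv P hP) hPℓ
  have hgc : g.Coprime ℓ := by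
    rw [Nat.coprime_comm, Nat.Prime.coprime_iff_not_dvd hℓ]
    intro hd
    obtain ⟨x, y, hxy⟩ := hgℓ
    obtain ⟨c, hc'⟩ := hd
    have h2 : ((ℓ : ℕ) : 𝓞 K) ∣ 1 := by
      rw [← hxy, hc', Nat.cast_mul]
      exact dvd_add ((Dvd.intro _ rfl).mul_left _) (dvd_mul_left _ _)
    have h3 : IsUnit ((ℓ : ℕ) : 𝓞 K) := isUnit_of_dvd_one h2
    have h4 := Ideal.span_singleton_eq_top.2 h3
    have h5 : Ideal.absNorm (Ideal.span {((ℓ : ℕ) : 𝓞 K)}) = ℓ ^ 2 :=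
      MP_1a91b9_nuE.absNorm_natK ℓ
    rw [h4, Ideal.absNorm_top] at h5
    have := hℓ.two_le
    nlinarith
  have hμℓ : (Ideal.absNorm (Ideal.span {μ})).Coprime ℓ :=
    absN_cop (cop_of_places hAB.ne fun P hPμ => hnm P (hμP P hPμ))
  have hmu : ¬ ℓ ∣ nAb μ := fun hd => (Nat.Prime.coprime_iff_not_dvd hℓ).1 hμℓ.symm hd
  have hP1 : ∀ P : HeightOneSpectrum (𝓞 K), μ ∈ P.asIdeal →
      ¬ ℓ ∣ Ideal.absNorm P.asIdeal - 1 := by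
    intro P hPμ
    obtain ⟨p, hp, hpm, hpd⟩ := exists_char P
    have h3 := hc.sq p hp (dvd_mb hbad hp (hpd _ (hμP P hPμ)))
    rcases norm_place P hp hpm with h4 | h4
    · rw [h4]
      refine fun hd => h3 (hd.trans ?_)
      have h5 := Nat.sub_dvd_pow_sub_pow p 1 2
      rwa [one_pow] at h5
    · rw [h4]
      exact h3
  have hunr : DS.UnrL ℓ F₀ := unr_ab hTK hℓ hD hmu
  have hgb : ∀ v : HeightOneSpectrum (𝓞 K), ((g : ℕ) : 𝓞 K) ∈ v.asIdeal → μ ∈ v.asIdeal := by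
    rw [hgdef]
    exact nG_pl hfD hv
  have hpts : ∀ v : HeightOneSpectrum (𝓞 F₀), (up ((g : ℕ) : 𝓞 K) F₀ ∈ v.asIdeal ∨
      6 * (4 * α' ^ 3 + 27 * β' ^ 2) ∈ v.asIdeal) →
      ∀ (V : WeierstrassCurve (𝓞 F₀)) (C : VariableChange F₀),
        C • (cv (α' : F₀) (β' : F₀) : WeierstrassCurve F₀) =
          V.map (algebraMap (𝓞 F₀) F₀) → V.Δ ∉ v.asIdeal →
        ¬ ℓ ∣ Nat.card (V.map (Ideal.Quotient.mk v.asIdeal)).toAffine.Point := by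
    intro v hv V C hC hΔ
    refine hc.pts v ?_ V C hC hΔ
    rcases hv with h1 | h1
    · have e : up ((g : ℕ) : 𝓞 K) F₀ = ((g : ℕ) : 𝓞 F₀) :=
        map_natCast (algebraMap (𝓞 K) (𝓞 F₀)) _
      rw [e] at h1
      exact v.asIdeal.mul_mem_right _ (mem_mb hbad v (hgv v h1))
    · exact v.asIdeal.mul_mem_left _ h1
  have hna : NaW ℓ ((g : ℕ) : 𝓞 K) (cv (α' : F₀) (β' : F₀)) := fun w hw hgd =>
    hv_of_pts hE hℓ hTF hs' hg0' hg w hgd (hpts w (Or.inl hw))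
  have hU : UnitT ℓ F₀ (psT F₀ J ((g : ℕ) : 𝓞 K) θ) := by
    refine unitT_quot hE hℓ (five_le hℓ hD) hD hmu hTK hN hs hg0' hg hgℓ ?_ hunr hc.e2 hd hl
      hc.num hc.den hq
    rw [eα, eβ]
    exact hna
  have hBa := Pool.Agent.Lib.MP_1a91b9_nuY.BE.baseY_unit hE hAB hM hg0' hg hgb hs' hℓ hgℓ hP1
    hc.e2 hU hna
  have hF : Fact ℓ.Prime := ⟨hℓ⟩
  refine ⟨?_, PL.not_dvd_discr hℓ F₀ hunr, fun v hv => gd_out hTF hs' hg v fun hvg =>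
    not_ell hgℓ v hvg hv⟩
  have hbase : BaseT μ g ℓ J (α' : F₀) (β' : F₀) (algebraMap L₀ G u) θ :=
    { gal := hgK
      tor := hTK
      sc := hs'
      nz := by
        rintro ⟨h3, h4⟩
        apply h0'
        have h5 : α' = 0 := RingOfIntegers.ext h3
        have h6 : β' = 0 := RingOfIntegers.ext h4
        rw [h5, h6]
        simp
      gne := hg0
      gB := hg
      gl := hgc
      mu := hmu
      bad := hD
      val := val_all.{0} ℓ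
      naw := hna
      gy := fun F _ _ _ _ _ h => gy_of hs' hBa h }
  intro n N L M _ _ _ _ _ _ _ _ _ _ _ _ hM' hR W C hC
  let aKL : Algebra K L := ((algebraMap F₀ L).comp (algebraMap K F₀)).toAlgebra
  let aKM : Algebra K M := ((algebraMap F₀ M).comp (algebraMap K F₀)).toAlgebra
  have t3 : IsScalarTower K F₀ L := IsScalarTower.of_algebraMap_eq fun x => rfl
  have t4 : IsScalarTower K F₀ M := IsScalarTower.of_algebraMap_eq fun x => rfl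
  have hRF := ramF_pts hE hTF hg hs' hℓ (fun v hv => nac_of_pts hE hℓ hTF hs' hg0' hg v
    (hpts v hv)) (L := L) hR
  obtain ⟨r1, r2⟩ := concl_subT hE hbase L M n hM' hRF N W C hC
  exact ⟨r1, fun _ => r2⟩

end Pool.Agent.Lib.MP_1a91b9_nuZ
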