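import Pool.Agent.Lib.MP_1a91b9_nuZ.Main

/-!
# Twisted base: the towers for one prime number with explicit conditions, over a field `K₀`
-/

set_option autoImplicit false

namespace Pool.Agent.Lib.MP_1a91b9_nuZ

open NumberField IsDedekindDomain WeierstrassCurve Module
open Pool.Agent.Lib.MP_1a91b9_nuT
open Pool.Agent.Lib.MP_1a91b9_nt
open Pool.Agent.Lib.MP_1a91b9_nuX
open Pool.Agent.Lib.MP_1a91b9_nuX.DB Pool.Agent.Lib.MP_1a91b9_nuX.GL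
open Pool.Agent.Lib.MP_1a91b9_nuX.TG
open Pool.Agent.Lib.MP_1a91b9_nuT.S9 (period)
open Pool.Agent.Lib.MP_1a91b9_nuX.PG (Gd)
open Pool.Agent.Lib.MP_1a91b9_nuT.Per (cv)
open Pool.Agent.Lib.MP_1a91b9_nuE (BadP scale_torsm)
open Pool.Agent.Lib.MP_1a91b9_nuY
open Pool.Agent.Lib.MP_1a91b9_nuY.TF (TowT scale_iso)

variable [CD]

section
variable [HC] {N₀ F₀ L₀ : Type} [Field N₀] [NumberField N₀] [Field F₀] [NumberField F₀]
  [Algebra K F₀] [Algebra N₀ F₀] [Field L₀] [NumberField L₀] [Algebra K L₀] [Algebra F₀ L₀]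
  [IsScalarTower K F₀ L₀] [DecidableEq L₀]

/-- **The towers for one prime number** over the concrete field `K`. -/
theorem towT_K (hE : EllK) {A₀ B₀ k b : ℤ} (hk : k ≠ 0) (hA : CD.A = k ^ 4 * A₀)
    (hB : CD.B = k ^ 6 * B₀) (hbad : BadP CD.bad b)
    (hN : IntermediateField.adjoin N₀ (Set.range (algebraMap K F₀)) = ⊤) (x y : L₀)
    (hxy : (⟨0, 0, 0, ((A₀ : ℤ) : L₀), ((B₀ : ℤ) : L₀)⟩ :
      WeierstrassCurve L₀).toAffine.Nonsingular x y) {m : ℕ} (hm : m ≠ 0)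
    (ht : m • Affine.Point.some x y hxy = 0)
    (hL₀ : IntermediateField.adjoin K {x, y} = ⊤) {α β : 𝓞 N₀}
    (h0 : 4 * α ^ 3 + 27 * β ^ 2 ≠ 0) {C₀ : VariableChange L₀}
    (hC₀ : C₀ • (⟨0, 0, 0, algebraMap F₀ L₀ (algebraMap N₀ F₀ α),
      algebraMap F₀ L₀ (algebraMap N₀ F₀ β)⟩ : WeierstrassCurve L₀) =
        ⟨0, 0, 0, ((A₀ : ℤ) : L₀), ((B₀ : ℤ) : L₀)⟩)
    {h : ℂ → ℂ} (hd : Differentiable ℂ h) (hl : ∀ s : ℂ, 3 / 2 < s.re →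
      h s = (⟨0, 0, 0, (α : N₀), (β : N₀)⟩ : WeierstrassCurve N₀).LSeries s)
    {q : ℚ} (hq : h 1 * ((√|(discr N₀ : ℝ)| : ℝ) : ℂ) / ((period (⟨0, 0, 0, (α : N₀),
      (β : N₀)⟩ : WeierstrassCurve N₀) : ℝ) : ℂ) = ((q : ℚ) : ℂ)) {ℓ : ℕ}
    (hc : CndT ℓ m b (finrank K F₀) q (algebraMap (𝓞 N₀) (𝓞 F₀) α)
      (algebraMap (𝓞 N₀) (𝓞 F₀) β)) :
    TowT ℓ (algebraMap (𝓞 N₀) (𝓞 F₀) α) (algebraMap (𝓞 N₀) (𝓞 F₀) β) ∧
      ¬ (ℓ : ℤ) ∣ discr F₀ ∧ ∀ v : HeightOneSpectrum (𝓞 F₀), (ℓ : 𝓞 F₀) ∈ v.asIdeal →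
        Gd (cv ((algebraMap (𝓞 N₀) (𝓞 F₀) α : 𝓞 F₀) : F₀)
          ((algebraMap (𝓞 N₀) (𝓞 F₀) β : 𝓞 F₀) : F₀)) v := by
  obtain ⟨T, hT, hx, hy⟩ := scale_torsm hk hA hB x y hxy ht
  have hgen := scale_gen hk hx hy hL₀
  obtain ⟨h1, h2⟩ := scale_iso hC₀
  have hkL : (k : L₀) ≠ 0 := Int.cast_ne_zero.2 hk
  refine towT_E hE hN hm hT hgen h0 (u := (C₀.u : L₀) / k)
    (div_ne_zero C₀.u.ne_zero hkL) ?_ ?_ hbad hd hl hq hc
  · rw [h1, hA, div_pow]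
    push_cast
    field_simp
  · rw [h2, hB, div_pow]
    push_cast
    field_simp

end

/-- **The towers for one prime number.** -/
theorem towT_of [HC] (hE : EllK) (K₀ N₀ F₀ L₀ : Type) [Field K₀] [NumberField K₀]
    (hK : finrank ℚ K₀ = 2)
    {w : K₀} (hw : w ^ 2 = (CD.tr : K₀) * w - (CD.nm : K₀)) [Field N₀] [NumberField N₀] [Field F₀]
    [NumberField F₀] [Field L₀] [NumberField L₀] [DecidableEq L₀] [Algebra K₀ F₀] [Algebra N₀ F₀]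
    [Algebra K₀ L₀] [Algebra F₀ L₀] [IsScalarTower K₀ F₀ L₀] {A₀ B₀ k b : ℤ} (hk : k ≠ 0)
    (hA : CD.A = k ^ 4 * A₀) (hB : CD.B = k ^ 6 * B₀) (hbad : BadP CD.bad b)
    (hN : IntermediateField.adjoin N₀ (Set.range (algebraMap K₀ F₀)) = ⊤) (x y : L₀)
    (hxy : (⟨0, 0, 0, ((A₀ : ℤ) : L₀), ((B₀ : ℤ) : L₀)⟩ :
      WeierstrassCurve L₀).toAffine.Nonsingular x y) {m : ℕ} (hm : m ≠ 0)
    (ht : m • Affine.Point.some x y hxy = 0)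
    (hL₀ : IntermediateField.adjoin K₀ {x, y} = ⊤) {α β : 𝓞 N₀}
    (h0 : 4 * α ^ 3 + 27 * β ^ 2 ≠ 0) {C₀ : VariableChange L₀}
    (hC₀ : C₀ • (⟨0, 0, 0, algebraMap F₀ L₀ (algebraMap N₀ F₀ α),
      algebraMap F₀ L₀ (algebraMap N₀ F₀ β)⟩ : WeierstrassCurve L₀) =
        ⟨0, 0, 0, ((A₀ : ℤ) : L₀), ((B₀ : ℤ) : L₀)⟩)
    {h : ℂ → ℂ} (hd : Differentiable ℂ h) (hl : ∀ s : ℂ, 3 / 2 < s.re →
      h s = (⟨0, 0, 0, (α : N₀), (β : N₀)⟩ : WeierstrassCurve N₀).LSeries s)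
    {q : ℚ} (hq : h 1 * ((√|(discr N₀ : ℝ)| : ℝ) : ℂ) / ((period (⟨0, 0, 0, (α : N₀),
      (β : N₀)⟩ : WeierstrassCurve N₀) : ℝ) : ℂ) = ((q : ℚ) : ℂ)) {ℓ : ℕ}
    (hc : CndT ℓ m b (finrank K₀ F₀) q (algebraMap (𝓞 N₀) (𝓞 F₀) α)
      (algebraMap (𝓞 N₀) (𝓞 F₀) β)) :
    TowT ℓ (algebraMap (𝓞 N₀) (𝓞 F₀) α) (algebraMap (𝓞 N₀) (𝓞 F₀) β) ∧
      ¬ (ℓ : ℤ) ∣ discr F₀ ∧ ∀ v : HeightOneSpectrum (𝓞 F₀), (ℓ : 𝓞 F₀) ∈ v.asIdeal →
        Gd (cv ((algebraMap (𝓞 N₀) (𝓞 F₀) α : 𝓞 F₀) : F₀)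
          ((algebraMap (𝓞 N₀) (𝓞 F₀) β : 𝓞 F₀) : F₀)) v := by
  obtain ⟨e, he⟩ := MP_1a91b9_nuT3.S8.exists_equiv hK hw
  let aF : Algebra K F₀ := ((algebraMap K₀ F₀).comp e.toRingHom).toAlgebra
  let aL : Algebra K L₀ := ((algebraMap K₀ L₀).comp e.toRingHom).toAlgebra
  have hFe : ∀ x : K, algebraMap K F₀ x = algebraMap K₀ F₀ (e x) := fun x => rfl
  have hLe : ∀ x : K, algebraMap K L₀ x = algebraMap K₀ L₀ (e x) := fun x => rfl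
  have hst : IsScalarTower K F₀ L₀ := IsScalarTower.of_algebraMap_eq fun x => by
    rw [hLe, hFe]
    exact IsScalarTower.algebraMap_apply K₀ F₀ L₀ (e x)
  have hrange : Set.range (algebraMap K F₀) = Set.range (algebraMap K₀ F₀) := by
    ext z
    constructor
    · rintro ⟨u, rfl⟩
      exact ⟨e u, rfl⟩
    · rintro ⟨u, rfl⟩
      exact ⟨e.symm u, by rw [hFe, RingEquiv.apply_symm_apply]⟩
  have hgen : IntermediateField.adjoin K {x, y} = (⊤ : IntermediateField K L₀) := by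
    obtain ⟨A, hA⟩ : ∃ A : IntermediateField K L₀, A = IntermediateField.adjoin K {x, y} :=
      ⟨_, rfl⟩
    let B : IntermediateField K₀ L₀ := A.toSubfield.toIntermediateField fun z => by
      change algebraMap K₀ L₀ z ∈ A
      have h4 := A.algebraMap_mem (e.symm z)
      rwa [hLe, RingEquiv.apply_symm_apply] at h4
    have hB : B = ⊤ := by
      rw [eq_top_iff, ← hL₀, IntermediateField.adjoin_le_iff]
      intro z hz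
      change z ∈ A
      rw [hA]
      exact IntermediateField.subset_adjoin K {x, y} hz
    rw [← hA, eq_top_iff]
    intro z _
    have h4 : z ∈ B := by
      rw [hB]
      exact IntermediateField.mem_top
    exact h4
  have hfin : finrank K F₀ = finrank K₀ F₀ := by
    have h1 := finrank_mul_finrank ℚ K F₀
    have h2 := finrank_mul_finrank ℚ K₀ F₀
    rw [finrank_K] at h1
    rw [hK] at h2
    omega
  exact towT_K hE hk hA hB hbad (by rw [hrange]; exact hN) x y hxy hm ht hgen h0 hC₀ hd hl hq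
    (by rw [hfin]; exact hc)

end Pool.Agent.Lib.MP_1a91b9_nuZ
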