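import Pool.Agent.Lib.MP_1a91b9_nuZ.Mk
import Pool.Agent.Lib.MP_1a91b9_nuE.Tn
import Pool.Agent.Lib.MP_1a91b9_nuI.Fb.FamB
import Pool.Agent.Lib.MP_1a91b9_nuI.TopX

/-!
# Twisted base: the towers for one prime number with explicit conditions, the nine maximal orders
-/

set_option autoImplicit false

namespace Pool.Agent.Lib.MP_1a91b9_nuZ

open NumberField IsDedekindDomain Module WeierstrassCurve Pool.Agent.Lib.MP_1a91b9_nuT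
open Pool.Agent.Lib.MP_1a91b9_nuX
open Pool.Agent.Lib.MP_1a91b9_nuX.UF (jd jd_mem jd_disc jd_case)
open Pool.Agent.Lib.MP_1a91b9_nuW.UG (splt_of_sq)
open Pool.Agent.Lib.MP_1a91b9_nuI
open Pool.Agent.Lib.MP_1a91b9_nuT.S9 (period)
open Pool.Agent.Lib.MP_1a91b9_nuX.PG (Gd)
open Pool.Agent.Lib.MP_1a91b9_nuE (bE badP_bE BadP exists_cdE dvd_mb)

/-- **The towers for one prime number, the nine maximal orders.** -/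
theorem nineT (K₀ N₀ F₀ L₀ : Type) [Field K₀] [NumberField K₀] [Field N₀] [NumberField N₀]
    [Field F₀] [NumberField F₀] [Field L₀] [NumberField L₀] [DecidableEq L₀] [Algebra K₀ F₀]
    [Algebra N₀ F₀] [Algebra K₀ L₀] [Algebra F₀ L₀] [IsScalarTower K₀ F₀ L₀]
    (hK : finrank ℚ K₀ = 2) {J d A B : ℤ} (hJd : (J, d) ∈ nine)
    (hd : ∃ w : K₀, w ^ 2 = ((d : ℤ) : K₀)) (hAB : 4 * A ^ 3 + 27 * B ^ 2 ≠ 0)
    (hj : 6912 * A ^ 3 = J * (4 * A ^ 3 + 27 * B ^ 2))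
    (hN : IntermediateField.adjoin N₀ (Set.range (algebraMap K₀ F₀)) = ⊤) (x y : L₀)
    (hxy : (⟨0, 0, 0, ((A : ℤ) : L₀), ((B : ℤ) : L₀)⟩ :
      WeierstrassCurve L₀).toAffine.Nonsingular x y) {m : ℕ} (hm : m ≠ 0)
    (ht : m • Affine.Point.some x y hxy = 0)
    (hL₀ : IntermediateField.adjoin K₀ {x, y} = ⊤) {α β : 𝓞 N₀}
    (h0 : 4 * α ^ 3 + 27 * β ^ 2 ≠ 0) {C₀ : VariableChange L₀}
    (hC₀ : C₀ • (⟨0, 0, 0, algebraMap F₀ L₀ (algebraMap N₀ F₀ α),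
      algebraMap F₀ L₀ (algebraMap N₀ F₀ β)⟩ : WeierstrassCurve L₀) =
        ⟨0, 0, 0, ((A : ℤ) : L₀), ((B : ℤ) : L₀)⟩)
    {g : ℂ → ℂ} (hg : Differentiable ℂ g) (hgs : ∀ s : ℂ, 3 / 2 < s.re →
      g s = (⟨0, 0, 0, (α : N₀), (β : N₀)⟩ : WeierstrassCurve N₀).LSeries s)
    {q : ℚ} (hq : g 1 * ((√|(discr N₀ : ℝ)| : ℝ) : ℂ) / ((period (⟨0, 0, 0, (α : N₀),
      (β : N₀)⟩ : WeierstrassCurve N₀) : ℝ) : ℂ) = ((q : ℚ) : ℂ)) {ℓ : ℕ}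
    (h : CndT ℓ m (bE A B d) (finrank K₀ F₀) q (algebraMap (𝓞 N₀) (𝓞 F₀) α)
      (algebraMap (𝓞 N₀) (𝓞 F₀) β)) :
    TowB ℓ ∅ d (algebraMap (𝓞 N₀) (𝓞 F₀) α) (algebraMap (𝓞 N₀) (𝓞 F₀) β)
      (fun N _ _ W => Con1 N W ∧ Con2' ℓ N W) ∧ ¬ (ℓ : ℤ) ∣ discr F₀ ∧
      ∀ v : HeightOneSpectrum (𝓞 F₀), (ℓ : 𝓞 F₀) ∈ v.asIdeal →
        Gd (cv ((algebraMap (𝓞 N₀) (𝓞 F₀) α : 𝓞 F₀) : F₀)
          ((algebraMap (𝓞 N₀) (𝓞 F₀) β : 𝓞 F₀) : F₀)) v := by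
  have hJ : J ∈ UF.jList.map Prod.fst := jd_mem hJd
  obtain ⟨tr, nm, -, hg', hmem, u, hu, cd, -, hA, hB, hdvd, hbad, -, -, htr, hnm⟩ :=
    exists_cdE hAB hj hJ
  subst htr
  subst hnm
  have hdd : d = CD.tr ^ 2 - 4 * CD.nm := jd_disc hJd hmem
  have hcase := jd_case hmem
  have hE := HW.ellK_all hcase
  obtain ⟨f, p, hp⟩ := HW.hdat_all hcase
  let iH : HC := ⟨f, p, hp⟩
  obtain ⟨w, hw⟩ := hd
  have hw' : ((w + (CD.tr : K₀)) / 2) ^ 2 =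
      (CD.tr : K₀) * ((w + (CD.tr : K₀)) / 2) - (CD.nm : K₀) := by
    rw [hdd] at hw
    push_cast at hw
    linear_combination hw / 4
  have hbE : BadP CD.bad (bE A B d) := badP_bE hJd hmem hbad
  obtain ⟨hS, hnd⟩ := towT_of hE K₀ N₀ F₀ L₀ hK hw' (k := u) hu hA hB hbE hN x y hxy hm ht hL₀
    h0 hC₀ hg hgs hq h
  have hb : ¬ (ℓ : ℤ) ∣ CD.bad := fun h1 => h.cop (dvd_mb hbE h.prime (h1.mul_left _))
  refine ⟨?_, hnd⟩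
  intro n N L M _ _ _ _ _ _ _ _ _ _ _ _ hM hR W C hC
  obtain ⟨h1, h2⟩ := hS n N L M hM (fun v w hvw => ⟨fun hv => by
    refine splt_of_sq h.prime hb ?_
    have h1 := ((hR v w hvw).1 hv).2.2
    rwa [hdd] at h1, (hR v w hvw).2⟩) W C hC
  refine ⟨h1, fun hf g g1 g2 => ?_⟩
  obtain ⟨h3, h4, h5, h6, h7⟩ := h2 hf
  exact ⟨h3 g g1 fun s hs => g2 s (by linarith), h4, h5, h6, h7⟩

end Pool.Agent.Lib.MP_1a91b9_nuZ
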