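import Pool.Agent.Lib.MP_1a91b9_nuZ.Tt
import Pool.Agent.Lib.MP_1a91b9_nuI.Fb.NoT

/-!
# Twisted base: the towers with explicit conditions on the prime number, the final theorems
-/

set_option autoImplicit false

namespace Pool.Agent.Lib.MP_1a91b9_nuZ

open NumberField IsDedekindDomain WeierstrassCurve Module
open Pool.Agent.Lib.MP_1a91b9_nuI
open Pool.Agent.Lib.MP_1a91b9_nuT.S9 (period tam)
open Pool.Agent.Lib.MP_1a91b9_nuT3.S9 (ShaP FormulaQ)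
open Pool.Agent.Lib.MP_1a91b9_nuE (bE not_le_sq)

/-- the conditions in plain terms -/
theorem cndT_mk {ℓ m : ℕ} (hℓ : ℓ.Prime) {b : ℤ} {e : ℕ} {q : ℚ} {F₀ : Type} [Field F₀]
    [NumberField F₀] {α β : 𝓞 F₀}
    (h : ¬ (ℓ : ℤ) ∣ m * b ∧ (∀ p : ℕ, p.Prime → (p : ℤ) ∣ m * b → ¬ ℓ ∣ p ^ 2 - 1) ∧
      ¬ ℓ ∣ 2 ^ e - 1 ∧ ¬ (ℓ : ℤ) ∣ q.num ∧ ¬ ℓ ∣ q.den ∧
      ∀ v : HeightOneSpectrum (𝓞 F₀),
        ((m * b : ℤ) : 𝓞 F₀) * (6 * (4 * α ^ 3 + 27 * β ^ 2)) ∈ v.asIdeal →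
      ∀ (V : WeierstrassCurve (𝓞 F₀)) (D : VariableChange F₀),
        D • (⟨0, 0, 0, (α : F₀), (β : F₀)⟩ : WeierstrassCurve F₀) =
          V.map (algebraMap (𝓞 F₀) F₀) → V.Δ ∉ v.asIdeal →
        ¬ ℓ ∣ Nat.card (V.map (Ideal.Quotient.mk v.asIdeal)).toAffine.Point) :
    CndT ℓ m b e q α β := by
  obtain ⟨h1, h2, h3, h4, h5, h6⟩ := h
  exact ⟨hℓ, h1, h2, h3, ((Nat.prime_iff_prime_int.1 hℓ).coprime_iff_not_dvd.2 h4).symm,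
    ((Nat.Prime.coprime_iff_not_dvd hℓ).2 h5).symm, h6⟩

theorem exists_not_mem (S : Finset ℕ) : ∃ ℓ : ℕ, ℓ.Prime ∧ ℓ ∉ S := by
  obtain ⟨p, hp1, hp2⟩ := Nat.exists_infinite_primes (S.sup id + 1)
  refine ⟨p, hp2, fun h => ?_⟩
  have := Finset.le_sup (f := id) h
  simp only [id] at this
  omega

/-- the conclusion for the curve over `N₀` -/
theorem towB_base {N₀ F₀ : Type} [Field N₀] [NumberField N₀] [Field F₀] [NumberField F₀]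
    [Algebra N₀ F₀] {ℓ : ℕ} {d : ℤ} (α β : 𝓞 N₀)
    {Q : ∀ (N : Type) [Field N] [NumberField N], WeierstrassCurve N → Prop}
    (H : TowB ℓ ∅ d (algebraMap (𝓞 N₀) (𝓞 F₀) α) (algebraMap (𝓞 N₀) (𝓞 F₀) β) Q) :
    Q N₀ (⟨0, 0, 0, (α : N₀), (β : N₀)⟩ : WeierstrassCurve N₀) :=
  H 0 N₀ F₀ F₀ (by rw [finrank_self, pow_zero]) (fun v w hvw => (not_le_sq v w hvw).elim) _ 1
    (by
      rw [one_smul]
      exact cv_map _ _ _)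

section
variable (K N₀ F₀ L₀ : Type) [Field K] [NumberField K] [Field N₀] [NumberField N₀]
    [Field F₀] [NumberField F₀] [Field L₀] [NumberField L₀] [DecidableEq L₀] [Algebra K F₀]
    [Algebra N₀ F₀] [Algebra K L₀] [Algebra F₀ L₀] [IsScalarTower K F₀ L₀]
    (hK : finrank ℚ K = 2) {J d A B : ℤ} (hJ : (J, d) ∈ thirteen)
    (hd : ∃ w : K, w ^ 2 = ((d : ℤ) : K)) (hAB : 4 * A ^ 3 + 27 * B ^ 2 ≠ 0)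
    (hj : 6912 * A ^ 3 = J * (4 * A ^ 3 + 27 * B ^ 2))
    (hN : IntermediateField.adjoin N₀ (Set.range (algebraMap K F₀)) = ⊤) (x y : L₀)
    (hxy : (⟨0, 0, 0, ((A : ℤ) : L₀), ((B : ℤ) : L₀)⟩ :
      WeierstrassCurve L₀).toAffine.Nonsingular x y) {m : ℕ} (hm : m ≠ 0)
    (ht : m • Affine.Point.some x y hxy = 0)
    (hL₀ : IntermediateField.adjoin K {x, y} = ⊤) {α β : 𝓞 N₀}
    (h0 : 4 * α ^ 3 + 27 * β ^ 2 ≠ 0) {C₀ : VariableChange L₀}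
    (hC₀ : C₀ • (⟨0, 0, 0, algebraMap F₀ L₀ (algebraMap N₀ F₀ α),
      algebraMap F₀ L₀ (algebraMap N₀ F₀ β)⟩ : WeierstrassCurve L₀) =
        ⟨0, 0, 0, ((A : ℤ) : L₀), ((B : ℤ) : L₀)⟩)

include hJ hK hd hAB hj hN hm ht hL₀ h0 hC₀

/-- **The normalised value of the L-function is a rational number.** -/
theorem exists_ratT {g : ℂ → ℂ} (hg : Differentiable ℂ g) (hgs : ∀ s : ℂ, 3 / 2 < s.re →
      g s = (⟨0, 0, 0, (α : N₀), (β : N₀)⟩ : WeierstrassCurve N₀).LSeries s)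
    (hg1 : g 1 ≠ 0) :
    ∃ q : ℚ, q ≠ 0 ∧ g 1 * ((√|(discr N₀ : ℝ)| : ℝ) : ℂ) / ((period (⟨0, 0, 0, (α : N₀),
      (β : N₀)⟩ : WeierstrassCurve N₀) : ℝ) : ℂ) = ((q : ℚ) : ℂ) := by
  have htor : Tor (⟨0, 0, 0, ((A : ℤ) : L₀), ((B : ℤ) : L₀)⟩ : WeierstrassCurve L₀) x y :=
    ⟨hxy, isOfFinAddOrder_iff_nsmul_eq_zero.2 ⟨m, Nat.pos_of_ne_zero hm, ht⟩⟩
  obtain ⟨S, -, -, hS⟩ := topZ2 A B J d hAB hj hJ K N₀ F₀ L₀ hK hd hN x y htor hL₀ α β h0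
    ⟨C₀, hC₀⟩ (fun _ => ⟨g, hg, hgs, hg1⟩)
  obtain ⟨ℓ, hℓ, hℓS⟩ := exists_not_mem S
  have h1 := towB_base α β (hS ℓ hℓ hℓS)
  obtain ⟨⟨q, hq1, hq2, hq⟩, hs, ht, hf, hc⟩ := h1 (Fact.mk hℓ) g hg hgs
  obtain ⟨t, htt⟩ : ∃ t : ℕ, t = ∏ᶠ v : HeightOneSpectrum (𝓞 N₀), tam (⟨0, 0, 0, (α : N₀),
    (β : N₀)⟩ : WeierstrassCurve N₀) v := ⟨_, rfl⟩
  have htc : t.Coprime ℓ := by
    rw [htt]
    exact finprod_induction (p := fun n : ℕ => n.Coprime ℓ) (Nat.coprime_one_left ℓ)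
      (fun _ _ => Nat.Coprime.mul_left) ht
  have nz : ∀ m : ℕ, m.Coprime ℓ → m ≠ 0 := by
    rintro m hm rfl
    rw [Nat.coprime_zero_left] at hm
    exact hℓ.one_lt.ne' hm
  have hq0 : q ≠ 0 := by
    rintro rfl
    rw [Rat.num_zero, isCoprime_zero_left] at hq1
    have h4 := Int.isUnit_iff.1 hq1
    have h5 := hℓ.one_lt
    omega
  obtain ⟨c, hcc⟩ : ∃ c : ℕ, c = Nat.card (⟨0, 0, 0, (α : N₀), (β : N₀)⟩ :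
    WeierstrassCurve N₀).toAffine.Point := ⟨_, rfl⟩
  rw [← hcc] at hc
  have ht0 : (t : ℚ) ≠ 0 := Nat.cast_ne_zero.2 (nz t htc)
  have hc0 : (c : ℚ) ≠ 0 := Nat.cast_ne_zero.2 (nz c hc)
  refine ⟨q * (t / c ^ 2), mul_ne_zero hq0 (div_ne_zero ht0 (pow_ne_zero 2 hc0)), ?_⟩
  rw [hq, hs, ← htt, ← hcc]
  push_cast
  ring

variable (hg : ¬ (((α = 0 ∧ β = 16) ∨ (α = -480 ∧ β = 4048)) ∧ finrank K F₀ = 1) →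
      Lne (⟨0, 0, 0, (α : N₀), (β : N₀)⟩ : WeierstrassCurve N₀))

include hg

/-- the data over the base field -/
theorem base_T :
    ∃ (g : ℂ → ℂ) (q : ℚ), Differentiable ℂ g ∧ (∀ s : ℂ, 3 / 2 < s.re →
      g s = (⟨0, 0, 0, (α : N₀), (β : N₀)⟩ : WeierstrassCurve N₀).LSeries s) ∧
      q ≠ 0 ∧ g 1 * ((√|(discr N₀ : ℝ)| : ℝ) : ℂ) / ((period (⟨0, 0, 0, (α : N₀),
        (β : N₀)⟩ : WeierstrassCurve N₀) : ℝ) : ℂ) = ((q : ℚ) : ℂ) ∧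
      ∀ ℓ : ℕ, CndT ℓ m (bE A B d) (finrank K F₀) q (algebraMap (𝓞 N₀) (𝓞 F₀) α)
        (algebraMap (𝓞 N₀) (𝓞 F₀) β) →
        TowB ℓ ∅ d (algebraMap (𝓞 N₀) (𝓞 F₀) α) (algebraMap (𝓞 N₀) (𝓞 F₀) β)
          (fun N _ _ W => Con1 N W ∧ Con2' ℓ N W) := by
  have htor : Tor (⟨0, 0, 0, ((A : ℤ) : L₀), ((B : ℤ) : L₀)⟩ : WeierstrassCurve L₀) x y :=
    ⟨hxy, isOfFinAddOrder_iff_nsmul_eq_zero.2 ⟨m, Nat.pos_of_ne_zero hm, ht⟩⟩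
  obtain ⟨S, -, -, hS⟩ := topZ1 A B J d hAB hj hJ K N₀ F₀ L₀ hK hd hN x y htor hL₀ α β h0
    ⟨C₀, hC₀⟩ hg
  obtain ⟨ℓ₀, hℓ₀, hℓ₀S⟩ := exists_not_mem S
  obtain ⟨⟨g, hg, hgs, hg1⟩, -⟩ := towB_base α β (hS ℓ₀ hℓ₀ hℓ₀S)
  obtain ⟨q, hq0, hq⟩ := exists_ratT K N₀ F₀ L₀ hK hJ hd hAB hj hN x y hxy hm ht hL₀ h0 hC₀ hg
    hgs hg1
  exact ⟨g, q, hg, hgs, hq0, hq, fun ℓ hc =>
    topT K N₀ F₀ L₀ hK hJ hd hAB hj hN x y hxy hm ht hL₀ h0 hC₀ hg hgs hq hc⟩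

/-- **The final theorem, first question.** -/
theorem topTE1 :
    ∃ (g : ℂ → ℂ) (q : ℚ), Differentiable ℂ g ∧ (∀ s : ℂ, 3 / 2 < s.re →
      g s = (⟨0, 0, 0, (α : N₀), (β : N₀)⟩ : WeierstrassCurve N₀).LSeries s) ∧
      q ≠ 0 ∧ g 1 * ((√|(discr N₀ : ℝ)| : ℝ) : ℂ) / ((period (⟨0, 0, 0, (α : N₀),
        (β : N₀)⟩ : WeierstrassCurve N₀) : ℝ) : ℂ) = ((q : ℚ) : ℂ) ∧
      ∀ ℓ : ℕ, ℓ.Prime →
        ((((α = 0 ∧ β = 16) ∨ (α = -480 ∧ β = 4048)) ∧ finrank K F₀ = 1 ∧ ℓ ≠ 3) ∨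
          CndT ℓ m (bE A B d) (finrank K F₀) q (algebraMap (𝓞 N₀) (𝓞 F₀) α)
            (algebraMap (𝓞 N₀) (𝓞 F₀) β)) →
        TowB ℓ ∅ d (algebraMap (𝓞 N₀) (𝓞 F₀) α) (algebraMap (𝓞 N₀) (𝓞 F₀) β) Con1 := by
  obtain ⟨g, q, h1, h2, h3, h4, h5⟩ := base_T K N₀ F₀ L₀ hK hJ hd hAB hj hN x y hxy hm ht hL₀ h0
    hC₀ hg
  refine ⟨g, q, h1, h2, h3, h4, fun ℓ hℓ h => ?_⟩
  rcases h with ⟨hs, h1, hℓS⟩ | hc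
  · have htor : Tor (⟨0, 0, 0, ((A : ℤ) : L₀), ((B : ℤ) : L₀)⟩ : WeierstrassCurve L₀) x y :=
      ⟨hxy, isOfFinAddOrder_iff_nsmul_eq_zero.2 ⟨m, Nat.pos_of_ne_zero hm, ht⟩⟩
    obtain ⟨S, hS1, hS2, hS⟩ := topZ1 A B J d hAB hj hJ K N₀ F₀ L₀ hK hd hN x y htor hL₀ α β h0
      ⟨C₀, hC₀⟩ hg
    refine hS ℓ hℓ ?_
    rcases hs with hs | hs
    · rw [hS1 ⟨hs.1, hs.2, h1⟩, Finset.mem_singleton]
      exact hℓS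
    · rw [hS2 ⟨hs.1, hs.2, h1⟩, Finset.mem_singleton]
      exact hℓS
  · intro n N L M _ _ _ _ _ _ _ _ _ _ _ _ hM hR W C hC
    exact (h5 ℓ hc n N L M hM hR W C hC).1

/-- **The final theorem, second question.** -/
theorem topTE2 :
    ∃ (g : ℂ → ℂ) (q : ℚ), Differentiable ℂ g ∧ (∀ s : ℂ, 3 / 2 < s.re →
      g s = (⟨0, 0, 0, (α : N₀), (β : N₀)⟩ : WeierstrassCurve N₀).LSeries s) ∧
      q ≠ 0 ∧ g 1 * ((√|(discr N₀ : ℝ)| : ℝ) : ℂ) / ((period (⟨0, 0, 0, (α : N₀),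
        (β : N₀)⟩ : WeierstrassCurve N₀) : ℝ) : ℂ) = ((q : ℚ) : ℂ) ∧
      ∀ ℓ : ℕ, ℓ.Prime →
        ((((α = 0 ∧ β = 16) ∨ (α = -480 ∧ β = 4048)) ∧ finrank K F₀ = 1 ∧ ℓ ≠ 3 ∧
            (ℓ = 2 → α = 0)) ∨
          CndT ℓ m (bE A B d) (finrank K F₀) q (algebraMap (𝓞 N₀) (𝓞 F₀) α)
            (algebraMap (𝓞 N₀) (𝓞 F₀) β)) →
        TowB ℓ ∅ d (algebraMap (𝓞 N₀) (𝓞 F₀) α) (algebraMap (𝓞 N₀) (𝓞 F₀) β) (Con2' ℓ) := by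
  obtain ⟨g, q, h1, h2, h3, h4, h5⟩ := base_T K N₀ F₀ L₀ hK hJ hd hAB hj hN x y hxy hm ht hL₀ h0
    hC₀ hg
  refine ⟨g, q, h1, h2, h3, h4, fun ℓ hℓ h => ?_⟩
  rcases h with ⟨hs, h1, hℓS, hℓ2⟩ | hc
  · have htor : Tor (⟨0, 0, 0, ((A : ℤ) : L₀), ((B : ℤ) : L₀)⟩ : WeierstrassCurve L₀) x y :=
      ⟨hxy, isOfFinAddOrder_iff_nsmul_eq_zero.2 ⟨m, Nat.pos_of_ne_zero hm, ht⟩⟩
    obtain ⟨S, hS1, hS2, hS⟩ := topZ2 A B J d hAB hj hJ K N₀ F₀ L₀ hK hd hN x y htor hL₀ α β h0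
      ⟨C₀, hC₀⟩ hg
    refine hS ℓ hℓ ?_
    rcases hs with hs | hs
    · rw [hS1 ⟨hs.1, hs.2, h1⟩, Finset.mem_singleton]
      exact hℓS
    · rw [hS2 ⟨hs.1, hs.2, h1⟩, Finset.mem_insert, Finset.mem_singleton, not_or]
      refine ⟨fun h => ?_, hℓS⟩
      have h5 := hℓ2 h
      rw [hs.1] at h5
      have h6 := congrArg (algebraMap (𝓞 N₀) N₀) h5
      simp only [map_zero, map_neg, map_ofNat] at h6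
      norm_num at h6
  · intro n N L M _ _ _ _ _ _ _ _ _ _ _ _ hM hR W C hC
    exact (h5 ℓ hc n N L M hM hR W C hC).2

end

end Pool.Agent.Lib.MP_1a91b9_nuZ
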