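import Pool.Agent.Lib.MP_1a91b9_nuZ.Ft
import Pool.Agent.Lib.MP_1a91b9_nuE.TopE

/-!
# Twisted base: the towers with explicit conditions on the prime number, for the thirteen orders
-/

set_option autoImplicit false

namespace Pool.Agent.Lib.MP_1a91b9_nuZ

open NumberField IsDedekindDomain WeierstrassCurve Module
open Pool.Agent.Lib.MP_1a91b9_nuI
open Pool.Agent.Lib.MP_1a91b9_nuT.S9 (period)
open Pool.Agent.Lib.MP_1a91b9_nuX.PG (Gd)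
open Pool.Agent.Lib.MP_1a91b9_nuE (bE four_tors)

section
variable {a' b' a b : ℤ} {n : ℕ} {j' j d : ℤ}

/-- the conclusion for the two questions -/
theorem four_conT [Pool.Agent.Lib.MP_1a91b9_nuT.CD] (h : Four a' b' a b n j' j d) {ℓ : ℕ}
    (hℓ : ℓ.Prime) (h5 : 5 ≤ ℓ) {F₀ : Type} [Field F₀] [NumberField F₀] (α β δ : 𝓞 F₀) (k : ℤ)
    (hk : k ≠ 0) (hδ : δ ≠ 0)
    (e1 : α * (k : 𝓞 F₀) ^ 2 = (a' : 𝓞 F₀) * δ ^ 2)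
    (e2 : β * (k : 𝓞 F₀) ^ 3 = (b' : 𝓞 F₀) * δ ^ 3)
    (e3 : (4 * a' ^ 3 + 27 * b' ^ 2) ∣ (6 * k) ^ 8) (hgd : ¬ (ℓ : ℤ) ∣ discr F₀)
    (hG : ∀ v : HeightOneSpectrum (𝓞 F₀), (ℓ : 𝓞 F₀) ∈ v.asIdeal →
      Gd (cv (((a : 𝓞 F₀) * (δ * (k : 𝓞 F₀)) ^ 2 : 𝓞 F₀) : F₀)
        (((b : 𝓞 F₀) * (δ * (k : 𝓞 F₀)) ^ 3 : 𝓞 F₀) : F₀)) v)
    (H : TowB ℓ ∅ d ((a : 𝓞 F₀) * (δ * (k : 𝓞 F₀)) ^ 2) ((b : 𝓞 F₀) * (δ * (k : 𝓞 F₀)) ^ 3)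
      (fun N _ _ W => Con1 N W ∧ Con2' ℓ N W)) :
    TowB ℓ ∅ d α β (fun N _ _ W => Con1 N W ∧ Con2' ℓ N W) := by
  refine towM h α β δ k hk hδ e1 e2 e3 _ _ ?_ H
  intro m N L M _ _ _ _ _ _ _ _ _ _ _ _ hM W D hD hW hW' hQ
  refine ⟨h.q1 N W D hD hW hQ.1, fun hf => ?_⟩
  obtain ⟨C₂, hC₂⟩ := hW'
  refine h.q2g h5 N W D hD hW (fun v hv => ?_) (hQ.2 hf)
  refine good_tower_c (L := L) (M := M) hℓ h5 hM (not_mem_sq hℓ hgd) (h.jeq D) (fun w hw => ?_) v hv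
  have hw' : (ℓ : 𝓞 F₀) ∈ (w.under (𝓞 F₀)).asIdeal := by
    change algebraMap (𝓞 F₀) (𝓞 L) (ℓ : 𝓞 F₀) ∈ w.asIdeal
    rwa [map_natCast]
  obtain ⟨V, C, hC, hΔ⟩ := model_four h α β δ k hk e1 e2 (w.under (𝓞 F₀)) (hG _ hw')
  have h2 : (2 : 𝓞 L) ∉ w.asIdeal := by
    have h3 : ¬ (ℓ : ℤ) ∣ 2 := by
      intro h4
      have h6 := Int.le_of_dvd two_pos h4
      omega
    exact_mod_cast int_not_mem hℓ w hw h3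
  obtain ⟨a₁, b₁, C₃, hC₃, hv₃⟩ := model_up (L := L) hC hΔ h2
  refine ⟨a₁, b₁, C₃ * C₂, ?_, hv₃⟩
  rw [mul_smul, hC₂]
  exact hC₃

end

/-- **The theorem with explicit conditions on the prime number, for the thirteen orders.** -/
theorem topT (K N₀ F₀ L₀ : Type) [Field K] [NumberField K] [Field N₀] [NumberField N₀]
    [Field F₀] [NumberField F₀] [Field L₀] [NumberField L₀] [DecidableEq L₀] [Algebra K F₀]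
    [Algebra N₀ F₀] [Algebra K L₀] [Algebra F₀ L₀] [IsScalarTower K F₀ L₀]
    (hK : finrank ℚ K = 2) {J d A B : ℤ} (hJ : (J, d) ∈ thirteen)
    (hd : ∃ w : K, w ^ 2 = ((d : ℤ) : K)) (hAB : 4 * A ^ 3 + 27 * B ^ 2 ≠ 0)
    (hj : 6912 * A ^ 3 = J * (4 * A ^ 3 + 27 * B ^ 2))
    (hN : IntermediateField.adjoin N₀ (Set.range (algebraMap K F₀)) = ⊤) (x y : L₀)
    (hxy : (⟨0, 0, 0, ((A : ℤ) : L₀), ((B : ℤ) : L₀)⟩ :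
      WeierstrassCurve L₀).toAffine.Nonsingular x y) {m : ℕ} (hm : m ≠ 0)
    (ht : m • Affine.Point.some x y hxy = 0)
    (hL₀ : IntermediateField.adjoin K {x, y} = ⊤) {α β : 𝓞 N₀}
    (h0 : 4 * α ^ 3 + 27 * β ^ 2 ≠ 0) {C₀ : VariableChange L₀}
    (hC₀ : C₀ • (⟨0, 0, 0, algebraMap F₀ L₀ (algebraMap N₀ F₀ α),
      algebraMap F₀ L₀ (algebraMap N₀ F₀ β)⟩ : WeierstrassCurve L₀) =
        ⟨0, 0, 0, ((A : ℤ) : L₀), ((B : ℤ) : L₀)⟩)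
    {g : ℂ → ℂ} (hg : Differentiable ℂ g) (hgs : ∀ s : ℂ, 3 / 2 < s.re →
      g s = (⟨0, 0, 0, (α : N₀), (β : N₀)⟩ : WeierstrassCurve N₀).LSeries s)
    {q : ℚ} (hq : g 1 * ((√|(discr N₀ : ℝ)| : ℝ) : ℂ) / ((period (⟨0, 0, 0, (α : N₀),
      (β : N₀)⟩ : WeierstrassCurve N₀) : ℝ) : ℂ) = ((q : ℚ) : ℂ)) {ℓ : ℕ}
    (h : CndT ℓ m (bE A B d) (finrank K F₀) q (algebraMap (𝓞 N₀) (𝓞 F₀) α)
      (algebraMap (𝓞 N₀) (𝓞 F₀) β)) :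
    TowB ℓ ∅ d (algebraMap (𝓞 N₀) (𝓞 F₀) α) (algebraMap (𝓞 N₀) (𝓞 F₀) β)
      (fun N _ _ W => Con1 N W ∧ Con2' ℓ N W) := by
  rcases thirteen_cases hJ with h9 | ⟨a', b', a, b, n, j, H⟩
  · exact (nineT K N₀ F₀ L₀ hK h9 hd hAB hj hN x y hxy hm ht hL₀ h0 hC₀ hg hgs hq h).1
  obtain ⟨D₀, hD₀, rfl, rfl⟩ := H.int A B hAB hj
  obtain ⟨L, i1, i2, i3, i4, φ, x₁, y₁, hxy₁, ht₁, hgen₁⟩ := four_tors H D₀ hD₀ x y hxy ht hL₀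
  have i5 : NumberField L := NumberField.of_module_finite K L
  let aFL : Algebra F₀ L := ((φ : L₀ →+* L).comp (algebraMap F₀ L₀)).toAlgebra
  have i6 : IsScalarTower K F₀ L := by
    refine IsScalarTower.of_algebraMap_eq fun k => ?_
    show algebraMap K L k = φ (algebraMap F₀ L₀ (algebraMap K F₀ k))
    rw [← IsScalarTower.algebraMap_apply K F₀ L₀]
    exact (φ.commutes k).symm
  obtain ⟨_, _, _, _, _, _, cd, _⟩ := Pool.Agent.Lib.MP_1a91b9_nuX.UF.exists_cd (A := 0) (B := 1)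
    (J := 0) (by norm_num) (by norm_num) (by simp [Pool.Agent.Lib.MP_1a91b9_nuX.UF.jList]) 1
    one_ne_zero
  let aNL : Algebra N₀ L₀ := ((algebraMap F₀ L₀).comp (algebraMap N₀ F₀)).toAlgebra
  have hDL : (D₀ : L₀) ≠ 0 := by exact_mod_cast hD₀
  have hC₁ : C₀ • (cv (algebraMap (𝓞 N₀) N₀ α) (algebraMap (𝓞 N₀) N₀ β)).baseChange L₀ =
      cv (a' * (D₀ : L₀) ^ 2) (b' * (D₀ : L₀) ^ 3) := by
    rw [WeierstrassCurve.baseChange, cv_map]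
    refine Eq.trans hC₀ ?_
    push_cast
    rfl
  obtain ⟨D, hD, hα, hβ, C₂, hC₂⟩ := H.clsB _ _ C₀ (D₀ : L₀) hDL hC₁
  obtain ⟨k, hkdef⟩ : ∃ k : ℤ, k = ((Int.gcd a' b' : ℕ) : ℤ) := ⟨_, rfl⟩
  obtain ⟨hkd, hk8, hdd⟩ := four_gcd H
  have hk := four_gcd_ne H
  obtain ⟨δ, hδ⟩ := four_int α β D hα hβ
  rw [← hkdef] at hkd hk8 hk hδ
  have hkN : (k : N₀) ≠ 0 := by exact_mod_cast hk
  have hδ0 : δ ≠ 0 := by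
    rintro rfl
    rw [map_zero] at hδ
    exact mul_ne_zero hD hkN hδ.symm
  have hinj := FaithfulSMul.algebraMap_injective (𝓞 N₀) N₀
  have hinj' := FaithfulSMul.algebraMap_injective (𝓞 N₀) (𝓞 F₀)
  have e1 : α * (k : 𝓞 N₀) ^ 2 = (a' : 𝓞 N₀) * δ ^ 2 := by
    apply hinj
    simp only [map_mul, map_pow, map_intCast, hδ, hα]
    ring
  have e2 : β * (k : 𝓞 N₀) ^ 3 = (b' : 𝓞 N₀) * δ ^ 3 := by
    apply hinj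
    simp only [map_mul, map_pow, map_intCast, hδ, hβ]
    ring
  have hne : 4 * ((a : 𝓞 N₀) * (δ * (k : 𝓞 N₀)) ^ 2) ^ 3 +
      27 * ((b : 𝓞 N₀) * (δ * (k : 𝓞 N₀)) ^ 3) ^ 2 ≠ 0 := by
    have e : 4 * ((a : 𝓞 N₀) * (δ * (k : 𝓞 N₀)) ^ 2) ^ 3 +
        27 * ((b : 𝓞 N₀) * (δ * (k : 𝓞 N₀)) ^ 3) ^ 2 =
        ((4 * (a * 1 ^ 2) ^ 3 + 27 * (b * 1 ^ 3) ^ 2 : ℤ) : 𝓞 N₀) *
          (δ * (k : 𝓞 N₀)) ^ 6 := by
      push_cast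
      ring
    rw [e]
    have hk0 : (k : 𝓞 N₀) ≠ 0 := by exact_mod_cast hk
    exact mul_ne_zero (by exact_mod_cast H.discV 1 one_ne_zero)
      (pow_ne_zero 6 (mul_ne_zero hδ0 hk0))
  have hkL₀ : (k : L₀) ≠ 0 := by exact_mod_cast hk
  have key1 : ∃ C : VariableChange L, C • (⟨0, 0, 0, algebraMap F₀ L (algebraMap N₀ F₀
      (((a : 𝓞 N₀) * (δ * (k : 𝓞 N₀)) ^ 2 : 𝓞 N₀) : N₀)), algebraMap F₀ L (algebraMap N₀ F₀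
      (((b : 𝓞 N₀) * (δ * (k : 𝓞 N₀)) ^ 3 : 𝓞 N₀) : N₀))⟩ : WeierstrassCurve L) =
        ⟨0, 0, 0, ((a * D₀ ^ 2 : ℤ) : L), ((b * D₀ ^ 3 : ℤ) : L)⟩ := by
    refine ⟨(C₂ * (⟨Units.mk0 (k : L₀) hkL₀, 0, 0, 0⟩ : VariableChange L₀)).map (φ : L₀ →+* L), ?_⟩
    have e4 : (⟨0, 0, 0, algebraMap F₀ L (algebraMap N₀ F₀
          (((a : 𝓞 N₀) * (δ * (k : 𝓞 N₀)) ^ 2 : 𝓞 N₀) : N₀)), algebraMap F₀ L (algebraMap N₀ F₀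
          (((b : 𝓞 N₀) * (δ * (k : 𝓞 N₀)) ^ 3 : 𝓞 N₀) : N₀))⟩ : WeierstrassCurve L) =
        (cv (algebraMap N₀ L₀ (algebraMap (𝓞 N₀) N₀ ((a : 𝓞 N₀) * (δ * (k : 𝓞 N₀)) ^ 2)))
          (algebraMap N₀ L₀ (algebraMap (𝓞 N₀) N₀ ((b : 𝓞 N₀) * (δ * (k : 𝓞 N₀)) ^ 3)))).map
          (φ : L₀ →+* L) := by
      rw [cv_map]
      rfl
    have e5 : (⟨0, 0, 0, ((a * D₀ ^ 2 : ℤ) : L), ((b * D₀ ^ 3 : ℤ) : L)⟩ : WeierstrassCurve L) =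
        (cv (a * (D₀ : L₀) ^ 2) (b * (D₀ : L₀) ^ 3)).map (φ : L₀ →+* L) := by
      rw [cv_map]
      simp only [map_mul, map_pow, map_intCast]
      push_cast
      rfl
    rw [e4, e5, map_variableChange, mul_smul, cv_scale]
    congr 1
    rw [← hC₂, WeierstrassCurve.baseChange, cv_map]
    congr 1
    refine congrArg₂ cv ?_ ?_
    · simp only [map_mul, map_pow, map_intCast, hδ, Units.val_inv_eq_inv_val, Units.val_mk0]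
      field_simp
    · simp only [map_mul, map_pow, map_intCast, hδ, Units.val_inv_eq_inv_val, Units.val_mk0]
      field_simp
  obtain ⟨C₃, hC₃⟩ := key1
  have ecv : (⟨0, 0, 0, (α : N₀), (β : N₀)⟩ : WeierstrassCurve N₀) =
      cv (a' * D ^ 2) (b' * D ^ 3) := congrArg₂ cv hα hβ
  have ecv2 : (⟨0, 0, 0, (((a : 𝓞 N₀) * (δ * (k : 𝓞 N₀)) ^ 2 : 𝓞 N₀) : N₀),
        (((b : 𝓞 N₀) * (δ * (k : 𝓞 N₀)) ^ 3 : 𝓞 N₀) : N₀)⟩ : WeierstrassCurve N₀) =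
        (⟨(Units.mk0 (k : N₀) hkN)⁻¹, 0, 0, 0⟩ : VariableChange N₀) •
          cv (a * D ^ 2) (b * D ^ 3) := by
    rw [cv_scale, inv_inv, Units.val_mk0]
    refine congrArg₂ cv ?_ ?_
    · show algebraMap (𝓞 N₀) N₀ _ = _
      simp only [map_mul, map_pow, map_intCast, hδ]
      ring
    · show algebraMap (𝓞 N₀) N₀ _ = _
      simp only [map_mul, map_pow, map_intCast, hδ]
      ring
  have hper2 : period (⟨0, 0, 0, (((a : 𝓞 N₀) * (δ * (k : 𝓞 N₀)) ^ 2 : 𝓞 N₀) : N₀),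
        (((b : 𝓞 N₀) * (δ * (k : 𝓞 N₀)) ^ 3 : 𝓞 N₀) : N₀)⟩ : WeierstrassCurve N₀) =
        period (cv ((a : N₀) * D ^ 2) (b * D ^ 3)) := by
    rw [ecv2]
    refine period_vc _ ?_ _
    rw [cv_Δ]
    refine mul_ne_zero (by norm_num) ?_
    have e : 4 * ((a : N₀) * D ^ 2) ^ 3 + 27 * ((b : N₀) * D ^ 3) ^ 2 =
        ((4 * (a * 1 ^ 2) ^ 3 + 27 * (b * 1 ^ 3) ^ 2 : ℤ) : N₀) * D ^ 6 := by
      push_cast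
      ring
    rw [e]
    exact mul_ne_zero (Int.cast_ne_zero.2 (H.discV 1 one_ne_zero)) (pow_ne_zero 6 hD)
  obtain ⟨x₀, ⟨i, i', hik⟩, hper⟩ := H.per D hD
  have hx0 : (x₀ : ℂ) ≠ 0 := by
    rw [hik]
    exact_mod_cast (mul_ne_zero (zpow_ne_zero i two_ne_zero) (zpow_ne_zero i' three_ne_zero) :
      (2 : ℝ) ^ i * 3 ^ i' ≠ 0)
  have hq' : g 1 * ((√|(discr N₀ : ℝ)| : ℝ) : ℂ) / ((period (⟨0, 0, 0,
      (((a : 𝓞 N₀) * (δ * (k : 𝓞 N₀)) ^ 2 : 𝓞 N₀) : N₀),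
      (((b : 𝓞 N₀) * (δ * (k : 𝓞 N₀)) ^ 3 : 𝓞 N₀) : N₀)⟩ : WeierstrassCurve N₀) : ℝ) : ℂ) =
        ((q * ((2 : ℚ) ^ i * 3 ^ i') : ℚ) : ℂ) := by
    have e2 : ((q * ((2 : ℚ) ^ i * 3 ^ i') : ℚ) : ℂ) = (q : ℂ) * (x₀ : ℂ) := by
      rw [hik]
      push_cast
      ring
    rw [e2, ← hq, hper2, ecv, hper]
    push_cast
    field_simp
  have hgs' : ∀ s : ℂ, 3 / 2 < s.re → g s = (⟨0, 0, 0,
      (((a : 𝓞 N₀) * (δ * (k : 𝓞 N₀)) ^ 2 : 𝓞 N₀) : N₀),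
      (((b : 𝓞 N₀) * (δ * (k : 𝓞 N₀)) ^ 3 : 𝓞 N₀) : N₀)⟩ : WeierstrassCurve N₀).LSeries s := by
    intro s hs
    rw [hgs s hs, ecv]
    have e6 : (⟨0, 0, 0, (((a : 𝓞 N₀) * (δ * (k : 𝓞 N₀)) ^ 2 : 𝓞 N₀) : N₀),
        (((b : 𝓞 N₀) * (δ * (k : 𝓞 N₀)) ^ 3 : 𝓞 N₀) : N₀)⟩ : WeierstrassCurve N₀) =
        cv (a * (D * k * k) ^ 2) (b * (D * k * k) ^ 3) := by
      refine congrArg₂ cv ?_ ?_
      · show algebraMap (𝓞 N₀) N₀ _ = _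
        simp only [map_mul, map_pow, map_intCast, hδ]
      · show algebraMap (𝓞 N₀) N₀ _ = _
        simp only [map_mul, map_pow, map_intCast, hδ]
    rw [e6]
    refine lser_eq (H.lfW _ (D * k * k)
      (⟨(Units.mk0 (k : N₀) hkN)⁻¹, 0, 0, 0⟩ : VariableChange N₀) ?_) s
    rw [cv_scale, inv_inv, Units.val_mk0]
    refine congrArg₂ cv ?_ ?_ <;> ring
  have hn : n ≠ 0 := by
    rcases H.n23 with rfl | rfl <;> norm_num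
  obtain ⟨δ', hδ'⟩ : ∃ δ' : 𝓞 F₀, δ' = algebraMap (𝓞 N₀) (𝓞 F₀) δ := ⟨_, rfl⟩
  have hδ0' : δ' ≠ 0 := by
    rw [hδ']
    exact fun h0 => hδ0 ((injective_iff_map_eq_zero _).1 hinj' δ h0)
  have e1' : algebraMap (𝓞 N₀) (𝓞 F₀) α * (k : 𝓞 F₀) ^ 2 = (a' : 𝓞 F₀) * δ' ^ 2 := by
    have e := congrArg (algebraMap (𝓞 N₀) (𝓞 F₀)) e1
    simpa only [map_mul, map_pow, map_intCast, ← hδ'] using e
  have e2' : algebraMap (𝓞 N₀) (𝓞 F₀) β * (k : 𝓞 F₀) ^ 3 = (b' : 𝓞 F₀) * δ' ^ 3 := by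
    have e := congrArg (algebraMap (𝓞 N₀) (𝓞 F₀)) e2
    simpa only [map_mul, map_pow, map_intCast, ← hδ'] using e
  have eA : algebraMap (𝓞 N₀) (𝓞 F₀) ((a : 𝓞 N₀) * (δ * (k : 𝓞 N₀)) ^ 2) =
      (a : 𝓞 F₀) * (δ' * (k : 𝓞 F₀)) ^ 2 := by
    simp only [map_mul, map_pow, map_intCast, hδ']
  have eB : algebraMap (𝓞 N₀) (𝓞 F₀) ((b : 𝓞 N₀) * (δ * (k : 𝓞 N₀)) ^ 3) =
      (b : 𝓞 F₀) * (δ' * (k : 𝓞 F₀)) ^ 3 := by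
    simp only [map_mul, map_pow, map_intCast, hδ']
  have hcnd := cndT_four H D₀ (algebraMap (𝓞 N₀) (𝓞 F₀) α) (algebraMap (𝓞 N₀) (𝓞 F₀) β) δ' k hk
    e1' e2' hkd hk8 hdd i i' h
  obtain ⟨hT, hnd, hG⟩ := nineT K N₀ F₀ L hK H.jnine hd (H.discV D₀ hD₀) (H.jV D₀) hN x₁ y₁ hxy₁
    (mul_ne_zero hm hn) ht₁ hgen₁ hne hC₃ hg hgs' hq' (by rw [eA, eB]; exact hcnd)
  rw [eA, eB] at hT hG
  have hℓ := h.prime
  have h6 : ¬ (ℓ : ℤ) ∣ 6 := by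
    intro h1
    refine h.cop ((h1.trans ?_).mul_left _)
    exact ⟨(4 * (a' * D₀ ^ 2) ^ 3 + 27 * (b' * D₀ ^ 3) ^ 2) * d *
      (if d ≤ -19 then (1 - d) / 4 else 1), by unfold bE; ring⟩
  have h2 : ℓ ≠ 2 := by
    rintro rfl
    exact h6 ⟨3, by norm_num⟩
  have h3 : ℓ ≠ 3 := by
    rintro rfl
    exact h6 ⟨2, by norm_num⟩
  have h4 : ℓ ≠ 4 := by
    rintro rfl
    exact absurd hℓ (by decide)
  have h5 : 5 ≤ ℓ := by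
    have := hℓ.two_le
    omega
  exact four_conT H hℓ h5 _ _ δ' k hk hδ0' e1' e2' hk8 hnd hG hT

end Pool.Agent.Lib.MP_1a91b9_nuZ
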