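import Pool.Agent.Lib.MP_1a91b9_nuE.Per
import Pool.Agent.Lib.MP_1a91b9_nuY.AN.Fam
import Pool.Agent.Lib.MP_1a91b9_nuY.TF.Lgb

/-!
# Twisted base: the unit property of the character from the value of the primitive series
-/

set_option autoImplicit false

namespace Pool.Agent.Lib.MP_1a91b9_nuZ

open NumberField IsDedekindDomain WeierstrassCurve Module IntermediateField
open Pool.Agent.Lib.MP_1a91b9_nuT hiding cj
open Pool.Agent.Lib.MP_1a91b9_nuX Pool.Agent.Lib.MP_1a91b9_nuX.QW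
open Pool.Agent.Lib.MP_1a91b9_nuX.DB Pool.Agent.Lib.MP_1a91b9_nuX.DX Pool.Agent.Lib.MP_1a91b9_nuX.GL
open Pool.Agent.Lib.MP_1a91b9_nuG (up ValueProp val_q)
open Pool.Agent.Lib.MP_1a91b9_nuX.PG
open Pool.Agent.Lib.MP_1a91b9_nuX.PH
open Pool.Agent.Lib.MP_1a91b9_nuX.TG Pool.Agent.Lib.MP_1a91b9_nuX.TC
open Pool.Agent.Lib.MP_1a91b9_nuX.LG
open Pool.Agent.Lib.MP_1a91b9_nuX.TH (ChW NaW eulR eulR_ne ser_T exists_B differentiable_eulR psP_at)
open Pool.Agent.Lib.MP_1a91b9_nuT.S4 (Lf entire_eq differentiable_conj_conj indC indC_of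
  indC_of_not val_integral val_eq_one_of_mul val_unit_add norm_indC_le)
open Pool.Agent.Lib.MP_1a91b9_nuT.Per (cv)
open Pool.Agent.Lib.MP_1a91b9_nuT.PL (Ab)
open Pool.Agent.Lib.MP_1a91b9_nuX.PA (bC_one bC_mul norm_bC_le bC_bad)
open Pool.Agent.Lib.MP_1a91b9_nuY
open Pool.Agent.Lib.MP_1a91b9_nuY.TF (lgb_dat)

variable [CD]

/-- The continuation and the integrality of the value of a Hecke character, for one prime number. -/
theorem value_leY {ℓ : ℕ} (hℓ : ℓ.Prime) {F : Type} [Field F] [NumberField F] [Algebra K F]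
    {g : 𝓞 K} {Ψ : Ideal (𝓞 F) → 𝓞 K} (hf : HF g F Ψ) (hg : IsCoprime g (ℓ : 𝓞 K))
    (hV : ValueProp g ℓ Om F) :
    ∃ L : ℂ → ℂ, Differentiable ℂ L ∧ (∀ s : ℂ, 2 < s.re → L s = Lf (pB Ψ) s) ∧
      ∀ A : ValuationSubring ℂ, Ab ℓ A → A.valuation (L 1 / Om ^ finrank K F) ≤ 1 := by
  have h30 : Ideal.span {up g F} ≠ 0 := hf.up_ne
  have hm2 : IsCoprime (Ideal.span {up g F}) (Ideal.span {(ℓ : 𝓞 F)}) := by
    rw [Ideal.isCoprime_span_singleton_iff]
    have h := hg.map (algebraMap (𝓞 K) (𝓞 F))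
    rwa [map_natCast] at h
  obtain ⟨ι, hι, J, G, hG, -, hGW, h⟩ := exists_family hf hℓ.ne_zero hV (Ideal.span {up g F}) h30
    hf.up_ne_top le_rfl hm2
  refine ⟨fun s => ∑ i, indC (Ideal.span {up g F}) (J i) * G i s, ?_, ?_, fun A hA => ?_⟩
  · exact Differentiable.fun_sum fun i _ => (differentiable_const _).mul (hG i)
  · intro s hs
    change ∑ i, indC (Ideal.span {up g F}) (J i) * G i s = _
    rw [← h (indC _) (fun I hI => indC_of_not hI) (norm_indC_le _) (S4.indC_ray _) s hs]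
    have hfin : {v : HeightOneSpectrum (𝓞 F) | Ideal.span {up g F} ≤ v.asIdeal}.Finite := by
      refine (Ideal.finite_factors h30).subset fun v hv => ?_
      exact Ideal.dvd_iff_le.mpr hv
    rw [Lf_indC hf _ hfin.toFinset (fun v => by rw [Set.Finite.mem_toFinset]; rfl) s hs]
    have e : ∏ v ∈ hfin.toFinset, (1 - pB Ψ v.asIdeal *
        (Ideal.absNorm v.asIdeal : ℂ) ^ (-s)) = 1 := by
      refine Finset.prod_eq_one fun v hv => ?_
      rw [Set.Finite.mem_toFinset] at hv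
      have hv' : Ideal.span {up g F} ≤ v.asIdeal := hv
      rw [Ideal.span_singleton_le_iff_mem] at hv'
      rw [pB_bad hf v hv', zero_mul, sub_zero]
    rw [e, mul_one]
  · change A.valuation ((∑ i, indC (Ideal.span {up g F}) (J i) * G i 1) / Om ^ finrank K F) ≤ 1
    rw [Finset.sum_div]
    refine (ValuationSubring.valuation_le_one_iff _ _).2 (sum_mem fun i _ => ?_)
    rw [mul_div_assoc]
    refine mul_mem ?_ ((ValuationSubring.valuation_le_one_iff _ _).1 (hGW i A hA))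
    rw [indC]
    split_ifs
    · exact one_mem _
    · exact zero_mem _

variable [HC]

section
variable {F : Type} [Field F] [NumberField F] [Algebra K F] {ℓ : ℕ}

/-- the Euler factor at `1` of the curve at a place is a unit above `ℓ` -/
theorem val_eulW {A : ValuationSubring ℂ} (hA : Ab ℓ A) {W : WeierstrassCurve F}
    {m : Ideal (𝓞 F)} (hm : FDat F W m (psP W)) (v : HeightOneSpectrum (𝓞 F))
    (hv : (ℓ : 𝓞 F) ∉ v.asIdeal) (hℓ : ℓ.Prime)
    (ha : Gd W v → IsCoprime (Hv W v - 1) (ℓ : 𝓞 K)) :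
    A.valuation (1 - bC (psP W) v.asIdeal * (Ideal.absNorm v.asIdeal : ℂ) ^ (-1 : ℂ)) = 1 := by
  by_cases hg : Gd W v
  · have hcop : IsCoprime v.asIdeal m := by
      by_contra h
      exact (hm.bad v).1 ((S4.le_iff_not_coprime _ v).2 h) hg
    have h1 := PA.pC_mul_bC hm v.asIdeal hcop
    have hN : (Ideal.absNorm v.asIdeal : ℂ) ≠ 0 := by
      have := Ideal.absNorm_ne_zero_iff_mem_nonZeroDivisors.mpr
        (mem_nonZeroDivisors_iff_ne_zero.mpr v.ne_bot)
      exact_mod_cast this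
    have h0 : PA.pC (psP W) v.asIdeal ≠ 0 := by
      intro h
      rw [h, zero_mul] at h1
      exact hN h1.symm
    have h2 : bC (psP W) v.asIdeal ≠ 0 := by
      intro h
      rw [h, mul_zero] at h1
      exact hN h1.symm
    have e : 1 - bC (psP W) v.asIdeal * (Ideal.absNorm v.asIdeal : ℂ) ^ (-1 : ℂ) =
        (PA.pC (psP W) v.asIdeal - 1) / PA.pC (psP W) v.asIdeal := by
      rw [Complex.cpow_neg_one, ← h1]
      field_simp
    have hi : IsIntegral ℤ (PA.pC (psP W) v.asIdeal) := PA.isIntegral_pC _ _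
    have hib : IsIntegral ℤ (bC (psP W) v.asIdeal) := by
      rw [PA.bC_eq]
      exact hi.map (starRingEnd ℂ).toIntAlgHom
    have h5 : A.valuation (PA.pC (psP W) v.asIdeal) = 1 := by
      refine val_eq_one_of_mul A (val_integral A hi) (val_integral A hib) ?_
      rw [h1]
      have hF : Fact ℓ.Prime := ⟨hℓ⟩
      exact hA.nat (MP_1a91b9_nuG.absNorm_coprime v hv)
    have h4 : A.valuation (PA.pC (psP W) v.asIdeal - 1) = 1 := by
      obtain ⟨a, b, hab⟩ := ha hg
      have hK : ∀ x : 𝓞 K, IsIntegral ℤ (embK (x : K)) := by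
        intro x
        have h : IsIntegral ℤ (x : K) := RingOfIntegers.isIntegral_coe _
        exact h.map embK.toRingHom.toIntAlgHom
      have h6 : (PA.pC (psP W) v.asIdeal - 1) * embK (a : K) =
          1 + -((ℓ : ℂ) * embK (b : K)) := by
        have h7 := congrArg (fun x : 𝓞 K => embK (x : K)) hab
        simp only [map_add, map_mul, map_sub, map_one, map_natCast] at h7
        rw [PA.pC, psP_at]
        linear_combination h7
      refine val_eq_one_of_mul A (val_integral A (hi.sub isIntegral_one))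
        (val_integral A (hK a)) ?_
      rw [h6]
      refine val_unit_add A (map_one _) ?_
      rw [Valuation.map_neg, map_mul]
      calc A.valuation (ℓ : ℂ) * _ ≤ A.valuation (ℓ : ℂ) * 1 :=
            mul_le_mul_right (val_integral A (hK b)) _
        _ < 1 := by rw [mul_one]; exact val_q A hA
    rw [e, map_div₀, h5, h4, div_one]
  · rw [bC_bad hm v ((hm.bad v).2 hg), zero_mul, sub_zero, map_one]

/-- the places above `g` are not above `ℓ` -/
theorem not_ell {g : 𝓞 K} (hg : IsCoprime g (ℓ : 𝓞 K)) (v : HeightOneSpectrum (𝓞 F))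
    (hv : up g F ∈ v.asIdeal) : (ℓ : 𝓞 F) ∉ v.asIdeal := by
  intro h
  obtain ⟨a, b, hab⟩ := hg.map (algebraMap (𝓞 K) (𝓞 F))
  rw [map_natCast] at hab
  apply v.isPrime.ne_top
  rw [Ideal.eq_top_iff_one, ← hab]
  exact v.asIdeal.add_mem (v.asIdeal.mul_mem_left _ hv) (v.asIdeal.mul_mem_left _ h)

theorem val_eulRW (hℓ : ℓ.Prime) {g : 𝓞 K} (hg : IsCoprime g (ℓ : 𝓞 K)) {W : WeierstrassCurve F}
    (hna : NaW ℓ g W) {A : ValuationSubring ℂ} (hA : Ab ℓ A)
    {m : Ideal (𝓞 F)} (hm : FDat F W m (psP W)) {B : Finset (HeightOneSpectrum (𝓞 F))}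
    (hB : ∀ v, v ∈ B ↔ Ideal.span {up g F} ≤ v.asIdeal) :
    A.valuation (eulR W B 1) = 1 := by
  rw [eulR, map_prod]
  refine Finset.prod_eq_one fun v hv => ?_
  have h1 : up g F ∈ v.asIdeal := (Ideal.span_singleton_le_iff_mem _).1 ((hB v).1 hv)
  exact val_eulW hA hm v (not_ell hg v h1) hℓ (hna v h1)

end

section
variable {μ : 𝓞 K} {F G : Type} [Field F] [NumberField F] [Algebra K F] [Field G] [NumberField G]
  [Algebra K G] [Algebra F G] [IsScalarTower K F G] [DecidableEq G] [IsGalois F G] {T : Pt G}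
  {ℓ : ℕ}

/-- the unit property from the value of the primitive series -/
theorem unitT_prim (hE : EllK) (hℓ : ℓ.Prime) (hT : AbT μ F T) {a b : F} {u : G}
    {θ : Gal(G/F) →* (𝓞 K)ˣ} (hs : ScD a b u θ) {g : 𝓞 K} (hg0 : g ≠ 0) (hg : gB μ ∣ g)
    (hgℓ : IsCoprime g (ℓ : 𝓞 K)) (hna : NaW ℓ g (cv a b)) {L : ℂ → ℂ} (hL : Differentiable ℂ L)
    (hL1 : ∀ s : ℂ, 2 < s.re → L s = Lf (bC (psP (cv a b))) s)
    (hv : ∀ A : ValuationSubring ℂ, Ab ℓ A → A.valuation (L 1 / Om ^ finrank K F) = 1) :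
    UnitT ℓ F (psT F T g θ) := by
  obtain ⟨⟨m, hm⟩, hc⟩ := lgb_dat hE hT hs hg0 hg
  obtain ⟨B, hB⟩ := exists_B hc.ne
  refine ⟨fun s => L s * eulR (cv a b) B s, hL.mul (differentiable_eulR B), fun s hs => ?_,
    fun A hA => ?_⟩
  · change L s * eulR (cv a b) B s = _
    rw [hL1 s hs, ← ser_T hm hc hB s hs, pB_psT_eq]
  · change A.valuation (L 1 * eulR (cv a b) B 1 / Om ^ finrank K F) = 1
    rw [mul_div_right_comm, map_mul, hv A hA, val_eulRW hℓ hgℓ hna hA hm hB, mul_one]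

/-- the unit property over a field which contains `K` -/
theorem unitT_K (hE : EllK) (hℓ : ℓ.Prime) (hT : AbT μ F T) {a b : F} {u : G}
    {θ : Gal(G/F) →* (𝓞 K)ˣ} (hs : ScD a b u θ) {g : 𝓞 K} (hg0 : g ≠ 0) (hg : gB μ ∣ g)
    (hgℓ : IsCoprime g (ℓ : 𝓞 K)) (hna : NaW ℓ g (cv a b)) (hV : ValueProp g ℓ Om F)
    {h : ℂ → ℂ} (hd : Differentiable ℂ h)
    (hl : ∀ s : ℂ, 3 / 2 < s.re → h s = (cv a b : WeierstrassCurve F).LSeries s)
    (h1 : ∀ A : ValuationSubring ℂ, Ab ℓ A →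
      A.valuation (h 1) = A.valuation Om ^ (2 * finrank K F)) : UnitT ℓ F (psT F T g θ) := by
  obtain ⟨⟨m, hm⟩, hc⟩ := lgb_dat hE hT hs hg0 hg
  obtain ⟨L, hL, hL1⟩ := PA.fdat_cont hm
  have hgL : h = fun s => (starRingEnd ℂ) (L ((starRingEnd ℂ) s)) * L s := by
    refine entire_eq hd ((differentiable_conj_conj hL).mul hL) fun s hs => ?_
    change _ = (starRingEnd ℂ) (L ((starRingEnd ℂ) s)) * L s
    rw [hl s (by linarith), LSeries_K' hm s (by linarith), hL1 s hs,
      hL1 _ (by rw [Complex.conj_re]; exact hs), Lf_pC]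
  have hg1 : h 1 = (starRingEnd ℂ) (L 1) * L 1 := by
    have h2 := congrFun hgL 1
    rw [map_one] at h2
    exact h2
  obtain ⟨B, hB⟩ := exists_B hc.ne
  obtain ⟨L', hL', hL1', hLv⟩ := value_leY hℓ (hf_psT (θ := θ) hT hg0 hg) hgℓ hV
  have hLL : L' = fun s => L s * eulR (cv a b) B s := by
    refine entire_eq hL' (hL.mul (differentiable_eulR B)) fun s hs => ?_
    change L' s = L s * eulR (cv a b) B s
    rw [hL1' s hs, hL1 s hs, ← ser_T hm hc hB s hs, pB_psT_eq]
  have hle : ∀ A : ValuationSubring ℂ, Ab ℓ A → A.valuation (L 1 / Om ^ finrank K F) ≤ 1 := by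
    intro A hA
    have h2 := hLv A hA
    rw [hLL] at h2
    change A.valuation (L 1 * eulR (cv a b) B 1 / Om ^ finrank K F) ≤ 1 at h2
    rwa [mul_div_right_comm, map_mul, val_eulRW hℓ hgℓ hna hA hm hB, mul_one] at h2
  refine unitT_prim hE hℓ hT hs hg0 hg hgℓ hna hL hL1 fun A hA => ?_
  have hO : Om ^ finrank K F ≠ 0 := pow_ne_zero _ Om_ne
  have hO' : (starRingEnd ℂ) (Om ^ finrank K F) ≠ 0 := (map_ne_zero _).2 hO
  have h3 : A.valuation ((starRingEnd ℂ) (L 1 / Om ^ finrank K F)) ≤ 1 := by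
    have h4 := hle _ hA.comap
    rw [ValuationSubring.valuation_le_one_iff, ValuationSubring.mem_comap] at h4
    exact (ValuationSubring.valuation_le_one_iff _ _).2 h4
  have h5 : A.valuation (L 1 / Om ^ finrank K F) *
      A.valuation ((starRingEnd ℂ) (L 1 / Om ^ finrank K F)) = 1 := by
    rw [← map_mul]
    have e : L 1 / Om ^ finrank K F * (starRingEnd ℂ) (L 1 / Om ^ finrank K F) =
        h 1 / (Om ^ finrank K F * (starRingEnd ℂ) (Om ^ finrank K F)) := by
      rw [hg1, map_div₀]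
      field_simp
    rw [e, map_div₀, h1 A hA, map_mul, map_pow (starRingEnd ℂ), map_pow, map_pow,
      MP_1a91b9_nuT.Per.val_conj_Om, two_mul, pow_add]
    exact div_self (mul_ne_zero (pow_ne_zero _ ((map_ne_zero _).2 Om_ne))
      (pow_ne_zero _ ((map_ne_zero _).2 Om_ne)))
  refine le_antisymm (hle A hA) ?_
  calc (1 : _) = A.valuation (L 1 / Om ^ finrank K F) *
      A.valuation ((starRingEnd ℂ) (L 1 / Om ^ finrank K F)) := h5.symm
    _ ≤ A.valuation (L 1 / Om ^ finrank K F) * 1 := mul_le_mul_right h3 _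
    _ = _ := mul_one _

/-- the unit property over a field which does not contain `K` -/
theorem unitT_N (hE : EllK) (hℓ : ℓ.Prime) (hT : AbT μ F T) {N : Type} [Field N] [NumberField N]
    [Algebra N F] (h2 : finrank N F = 2) (hn : ∀ x : N, algebraMap N F x ≠ algebraMap K F om)
    {a b : N} {u : G} {θ : Gal(G/F) →* (𝓞 K)ˣ}
    (hs : ScD (algebraMap N F a) (algebraMap N F b) u θ) {g : 𝓞 K} (hg0 : g ≠ 0)
    (hg : gB μ ∣ g) (hgℓ : IsCoprime g (ℓ : 𝓞 K))
    (hna : NaW ℓ g (cv (algebraMap N F a) (algebraMap N F b)))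
    {h : ℂ → ℂ} (hd : Differentiable ℂ h)
    (hl : ∀ s : ℂ, 3 / 2 < s.re → h s = (cv a b : WeierstrassCurve N).LSeries s)
    (h1 : ∀ A : ValuationSubring ℂ, Ab ℓ A →
      A.valuation (h 1) = A.valuation Om ^ (finrank K F)) : UnitT ℓ F (psT F T g θ) := by
  obtain ⟨⟨m, hm⟩, -⟩ := lgb_dat hE hT hs hg0 hg
  have ecv : cv (algebraMap N F a) (algebraMap N F b) = (cv a b).map (algebraMap N F) :=
    (LF.crv_map _ a b).symm
  obtain ⟨D₀, hD₀⟩ := TF.sc_curve hs (W := cv _ _) (D := 1) (one_smul _ _)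
  have hD' : D₀⁻¹ • E G = (cv (algebraMap N F a) (algebraMap N F b)).map
      (algebraMap F G) := by
    rw [← hD₀, inv_smul_smul]
  have hfm : Fm (cv (algebraMap N F a) (algebraMap N F b)) := by
    obtain ⟨ι, D, hD, -⟩ := TX.abW_gal hT hD'
    exact ⟨ι, D, hD⟩
  have he := hfm
  have hm' := hm
  rw [ecv] at he hm'
  have he' := eulD_P hE h2 hn he
  refine unitT_prim hE hℓ hT hs hg0 hg hgℓ hna hd (fun s hs => ?_) fun A hA => ?_
  · rw [hl s (by linarith), LSeries_N' hm' he' s (by linarith), ecv]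
  · rw [map_div₀, h1 A hA, map_pow]
    exact div_self (pow_ne_zero _ ((map_ne_zero _).2 Om_ne))

end

end Pool.Agent.Lib.MP_1a91b9_nuZ
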